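import Pool.Agent.T6.H7.SX.Ly
set_option autoImplicit false

/-!
The `2`-isogeny and the isomorphism of Lyness pairs.
-/

namespace Pool.Agent.T6.H7.SX

open Pool.Agent.W367.KT
open scoped TensorProduct WithZero

variable {F : Type*} [Field F]

/-- the `2`-isogeny attached to a root `s` of `k (s - 1) = s² (s + 1)` -/
def Phi (s x : F) : F := x * (x + 1 - s ^ 2) / (s * ((s - 1) * x - 1))

/-- the involution -/
def Zz (x : F) : F := -x / (1 + x)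

theorem one_add_Phi {s x : F} (hs : s ≠ 0) (hx : (s - 1) * x - 1 ≠ 0) :
    1 + Phi s x = (x + 1) * (x - s) / (s * ((s - 1) * x - 1)) := by
  unfold Phi
  rw [eq_div_iff (mul_ne_zero hs hx), add_mul, div_mul_cancel₀ _ (mul_ne_zero hs hx)]
  ring

theorem Zz_Phi {s x : F} (hs : s ≠ 0) (hx : (s - 1) * x - 1 ≠ 0) :
    Zz (Phi s x) = -(x * (x + 1 - s ^ 2)) / ((x + 1) * (x - s)) := by
  unfold Zz
  rw [one_add_Phi hs hx]
  unfold Phi
  rw [neg_div, neg_div, div_div_div_cancel_right₀ (mul_ne_zero hs hx)]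

theorem Zz_Zz {x : F} (hx : 1 + x ≠ 0) : Zz (Zz x) = x := by
  unfold Zz
  have h : 1 + -x / (1 + x) = 1 / (1 + x) := by field_simp; ring
  rw [h]
  field_simp

theorem Ly.phi {k s x y : F} (hrel : k * (s - 1) = s ^ 2 * (s + 1)) (h : Ly k x y) (hs : s ≠ 0)
    (hs1 : s - 1 ≠ 0) (hx : (s - 1) * x - 1 ≠ 0) (hy : (s - 1) * y - 1 ≠ 0) :
    Ly (((s + 1) / (s - 1)) ^ 2 / s) (Phi s x) (Phi s y) := by
  have hR : (1 + x) * (1 + y) * (1 + x + y) * (s - 1) - s ^ 2 * (s + 1) * x * y = 0 := by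
    unfold Ly at h
    linear_combination (s - 1) * h + x * y * hrel
  unfold Ly
  rw [one_add_Phi hs hx, one_add_Phi hs hy]
  unfold Phi
  obtain ⟨D, hD⟩ : ∃ D, D = (s - 1) * x - 1 := ⟨_, rfl⟩
  obtain ⟨E, hE⟩ : ∃ E, E = (s - 1) * y - 1 := ⟨_, rfl⟩
  obtain ⟨r, hr⟩ : ∃ r, r = s - 1 := ⟨_, rfl⟩
  rw [← hD] at hx ⊢
  rw [← hE] at hy ⊢
  rw [← hr] at hs1 ⊢
  field_simp
  rw [hD, hE, hr]
  linear_combination (x^2*y^2*s^2 - 2*x^2*y^2*s + x^2*y^2 - x^2*y*s^3 + 2*x^2*y*s^2 - 2*x^2*y*s + x^2*y + x^2*s^2 - x^2*s - x*y^2*s^3 + 2*x*y^2*s^2 - 2*x*y^2*s + x*y^2 + x*y*s^5 - 5*x*y*s^3 + 5*x*y*s^2 + x*y - 2*x*s^3 + 2*x*s^2 + y^2*s^2 - y^2*s - 2*y*s^3 + 2*y*s^2 + s^4 - s^3) * hR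

theorem Ly.phi_shift {k s x y : F} (hrel : k * (s - 1) = s ^ 2 * (s + 1)) (h : Ly k x y) (hs : s ≠ 0)
    (hx0 : x ≠ 0) (hx : (s - 1) * x - 1 ≠ 0) (hy : (s - 1) * y - 1 ≠ 0)
    (hxs : x + 1 - s ^ 2 ≠ 0) (h2 : (s - 1) * ((1 + y) / x) - 1 ≠ 0) :
    (1 + Phi s y) / Phi s x = Phi s ((1 + y) / x) := by
  have hR : (1 + x) * (1 + y) * (1 + x + y) * (s - 1) - s ^ 2 * (s + 1) * x * y = 0 := by
    unfold Ly at h
    linear_combination (s - 1) * h + x * y * hrel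
  rw [one_add_Phi hs hy]
  unfold Phi
  obtain ⟨D, hD⟩ : ∃ D, D = (s - 1) * x - 1 := ⟨_, rfl⟩
  obtain ⟨E, hE⟩ : ∃ E, E = (s - 1) * y - 1 := ⟨_, rfl⟩
  obtain ⟨G, hG⟩ : ∃ G, G = x + 1 - s ^ 2 := ⟨_, rfl⟩
  obtain ⟨H, hH⟩ : ∃ H, H = (s - 1) * (1 + y) - x := ⟨_, rfl⟩
  have e1 : (s - 1) * ((1 + y) / x) - 1 = H / x := by
    rw [hH]; field_simp
  have e2 : (1 + y) / x + 1 - s ^ 2 = (1 + y + x - s ^ 2 * x) / x := by
    field_simp
  rw [e1] at h2 ⊢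
  have hH0 : H ≠ 0 := by
    rintro rfl
    simp at h2
  rw [e2]
  rw [← hD] at hx ⊢
  rw [← hE] at hy ⊢
  rw [← hG] at hxs ⊢
  field_simp
  rw [hD, hE, hG, hH]
  linear_combination (1 + y) * (s^2 - s - 1) * hR

theorem Ly.zz {k x y : F} (h : Ly k x y) (hk : k ≠ 0) (hx : x ≠ 0) (hy : y ≠ 0) :
    Ly (-1 / k) (Zz x) (Zz ((1 + y) / x)) := by
  unfold Ly at h
  have h0 : (1 + x) * (1 + y) * (1 + x + y) ≠ 0 := by
    rw [h]; exact mul_ne_zero (mul_ne_zero hk hx) hy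
  have h1 : 1 + x ≠ 0 := fun h1 => h0 (by rw [h1]; ring)
  have h2 : 1 + y ≠ 0 := fun h1 => h0 (by rw [h1]; ring)
  have h3 : 1 + x + y ≠ 0 := fun h1 => h0 (by rw [h1]; ring)
  have e : Zz ((1 + y) / x) = -(1 + y) / (1 + x + y) := by
    unfold Zz
    have : 1 + (1 + y) / x = (1 + x + y) / x := by field_simp; ring
    rw [this]
    field_simp
  unfold Ly
  rw [e]
  unfold Zz
  have e1 : 1 + -x / (1 + x) = 1 / (1 + x) := by field_simp; ring
  have e2 : 1 + -(1 + y) / (1 + x + y) = x / (1 + x + y) := by field_simp; ring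
  have e3 : 1 / (1 + x) + -(1 + y) / (1 + x + y) = -(x * y) / ((1 + x) * (1 + x + y)) := by
    field_simp; ring
  rw [e1, e2, e3]
  obtain ⟨A, hA⟩ : ∃ A, A = 1 + x := ⟨_, rfl⟩
  obtain ⟨B, hB⟩ : ∃ B, B = 1 + y := ⟨_, rfl⟩
  obtain ⟨C, hC⟩ : ∃ C, C = 1 + x + y := ⟨_, rfl⟩
  rw [← hC, ← hA, ← hB] at h
  rw [← hC] at h3 ⊢
  rw [← hA] at h1 ⊢
  rw [← hB] at h2 ⊢
  field_simp
  linear_combination h

theorem Phi_Zz {s x : F} (hs : s ≠ 0) (hx1 : 1 + x ≠ 0) (hx2 : (-1 / s - 1) * x - 1 ≠ 0) :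
    Phi s (Zz x) = Zz (Phi (-1 / s) x) := by
  have hs' : (-1 / s : F) ≠ 0 := by
    rw [div_ne_zero_iff]; exact ⟨by simp, hs⟩
  rw [Zz_Phi hs' hx2]
  unfold Phi Zz
  have e1 : (s - 1) * (-x / (1 + x)) - 1 = -(1 + s * x) / (1 + x) := by field_simp; ring
  have e2 : -x / (1 + x) + 1 - s ^ 2 = (1 - s ^ 2 * (1 + x)) / (1 + x) := by field_simp; ring
  have e3 : x - -1 / s = (1 + s * x) / s := by field_simp; ring
  have e4 : x + 1 - (-1 / s) ^ 2 = (s ^ 2 * (1 + x) - 1) / s ^ 2 := by field_simp; ring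
  rw [e1, e2, e3, e4]
  by_cases h : 1 + s * x = 0
  · rw [h]; simp
  obtain ⟨A, hA⟩ : ∃ A, A = 1 + x := ⟨_, rfl⟩
  obtain ⟨B, hB⟩ : ∃ B, B = 1 + s * x := ⟨_, rfl⟩
  have e5 : x + 1 = A := by rw [hA]; ring
  rw [e5]
  rw [← hB] at h ⊢
  rw [← hA] at hx1 ⊢
  field_simp
  ring

theorem Zz_Zz_three {x y : F} (hx : 1 + x ≠ 0) (hy : 1 + y ≠ 0) (hxy : 1 + x + y ≠ 0) (hx0 : x ≠ 0) :
    (1 + Zz x + Zz ((1 + y) / x)) / (Zz x * Zz ((1 + y) / x)) = Zz y := by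
  have e : Zz ((1 + y) / x) = -(1 + y) / (1 + x + y) := by
    unfold Zz
    have : 1 + (1 + y) / x = (1 + x + y) / x := by field_simp; ring
    rw [this]
    field_simp
  rw [e]
  unfold Zz
  have e1 : 1 + -x / (1 + x) + -(1 + y) / (1 + x + y) = -(x * y) / ((1 + x) * (1 + x + y)) := by
    field_simp; ring
  rw [e1]
  obtain ⟨C, hC⟩ : ∃ C, C = 1 + x + y := ⟨_, rfl⟩
  rw [← hC] at hxy ⊢
  field_simp

section NC

open Polynomial

variable {K : Type*} [Field K] (φ : K →+* F)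

/-- `x` is not in the image of `K` -/
def NC (x : F) : Prop := ∀ c : K, x ≠ φ c

/-- `x` is transcendental over `K` -/
def Tr (x : F) : Prop := ∀ p : K[X], p ≠ 0 → p.eval₂ φ x ≠ 0

variable {φ}

theorem Tr.nc {x : F} (h : Tr φ x) : NC φ x := by
  intro c hc
  apply h (X - C c) (X_sub_C_ne_zero c)
  simp [hc]

theorem NC.ne_zero {x : F} (h : NC φ x) : x ≠ 0 := by
  have := h 0
  rwa [map_zero] at this

theorem NC.one_add_ne {x : F} (h : NC φ x) : 1 + x ≠ 0 := by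
  intro h1
  apply h (-1)
  rw [map_neg, map_one]
  linear_combination h1

theorem NC.sub_ne {x : F} (h : NC φ x) (c : K) : x - φ c ≠ 0 := sub_ne_zero.2 (h c)

theorem NC.den_ne {x : F} (h : NC φ x) (s : K) : (φ s - 1) * x - 1 ≠ 0 := by
  intro h1
  by_cases hs : s - 1 = 0
  · have : φ s - 1 = 0 := by rw [← map_one φ, ← map_sub, hs, map_zero]
    rw [this] at h1
    simp at h1
  · apply h (1 / (s - 1))
    rw [map_div₀, map_sub, map_one]
    have hs' : φ s - 1 ≠ 0 := by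
      intro h2
      apply hs
      rw [← map_one φ, ← map_sub, map_eq_zero] at h2
      exact h2
    rw [eq_div_iff hs']
    linear_combination h1

theorem NC.num_ne {x : F} (h : NC φ x) (s : K) : x + 1 - φ s ^ 2 ≠ 0 := by
  intro h1
  apply h (s ^ 2 - 1)
  rw [map_sub, map_pow, map_one]
  linear_combination h1

theorem NC.zz {x : F} (h : NC φ x) : NC φ (Zz x) := by
  intro c hc
  apply h (Zz c)
  rw [← Zz_Zz h.one_add_ne, hc]
  unfold Zz
  rw [map_div₀, map_neg, map_add, map_one]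

theorem NC.phi_ne {x : F} (h : NC φ x) {s : K} (hs : s ≠ 0) : Phi (φ s) x ≠ 0 := by
  unfold Phi
  exact div_ne_zero (mul_ne_zero h.ne_zero (h.num_ne s))
    (mul_ne_zero ((map_ne_zero φ).2 hs) (h.den_ne s))

theorem NC.one_add_phi_ne {x : F} (h : NC φ x) {s : K} (hs : s ≠ 0) : 1 + Phi (φ s) x ≠ 0 := by
  rw [one_add_Phi ((map_ne_zero φ).2 hs) (h.den_ne s), add_comm x 1]
  exact div_ne_zero (mul_ne_zero h.one_add_ne (h.sub_ne s))
    (mul_ne_zero ((map_ne_zero φ).2 hs) (h.den_ne s))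

theorem Zz_ne_zero {x : F} (h : x ≠ 0) (h1 : 1 + x ≠ 0) : Zz x ≠ 0 := by
  unfold Zz
  exact div_ne_zero (neg_ne_zero.2 h) h1

theorem Tr.quad {x : F} (h : Tr φ x) (a b c : K) (h0 : φ a * x ^ 2 + φ b * x + φ c = 0) :
    a = 0 ∧ b = 0 ∧ c = 0 := by
  set p : K[X] := C a * X ^ 2 + C b * X + C c with hp
  have hp0 : p = 0 := by
    by_contra hne
    apply h p hne
    simp only [hp, eval₂_add, eval₂_mul, eval₂_C, eval₂_pow, eval₂_X]
    exact h0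
  have h1 := congrArg (fun q => q.coeff 2) hp0
  have h2 := congrArg (fun q => q.coeff 1) hp0
  have h3 := congrArg (fun q => q.coeff 0) hp0
  simp [hp, coeff_C] at h1 h2 h3
  exact ⟨h1, h2, h3⟩

theorem Ly.nc_y {k : K} (hk : k ≠ 0) {x y : F} (h : Ly (φ k) x y) (hx : Tr φ x) : NC φ y := by
  rintro c rfl
  unfold Ly at h
  obtain ⟨h1, h2, -⟩ := hx.quad (1 + c) ((1 + c) * (2 + c) - k * c) ((1 + c) ^ 2) (by
    simp only [map_add, map_sub, map_mul, map_pow, map_one, map_ofNat]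
    linear_combination h)
  have h3 : c = -1 := by linear_combination h1
  rw [h3] at h2
  apply hk
  linear_combination h2

theorem Ly.nc_shift {k : K} (hk : k ≠ 0) {x y : F} (h : Ly (φ k) x y) (hx : Tr φ x) :
    NC φ ((1 + y) / x) := by
  intro c hc
  have hx0 := hx.nc.ne_zero
  have hy : y = φ c * x - 1 := by
    rw [div_eq_iff hx0] at hc
    linear_combination hc
  unfold Ly at h
  rw [hy] at h
  have h2 : φ c * (1 + φ c) * (x ^ 2 + x) - φ k * (φ c * x - 1) = 0 := by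
    apply mul_left_cancel₀ hx0
    rw [mul_zero]
    linear_combination h
  obtain ⟨-, -, h3⟩ := hx.quad (c * (1 + c)) (c * (1 + c) - k * c) k (by
    simp only [map_add, map_sub, map_mul, map_one]
    linear_combination h2)
  exact hk h3

end NC

end Pool.Agent.T6.H7.SX
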