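import Pool.Agent.W367.KT.Loops
import Pool.Agent.T6.H7.SX.Iso
set_option autoImplicit false

/-!
Representations of the functions on the circle.
-/

namespace Pool.Agent.T6.H7.SX

open Pool.Agent.W367.KT
open Set MeasureTheory intervalIntegral Polynomial
open scoped TensorProduct WithZero Interval

/-- closed `C^1` functions -/
def CC (f : ℝ → ℂ) : Prop := ContDiff ℝ 1 f ∧ f 0 = f 1

namespace CC

variable {f g : ℝ → ℂ}

theorem const (c : ℂ) : CC (fun _ => c) := ⟨contDiff_const, rfl⟩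

theorem circ (R : ℝ) : CC (circ R) := ⟨contDiff_circ R, circ_closed R⟩

theorem add (hf : CC f) (hg : CC g) : CC (fun t => f t + g t) :=
  ⟨hf.1.add hg.1, by dsimp only; rw [hf.2, hg.2]⟩

theorem sub (hf : CC f) (hg : CC g) : CC (fun t => f t - g t) :=
  ⟨hf.1.sub hg.1, by dsimp only; rw [hf.2, hg.2]⟩

theorem neg (hf : CC f) : CC (fun t => - f t) :=
  ⟨hf.1.neg, by dsimp only; rw [hf.2]⟩

theorem mul (hf : CC f) (hg : CC g) : CC (fun t => f t * g t) :=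
  ⟨hf.1.mul hg.1, by dsimp only; rw [hf.2, hg.2]⟩

theorem pow (hf : CC f) (n : ℕ) : CC (fun t => f t ^ n) :=
  ⟨hf.1.pow n, by dsimp only; rw [hf.2]⟩

theorem inv (hf : CC f) (h : ∀ t, f t ≠ 0) : CC (fun t => (f t)⁻¹) :=
  ⟨hf.1.inv h, by dsimp only; rw [hf.2]⟩

theorem div (hf : CC f) (hg : CC g) (h : ∀ t, g t ≠ 0) : CC (fun t => f t / g t) := by
  simp only [div_eq_mul_inv]
  exact hf.mul (hg.inv h)

/-- functions `1 - E` with small `E` -/
theorem near {R : ℝ} {E : ℝ → ℂ} (hE : CC E) (h : ∀ t, ‖E t‖ ≤ 1 / 2) :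
    Rep' R (fun t => 1 - E t) 1 0 1 := by
  have h1 : CC (fun t => 1 - E t) := (CC.const 1).sub hE
  have := Rep'.near_one (R := R) h1.1 h1.2 (δ := 1/2) le_rfl (fun t => by
    have e : 1 - E t - 1 = - E t := by ring
    rw [e, norm_neg]
    exact h t)
  obtain ⟨α, h1, h2, h3, h4⟩ := this
  exact ⟨α, h1, h2, h3, fun t => (h4 t).trans (by norm_num)⟩

end CC

theorem rep_inv {R : ℝ} {A : ℝ → ℂ} {c : ℂ} {m : ℤ} {A0 A1 : ℝ}
    (hA : Rep R A c m A0 A1) : Rep R (fun t => (A t)⁻¹) c⁻¹ (-m) A0 A1 := by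
  obtain ⟨α, h1, h2, h3, h4, h5⟩ := hA
  refine ⟨fun t => -α t, h1.neg, by dsimp only; rw [h2], fun t => ?_, fun t => ?_, fun t => ?_⟩
  · dsimp only; rw [h3, mul_inv, mul_inv, zpow_neg, Complex.exp_neg]
  · rw [norm_neg]; exact h4 t
  · have : deriv (fun t => - α t) t = - deriv α t := deriv.fun_neg
    rw [this, norm_neg]; exact h5 t

/-- `Zz (Phi s x)` -/
def ZPhi {F : Type*} [Field F] (s x : F) : F := -(x * (x + 1 - s ^ 2)) / ((x + 1) * (x - s))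

section gen

variable {R : ℝ} (hR : 0 < R) {z : ℝ → ℂ} {s c c2 c3 c4 c5 : ℂ} {m m2 m3 m4 m5 : ℤ}
include hR

theorem rep_phi {A A2 A3 B B2 B3 : ℝ} (h1 : Rep R z c m A B) (h2 : Rep R (fun t => z t + 1 - s ^ 2) c2 m2 A2 B2)
    (h3 : Rep R (fun t => (s - 1) * z t - 1) c3 m3 A3 B3) :
    Rep R (fun t => Phi s (z t)) (c * c2 / (s * c3)) (m + m2 - m3) (A + A2 + A3) (B + B2 + B3) := by
  have h := (h1.mul hR h2).mul hR (rep_inv ((Rep.const R s).mul hR h3))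
  refine h.congr (fun t => ?_) ?_ ?_ ?_ ?_
  · unfold Phi; rw [div_eq_mul_inv]
  · rw [div_eq_mul_inv]
  · ring
  · linarith
  · linarith

theorem rep'_phi {A A2 A3 : ℝ} (h1 : Rep' R z c m A) (h2 : Rep' R (fun t => z t + 1 - s ^ 2) c2 m2 A2)
    (h3 : Rep' R (fun t => (s - 1) * z t - 1) c3 m3 A3) :
    Rep' R (fun t => Phi s (z t)) (c * c2 / (s * c3)) (m + m2 - m3) (A + A2 + A3) := by
  have h := (h1.mul hR h2).mul hR ((Rep.const R s).rep'.mul hR h3).inv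
  refine h.congr (fun t => ?_) ?_ ?_ ?_
  · unfold Phi; rw [div_eq_mul_inv]
  · rw [div_eq_mul_inv]
  · ring
  · linarith

theorem rep_zphi {A A2 A4 A5 B B2 B4 B5 : ℝ} (h1 : Rep R z c m A B)
    (h2 : Rep R (fun t => z t + 1 - s ^ 2) c2 m2 A2 B2)
    (h4 : Rep R (fun t => z t + 1) c4 m4 A4 B4) (h5 : Rep R (fun t => z t - s) c5 m5 A5 B5) :
    Rep R (fun t => ZPhi s (z t)) (-(c * c2) / (c4 * c5)) (m + m2 - m4 - m5) (A + A2 + A4 + A5)
      (B + B2 + B4 + B5) := by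
  have h := (Rep.const R (-1)).mul hR ((h1.mul hR h2).mul hR (rep_inv (h4.mul hR h5)))
  refine h.congr (fun t => ?_) ?_ ?_ ?_ ?_
  · unfold ZPhi; rw [div_eq_mul_inv]; ring
  · rw [div_eq_mul_inv]; ring
  · ring
  · linarith
  · linarith

theorem rep'_zphi {A A2 A4 A5 : ℝ} (h1 : Rep' R z c m A)
    (h2 : Rep' R (fun t => z t + 1 - s ^ 2) c2 m2 A2)
    (h4 : Rep' R (fun t => z t + 1) c4 m4 A4) (h5 : Rep' R (fun t => z t - s) c5 m5 A5) :
    Rep' R (fun t => ZPhi s (z t)) (-(c * c2) / (c4 * c5)) (m + m2 - m4 - m5) (A + A2 + A4 + A5) := by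
  have h := (Rep.const R (-1)).rep'.mul hR ((h1.mul hR h2).mul hR (h4.mul hR h5).inv)
  refine h.congr (fun t => ?_) ?_ ?_ ?_
  · unfold ZPhi; rw [div_eq_mul_inv]; ring
  · rw [div_eq_mul_inv]; ring
  · ring
  · linarith

end gen

end Pool.Agent.T6.H7.SX
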