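import Pool.Agent.T6.H7.SX.An
set_option autoImplicit false

/-!
Representations of the functions on the circle, in the two cases.
-/

namespace Pool.Agent.T6.H7.SX

open Pool.Agent.W367.KT
open Set MeasureTheory intervalIntegral Polynomial
open scoped TensorProduct WithZero Interval

/-- parameters in standard position -/
structure Par (R : ℝ) (k : ℂ) (w : ℝ → ℂ) : Prop where
  R1 : 1 / 4 < R
  R2 : R < 1 / 3
  kb : 10 ^ 6 ≤ ‖k‖
  wc : CC w
  wb : ∀ t, ‖w t - 1‖ ≤ 1 / 1000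

/-- the large branch -/
noncomputable def yy (R : ℝ) (k : ℂ) (w : ℝ → ℂ) (t : ℝ) : ℂ := k * circ R t * (1 + circ R t)⁻¹ * w t

namespace Par

variable {R : ℝ} {k : ℂ} {w : ℝ → ℂ} (P : Par R k w)
include P

theorem hR : 0 < R := by linarith [P.R1]

theorem x_ne (t : ℝ) : circ R t ≠ 0 := circ_ne_zero P.hR t

theorem nx (t : ℝ) : ‖circ R t‖ = R := norm_circ P.hR t

theorem n1p (t : ℝ) : 2 / 3 ≤ ‖1 + circ R t‖ := by
  have h := norm_sub_norm_le (1 : ℂ) (-circ R t)
  rw [norm_one, norm_neg, P.nx, sub_neg_eq_add] at h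
  linarith [P.R2]

theorem n1p' (t : ℝ) : ‖1 + circ R t‖ ≤ 4 / 3 := by
  have h := norm_add_le (1 : ℂ) (circ R t)
  rw [norm_one, P.nx] at h
  linarith [P.R2]

theorem n1m (t : ℝ) : 2 / 3 ≤ ‖1 - circ R t‖ := by
  have h := norm_sub_norm_le (1 : ℂ) (circ R t)
  rw [norm_one, P.nx] at h
  linarith [P.R2]

theorem ne1p (t : ℝ) : 1 + circ R t ≠ 0 := by
  rw [← norm_pos_iff]; linarith [P.n1p t]

theorem ne1m (t : ℝ) : 1 - circ R t ≠ 0 := by
  rw [← norm_pos_iff]; linarith [P.n1m t]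

theorem nw (t : ℝ) : 999 / 1000 ≤ ‖w t‖ := by
  have h := norm_sub_norm_le (1 : ℂ) (1 - w t)
  rw [norm_one, norm_sub_rev, sub_sub_cancel] at h
  linarith [P.wb t]

theorem nw' (t : ℝ) : ‖w t‖ ≤ 1001 / 1000 := by
  have h := norm_add_le (1 : ℂ) (w t - 1)
  rw [norm_one, add_sub_cancel] at h
  linarith [P.wb t]

theorem w_ne (t : ℝ) : w t ≠ 0 := by
  rw [← norm_pos_iff]; linarith [P.nw t]

theorem k_ne : k ≠ 0 := by
  rw [← norm_pos_iff]; linarith [P.kb]

theorem ny (t : ℝ) : ‖k‖ / 8 ≤ ‖yy R k w t‖ := by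
  unfold yy
  rw [norm_mul, norm_mul, norm_mul, norm_inv, P.nx]
  have h1 : 3 / 4 ≤ ‖1 + circ R t‖⁻¹ := by
    rw [le_inv_comm₀ (by norm_num) (by linarith [P.n1p t])]
    linarith [P.n1p' t]
  have h2 := P.R1
  have h3 := P.nw t
  have h4 : 0 ≤ ‖k‖ := norm_nonneg _
  calc ‖k‖ / 8 ≤ ‖k‖ * (1 / 4) * (3 / 4) * (999 / 1000) := by linarith
    _ ≤ ‖k‖ * R * ‖1 + circ R t‖⁻¹ * ‖w t‖ := by gcongr

theorem y_ne (t : ℝ) : yy R k w t ≠ 0 := by
  rw [← norm_pos_iff]; linarith [P.ny t, P.kb]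

theorem nyinv (t : ℝ) : ‖(yy R k w t)⁻¹‖ ≤ 1 / 100000 := by
  rw [norm_inv, inv_le_comm₀ (norm_pos_iff.2 (P.y_ne t)) (by norm_num)]
  linarith [P.ny t, P.kb]

theorem cx : CC (circ R) := CC.circ R

theorem c1p : CC (fun t => 1 + circ R t) := (CC.const 1).add P.cx

theorem c1m : CC (fun t => 1 - circ R t) := (CC.const 1).sub P.cx

theorem cy : CC (yy R k w) := by
  unfold yy
  exact (((CC.const k).mul P.cx).mul (P.c1p.inv P.ne1p)).mul P.wc

theorem cyinv : CC (fun t => (yy R k w t)⁻¹) := P.cy.inv P.y_ne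

theorem rep_1px : Rep R (fun t => 1 + circ R t) 1 0 1 (2 * Real.pi) := by
  have h := Rep.one_sub P.hR (-1) 1 (by norm_num) (fun t => by
    rw [norm_mul, norm_neg, norm_one, zpow_one, one_mul, P.nx]; linarith [P.R2])
  refine h.congr (fun t => ?_) rfl rfl le_rfl le_rfl
  rw [zpow_one]; ring

theorem rep_xp1 : Rep R (fun t => circ R t + 1) 1 0 1 (2 * Real.pi) :=
  P.rep_1px.congr (fun t => by ring) rfl rfl le_rfl le_rfl

theorem rep_1mx : Rep R (fun t => 1 - circ R t) 1 0 1 (2 * Real.pi) := by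
  have h := Rep.one_sub P.hR 1 1 (by norm_num) (fun t => by
    rw [norm_mul, norm_one, zpow_one, one_mul, P.nx]; linarith [P.R2])
  refine h.congr (fun t => ?_) rfl rfl le_rfl le_rfl
  rw [zpow_one]; ring

theorem rep_w : Rep' R w 1 0 1 := by
  have h := CC.near (R := R) ((CC.const 1).sub P.wc) (fun t => by
    rw [norm_sub_rev]; linarith [P.wb t])
  exact h.congr (fun t => by ring) rfl rfl le_rfl

theorem rep_y : Rep' R (yy R k w) k 1 2 := by
  have h := (((Rep.const R k).rep'.mul P.hR (Rep.x R).rep').mul P.hR P.rep_1px.rep'.inv).mul P.hR P.rep_w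
  exact h.congr (fun t => rfl) (by ring) (by ring) (by norm_num)

/-- the third function `(1 + y) / x` -/
theorem rep_x2 : Rep' R (fun t => (1 + yy R k w t) / circ R t) k 0 3 := by
  have h1 := CC.near (R := R) (P.cyinv.neg) (fun t => by
    rw [norm_neg]; linarith [P.nyinv t])
  have h := (P.rep_y.mul P.hR (Rep.x R).rep'.inv).mul P.hR h1
  refine h.congr (fun t => ?_) (by ring) (by ring) (by norm_num)
  have := P.y_ne t
  have := P.x_ne t
  field_simp
  ring

theorem n_x2 (t : ℝ) : ‖k‖ / 8 ≤ ‖(1 + yy R k w t) / circ R t‖ := by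
  rw [norm_div, P.nx, le_div_iff₀ P.hR]
  have h := norm_sub_norm_le (yy R k w t) (-1 : ℂ)
  rw [norm_neg, norm_one, sub_neg_eq_add, add_comm _ (1:ℂ)] at h
  have h2 := P.ny t
  have h3 := P.kb
  have h4 := P.R2
  have h5 : 0 ≤ ‖k‖ := norm_nonneg _
  nlinarith

theorem c_x2 : CC (fun t => (1 + yy R k w t) / circ R t) :=
  ((CC.const 1).add P.cy).div P.cx P.x_ne

theorem x2_ne (t : ℝ) : (1 + yy R k w t) / circ R t ≠ 0 := by
  rw [← norm_pos_iff]; linarith [P.n_x2 t, P.kb]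

theorem rep_x2_add (a : ℂ) (ha : ‖a‖ ≤ ‖k‖ / 16) :
    Rep' R (fun t => (1 + yy R k w t) / circ R t + a) k 0 4 := by
  have h1 := CC.near (R := R) (((CC.const a).div P.c_x2 P.x2_ne).neg) (fun t => by
    rw [norm_neg, norm_div, div_le_iff₀ (norm_pos_iff.2 (P.x2_ne t))]
    linarith [P.n_x2 t])
  have h := P.rep_x2.mul P.hR h1
  refine h.congr (fun t => ?_) (by ring) (by ring) (by norm_num)
  have := P.x2_ne t
  rw [mul_sub, mul_one, mul_neg, mul_div_cancel₀ _ this]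
  ring

theorem rep_x3 : Rep' R (fun t => (1 + circ R t + yy R k w t) / (circ R t * yy R k w t)) 1 (-1) 1 := by
  have h1 := CC.near (R := R) ((P.c1p.mul P.cyinv).neg) (fun t => by
    rw [norm_neg, norm_mul]
    have h2 := P.nyinv t
    have h3 := P.n1p' t
    have h4 := norm_nonneg (yy R k w t)⁻¹
    nlinarith)
  have h := (Rep.x R).rep'.inv.mul P.hR h1
  refine h.congr (fun t => ?_) (by ring) (by ring) (by norm_num)
  have := P.y_ne t
  have := P.x_ne t
  field_simp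
  ring

theorem rep_x3_one : Rep' R (fun t => (1 + circ R t + yy R k w t) / (circ R t * yy R k w t) + 1) 1 (-1) 2 := by
  have h1 := CC.near (R := R) (P.cyinv.neg) (fun t => by
    rw [norm_neg]; linarith [P.nyinv t])
  have h := ((Rep.x R).rep'.inv.mul P.hR P.rep_1px.rep').mul P.hR h1
  refine h.congr (fun t => ?_) (by ring) (by ring) (by norm_num)
  have := P.y_ne t
  have := P.x_ne t
  field_simp
  ring

theorem n_x3 (t : ℝ) : ‖(1 + circ R t + yy R k w t) / (circ R t * yy R k w t)‖ ≤ 6 := by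
  have e : (1 + circ R t + yy R k w t) / (circ R t * yy R k w t) =
      ((1 + circ R t) * (yy R k w t)⁻¹ + 1) / circ R t := by
    have := P.y_ne t
    have := P.x_ne t
    field_simp
  rw [e, norm_div, P.nx, div_le_iff₀ P.hR]
  have h1 := norm_add_le ((1 + circ R t) * (yy R k w t)⁻¹) 1
  rw [norm_mul, norm_one] at h1
  have h2 := P.nyinv t
  have h3 := P.n1p' t
  have h4 := norm_nonneg (yy R k w t)⁻¹
  have h5 := P.R1
  nlinarith

theorem c_x3 : CC (fun t => (1 + circ R t + yy R k w t) / (circ R t * yy R k w t)) :=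
  (P.c1p.add P.cy).div (P.cx.mul P.cy) (fun t => mul_ne_zero (P.x_ne t) (P.y_ne t))

theorem rep_x_sub {s : ℂ} (hs : 9 / 10 ≤ ‖s‖) : Rep R (fun t => circ R t - s) (-s) 0 1 (2 * Real.pi) := by
  have hs0 : s ≠ 0 := by rw [← norm_pos_iff]; linarith
  have h := (Rep.const R (-s)).mul P.hR (Rep.one_sub P.hR s⁻¹ 1 (by norm_num) (fun t => by
    rw [norm_mul, norm_inv, zpow_one, P.nx, inv_mul_le_iff₀ (norm_pos_iff.2 hs0)]; linarith [P.R2]))
  refine h.congr (fun t => ?_) (by ring) (by ring) (by norm_num) (by norm_num)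
  rw [zpow_one]; field_simp; ring

end Par

end Pool.Agent.T6.H7.SX
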