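import Pool.Agent.T6.H7.SX.Root
set_option autoImplicit false

/-!
Bounds for the units at the six real roots.
-/

namespace Pool.Agent.T6.H7.SX

open Pool.Agent.W367.KT
open Set

/-- the three elements -/
def sv {K : Type*} [Field K] (n s : K) : Fin 3 → K := ![s, sTwo n s, sThree n s]

theorem b_big {n b r : ℝ} (hn : 0 < n) (h : b * (r - 1) = r ^ 2 * (r + 1)) (hr : 1 < r)
    (hr2 : (r - 1) * n ≤ 1 ∨ n ≤ r ^ 2) : n ≤ |b| := by
  have hb : 0 < b := by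
    by_contra hcon
    have : b * (r - 1) ≤ 0 := mul_nonpos_of_nonpos_of_nonneg (not_lt.1 hcon) (by linarith)
    have h2 : 0 < r ^ 2 * (r + 1) := by positivity
    linarith
  rw [abs_of_pos hb]
  rcases hr2 with hr2 | hr2
  · have h1 : 1 ≤ b * (r - 1) := by
      rw [h]
      nlinarith
    have h3 : b * ((r - 1) * n) ≤ b * 1 := mul_le_mul_of_nonneg_left hr2 hb.le
    nlinarith
  · have h1 : r ^ 2 * (r - 1) ≤ b * (r - 1) := by
      rw [h]
      have : 0 ≤ r ^ 2 := by positivity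
      nlinarith
    have h2 : r ^ 2 ≤ b := le_of_mul_le_mul_right h1 (by linarith)
    linarith

theorem b_small {n b r : ℝ} (hn : 0 < n) (hb : b ≠ 0) (h : b * (r - 1) = r ^ 2 * (r + 1)) (hr : -1 < r)
    (hr1 : r < 1) (hr2 : r ^ 2 * (r + 1) * n ≤ 1 - r) : n ≤ |-1 / b| := by
  rw [abs_div, abs_neg, abs_one, le_div_iff₀ (abs_pos.2 hb)]
  have h1 : |b| * (1 - r) = r ^ 2 * (r + 1) := by
    have e : 1 - r = |r - 1| := by rw [abs_of_neg (by linarith)]; ring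
    rw [e, ← abs_mul, h, abs_of_nonneg]
    have : 0 ≤ r + 1 := by linarith
    positivity
  have h3 : (n * |b|) * (1 - r) ≤ 1 * (1 - r) := by
    rw [mul_assoc, h1]
    linarith
  exact le_of_mul_le_mul_right h3 (by linarith)

section

variable {n : ℝ} (hn : 100 ≤ n) {r : ℝ} (hr0 : fr n r = 0)

theorem fr_rel (hr0 : fr n r = 0) : bPar n r * (r - 1) = r ^ 2 * (r + 1) := s_rel hr0 two_ne_zero

include hn hr0

theorem bd1 (h1 : 1 < r) (h2 : r < 1 + 1 / n) : n ≤ |bPar n r| ∧ |sv n r 0| ≤ 10 := by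
  have hn0 : 0 < n := by linarith
  have h3 : 1 / n ≤ 1 := by rw [div_le_one hn0]; linarith
  constructor
  · apply b_big hn0 (fr_rel hr0) h1
    left
    have h4 : (r - 1) * n < 1 / n * n := mul_lt_mul_of_pos_right (by linarith) hn0
    rw [div_mul_cancel₀ _ hn0.ne'] at h4
    exact h4.le
  · show |r| ≤ 10
    rw [abs_of_pos (by linarith)]
    linarith

theorem bd2 (h1 : n + 1 < r) (h2 : r < n + 1 + 2 / n) : n ≤ |bPar n r| ∧ |sv n r 1| ≤ 10 := by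
  have hn0 : 0 < n := by linarith
  constructor
  · apply b_big hn0 (fr_rel hr0) (by linarith)
    right
    nlinarith
  · show |sTwo n r| ≤ 10
    obtain ⟨θ, rfl⟩ : ∃ θ, r = n + 1 + θ := ⟨r - n - 1, by ring⟩
    have h3 : 0 < θ := by linarith
    have h4 : θ * n < 2 := by
      have : θ * n < 2 / n * n := mul_lt_mul_of_pos_right (by linarith) hn0
      rwa [div_mul_cancel₀ _ hn0.ne'] at this
    have h5 : θ < 1 := by nlinarith
    have hr : 0 < n + 1 + θ := by linarith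
    unfold sTwo
    rw [abs_div, abs_of_pos (by linarith : 0 < 2 * (n + 1 + θ)), div_le_iff₀ (by linarith)]
    have e : (n + 1 + θ) ^ 3 - n * (n + 1 + θ) ^ 2 - n * (n + 1 + θ) + 1 =
        (n + 1 + θ) * (1 + 2 * θ + θ * n + θ ^ 2) + 1 := by ring
    rw [e, abs_of_pos (by positivity)]
    have h6 : 1 + 2 * θ + θ * n + θ ^ 2 ≤ 6 := by nlinarith
    nlinarith

theorem bd3 (h1 : n - 1 - 6 / n < r) (h2 : r < n - 1) : n ≤ |bPar n r| ∧ |sv n r 2| ≤ 10 := by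
  have hn0 : 0 < n := by linarith
  obtain ⟨θ, rfl⟩ : ∃ θ, r = n - 1 - θ := ⟨n - 1 - r, by ring⟩
  have h3 : 0 < θ := by linarith
  have h4 : θ * n < 6 := by
    have : θ * n < 6 / n * n := mul_lt_mul_of_pos_right (by linarith) hn0
    rwa [div_mul_cancel₀ _ hn0.ne'] at this
  have h5 : θ < 1 := by nlinarith
  have hr : 0 < n - 1 - θ := by linarith
  constructor
  · apply b_big hn0 (fr_rel hr0) (by linarith)
    right
    nlinarith
  · show |sThree n (n - 1 - θ)| ≤ 10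
    have e : sThree n (n - 1 - θ) = ((n - 1 - θ) * (-1 + θ * n - θ ^ 2) - 1) / (2 * (n - 1 - θ)) := by
      unfold sThree sTwo
      field_simp
      ring
    rw [e, abs_div, abs_of_pos (by linarith : 0 < 2 * (n - 1 - θ)), div_le_iff₀ (by linarith), abs_le]
    have h6 : -1 + θ * n - θ ^ 2 ≤ 6 := by nlinarith
    have h7 : -2 ≤ -1 + θ * n - θ ^ 2 := by nlinarith
    constructor
    · nlinarith
    · nlinarith

theorem bPar_ne' : bPar n r ≠ 0 := by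
  have _ := hn
  exact bPar_ne hr0 two_ne_zero

theorem bd4 (h1 : -1 < r) (h2 : r < -1 + 1 / n) : n ≤ |-1 / bPar n r| ∧ |-1 / sv n r 0| ≤ 10 := by
  have hn0 : 0 < n := by linarith
  have h3 : 1 / n ≤ 1 / 100 := one_div_le_one_div_of_le (by norm_num) hn
  have hr : r ≤ -1 / 2 := by linarith
  constructor
  · apply b_small hn0 (bPar_ne' hn hr0) (fr_rel hr0) h1 (by linarith)
    have h4 : (r + 1) * n < 1 / n * n := mul_lt_mul_of_pos_right (by linarith) hn0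
    rw [div_mul_cancel₀ _ hn0.ne'] at h4
    have h5 : r ^ 2 ≤ 1 := by nlinarith
    have h6 : 0 < (r + 1) * n := mul_pos (by linarith) hn0
    nlinarith
  · show |-1 / r| ≤ 10
    rw [abs_div, abs_neg, abs_one, div_le_iff₀ (abs_pos.2 (by linarith)), abs_of_neg (by linarith)]
    linarith

end

section

variable {n : ℝ} (hn : 100 ≤ n) {ρ : ℝ} (hr0 : gr n ρ = 0)
include hn hr0

theorem bd5 (h1 : n - 1 < ρ) (h2 : ρ < n - 1 + 2 / n) :
    n ≤ |-1 / bPar n ρ⁻¹| ∧ |-1 / sv n ρ⁻¹ 1| ≤ 10 := by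
  have hn0 : 0 < n := by linarith
  have hρ : 0 < ρ := by linarith
  have hf := fr_inv hρ.ne' hr0
  have hr : 0 < ρ⁻¹ := inv_pos.2 hρ
  have hr2 : ρ⁻¹ ≤ 1 / 50 := by
    rw [inv_le_comm₀ hρ (by norm_num)]
    linarith
  have h3 : ρ⁻¹ * n ≤ 2 := by
    rw [inv_mul_le_iff₀ hρ]
    linarith
  constructor
  · apply b_small hn0 (bPar_ne' hn hf) (fr_rel hf) (by linarith) (by linarith)
    have e : ρ⁻¹ ^ 2 * (ρ⁻¹ + 1) * n = ρ⁻¹ * (ρ⁻¹ + 1) * (ρ⁻¹ * n) := by ring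
    rw [e]
    have h4 : ρ⁻¹ * (ρ⁻¹ + 1) ≤ 1 / 50 * 2 := by
      apply mul_le_mul hr2 (by linarith) (by linarith) (by norm_num)
    have h5 : ρ⁻¹ * (ρ⁻¹ + 1) * (ρ⁻¹ * n) ≤ 1 / 50 * 2 * 2 := by
      apply mul_le_mul h4 h3 (by positivity) (by norm_num)
    linarith
  · show |-1 / sTwo n ρ⁻¹| ≤ 10
    obtain ⟨θ, hθ⟩ : ∃ θ, ρ = n - 1 + θ := ⟨ρ - n + 1, by ring⟩
    have h5 : θ < 1 := by
      have : 2 / n ≤ 2 / 100 := div_le_div_of_nonneg_left (by norm_num) (by norm_num) hn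
      linarith
    have e : sTwo n ρ⁻¹ = (ρ⁻¹ * (ρ⁻¹ - n) + (ρ - n)) / 2 := by
      unfold sTwo
      field_simp
      ring
    have h6 : ρ⁻¹ * (ρ⁻¹ - n) ≤ 0 := mul_nonpos_of_nonneg_of_nonpos hr.le (by linarith)
    have h7 : sTwo n ρ⁻¹ ≤ -1 / 10 := by
      have : 2 / n ≤ 2 / 100 := div_le_div_of_nonneg_left (by norm_num) (by norm_num) hn
      rw [e]
      linarith
    rw [abs_div, abs_neg, abs_one, div_le_iff₀ (abs_pos.2 (by linarith)), abs_of_neg (by linarith)]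
    linarith

theorem bd6 (h1 : n + 1 - 6 / n < ρ) (h2 : ρ < n + 1) :
    n ≤ |-1 / bPar n ρ⁻¹| ∧ |-1 / sv n ρ⁻¹ 2| ≤ 10 := by
  have hn0 : 0 < n := by linarith
  have h60 : 6 / n ≤ 6 / 100 := div_le_div_of_nonneg_left (by norm_num) (by norm_num) hn
  have hρ : 0 < ρ := by linarith
  have hf := fr_inv hρ.ne' hr0
  have hr : 0 < ρ⁻¹ := inv_pos.2 hρ
  have hr2 : ρ⁻¹ ≤ 1 / 50 := by
    rw [inv_le_comm₀ hρ (by norm_num)]
    linarith
  have h3 : ρ⁻¹ * n ≤ 1 := by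
    rw [inv_mul_le_iff₀ hρ]
    linarith
  constructor
  · apply b_small hn0 (bPar_ne' hn hf) (fr_rel hf) (by linarith) (by linarith)
    have e : ρ⁻¹ ^ 2 * (ρ⁻¹ + 1) * n = ρ⁻¹ * (ρ⁻¹ + 1) * (ρ⁻¹ * n) := by ring
    rw [e]
    have h4 : ρ⁻¹ * (ρ⁻¹ + 1) ≤ 1 / 50 * 2 := by
      apply mul_le_mul hr2 (by linarith) (by linarith) (by norm_num)
    have h5 : ρ⁻¹ * (ρ⁻¹ + 1) * (ρ⁻¹ * n) ≤ 1 / 50 * 2 * 1 := by
      apply mul_le_mul h4 h3 (by positivity) (by norm_num)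
    linarith
  · show |-1 / sThree n ρ⁻¹| ≤ 10
    have e : sThree n ρ⁻¹ = (-2 - 2 * ρ⁻¹ - ρ⁻¹ * ρ⁻¹ + ρ⁻¹ * n - (ρ - n)) / 2 := by
      unfold sThree sTwo
      field_simp
      ring
    have h7 : sThree n ρ⁻¹ ≤ -1 / 10 := by
      rw [e]
      nlinarith
    rw [abs_div, abs_neg, abs_one, div_le_iff₀ (abs_pos.2 (by linarith)), abs_of_neg (by linarith)]
    linarith

end

end Pool.Agent.T6.H7.SX
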