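import Pool.Agent.T6.H7.SX.CaseII
set_option autoImplicit false

/-!
Existence of the large branch on the circle.
-/

namespace Pool.Agent.T6.H7.SX

open Pool.Agent.W367.KT
open Set MeasureTheory intervalIntegral Polynomial
open scoped TensorProduct WithZero Interval

/-- roots of `v² - v + δ = 0` close to `1` -/
theorem exists_v {δ : ℝ → ℂ} (hδ : CC δ) (hb : ∀ t, ‖δ t‖ ≤ 1 / 100000) :
    ∃ v : ℝ → ℂ, CC v ∧ (∀ t, v t ^ 2 - v t + δ t = 0) ∧ ∀ t, ‖v t - 1‖ ≤ 1 / 10000 := by
  have hsmall : ∀ t, ‖-(4 * δ t)‖ ≤ 4 / 100000 := by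
    intro t
    rw [norm_neg, norm_mul]
    simp only [Complex.norm_ofNat]
    linarith [hb t]
  have hs : ∀ t, 1 - 4 * δ t ∈ Complex.slitPlane := fun t => by
    rw [sub_eq_add_neg]
    exact slit_of_norm ((hsmall t).trans (by norm_num))
  have hc1 : CC (fun t => 1 - 4 * δ t) := (CC.const 1).sub ((CC.const 4).mul hδ)
  have hc2 : ContDiff ℝ 1 (fun t => Complex.log (1 - 4 * δ t)) := by
    rw [contDiff_iff_contDiffAt]
    intro t
    exact (((Complex.contDiffAt_log (hs t)).restrict_scalars ℝ).comp t (hc1.1.contDiffAt))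
  set s : ℝ → ℂ := fun t => Complex.exp (Complex.log (1 - 4 * δ t) / 2) with hsdef
  have hc3 : CC s := ⟨(hc2.div_const 2).cexp, by simp only [hsdef]; rw [hδ.2]⟩
  have hs2 : ∀ t, s t ^ 2 = 1 - 4 * δ t := by
    intro t
    simp only [hsdef]
    rw [← Complex.exp_nat_mul]
    push_cast
    rw [mul_div_cancel₀ _ (two_ne_zero), Complex.exp_log (Complex.slitPlane_ne_zero (hs t))]
  have hlog : ∀ t, ‖Complex.log (1 - 4 * δ t) / 2‖ ≤ 3 / 100000 := by
    intro t
    have := Complex.norm_log_one_add_half_le_self (z := -(4 * δ t)) ((hsmall t).trans (by norm_num))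
    rw [← sub_eq_add_neg] at this
    rw [norm_div, Complex.norm_ofNat]
    linarith [hsmall t]
  have hs1 : ∀ t, ‖s t - 1‖ ≤ 6 / 100000 := by
    intro t
    have := Complex.norm_exp_sub_one_le (x := Complex.log (1 - 4 * δ t) / 2) ((hlog t).trans (by norm_num))
    linarith [hlog t]
  refine ⟨fun t => (1 + s t) * (1 / 2), ((CC.const 1).add hc3).mul (CC.const _), ?_, ?_⟩
  · intro t
    linear_combination (1/4) * hs2 t
  · intro t
    have e : (1 + s t) * (1 / 2) - 1 = (s t - 1) * (1 / 2) := by ring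
    rw [e, norm_mul]
    have : ‖(1 / 2 : ℂ)‖ = 1 / 2 := by simp
    rw [this]
    linarith [hs1 t]

theorem exists_par {R : ℝ} (hR1 : 1 / 4 < R) (hR2 : R < 1 / 3) {k : ℂ} (hk : 10 ^ 6 ≤ ‖k‖) :
    ∃ w : ℝ → ℂ, Par R k w ∧ ∀ t, Ly k (circ R t) (yy R k w t) := by
  have hR : 0 < R := by linarith
  have hk0 : k ≠ 0 := by rw [← norm_pos_iff]; linarith
  have nx : ∀ t, ‖circ R t‖ = R := norm_circ hR
  have x_ne : ∀ t, circ R t ≠ 0 := circ_ne_zero hR
  have n1p : ∀ t, 2 / 3 ≤ ‖1 + circ R t‖ := fun t => by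
    have h := norm_sub_norm_le (1 : ℂ) (-circ R t)
    rw [norm_one, norm_neg, nx, sub_neg_eq_add] at h
    linarith
  have n1p' : ∀ t, ‖1 + circ R t‖ ≤ 4 / 3 := fun t => by
    have h := norm_add_le (1 : ℂ) (circ R t)
    rw [norm_one, nx] at h
    linarith
  have n2p' : ∀ t, ‖2 + circ R t‖ ≤ 7 / 3 := fun t => by
    have h := norm_add_le (2 : ℂ) (circ R t)
    rw [Complex.norm_ofNat, nx] at h
    linarith
  have ne1p : ∀ t, 1 + circ R t ≠ 0 := fun t => by
    rw [← norm_pos_iff]; linarith [n1p t]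
  have cx : CC (circ R) := CC.circ R
  have c1p : CC (fun t => 1 + circ R t) := (CC.const 1).add cx
  have c2p : CC (fun t => 2 + circ R t) := (CC.const 2).add cx
  set B : ℝ → ℂ := fun t => k * circ R t / (1 + circ R t) - (2 + circ R t) with hB
  have cB : CC B := (((CC.const k).mul cx).div c1p ne1p).sub c2p
  have nB : ∀ t, 100000 ≤ ‖B t‖ := by
    intro t
    have h1 := norm_sub_norm_le (k * circ R t / (1 + circ R t)) (2 + circ R t)
    have h2 : 3 / 16 * 10 ^ 6 ≤ ‖k * circ R t / (1 + circ R t)‖ := by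
      rw [norm_div, norm_mul, nx, le_div_iff₀ (by linarith [n1p t])]
      have h3 := n1p' t
      have h4 : (10:ℝ) ^ 6 * (1 / 4) ≤ ‖k‖ * R := mul_le_mul hk hR1.le (by norm_num) (norm_nonneg _)
      nlinarith [n1p t]
    simp only [hB]
    linarith [n2p' t]
  have B_ne : ∀ t, B t ≠ 0 := fun t => by
    rw [← norm_pos_iff]; linarith [nB t]
  have cδ : CC (fun t => (1 + circ R t) / B t ^ 2) := c1p.div (cB.pow 2) (fun t => pow_ne_zero 2 (B_ne t))
  obtain ⟨v, cv, hv, nv⟩ := exists_v cδ (fun t => by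
    rw [norm_div, norm_pow, div_le_iff₀ (by have := nB t; positivity)]
    have := nB t
    have := n1p' t
    nlinarith)
  set η : ℝ → ℂ := fun t => (2 + circ R t) * (1 + circ R t) / (k * circ R t) with hη
  have cη : CC η := (c2p.mul c1p).div ((CC.const k).mul cx) (fun t => mul_ne_zero hk0 (x_ne t))
  have nη : ∀ t, ‖η t‖ ≤ 1 / 10000 := by
    intro t
    simp only [hη]
    rw [norm_div, norm_mul, norm_mul, nx]
    have h4 : (10:ℝ) ^ 6 * (1 / 4) ≤ ‖k‖ * R := mul_le_mul hk hR1.le (by norm_num) (norm_nonneg _)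
    rw [div_le_iff₀ (by linarith)]
    have h5 : ‖2 + circ R t‖ * ‖1 + circ R t‖ ≤ 7 / 3 * (4 / 3) :=
      mul_le_mul (n2p' t) (n1p' t) (norm_nonneg _) (by norm_num)
    linarith
  refine ⟨fun t => (1 - η t) * v t, ⟨hR1, hR2, hk, ((CC.const 1).sub cη).mul cv, ?_⟩, ?_⟩
  · intro t
    have e : (1 - η t) * v t - 1 = (v t - 1) - η t * v t := by ring
    rw [e]
    have h1 := norm_sub_le (v t - 1) (η t * v t)
    rw [norm_mul] at h1
    have h2 : ‖v t‖ ≤ 2 := by
      have h3 := norm_add_le (1 : ℂ) (v t - 1)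
      rw [norm_one, add_sub_cancel] at h3
      linarith [nv t]
    have h3 : ‖η t‖ * ‖v t‖ ≤ 1 / 10000 * 2 := mul_le_mul (nη t) h2 (norm_nonneg _) (by norm_num)
    linarith [nv t]
  · intro t
    have hy : yy R k (fun t => (1 - η t) * v t) t = B t * v t := by
      unfold yy
      simp only [hB, hη]
      have := x_ne t
      have := ne1p t
      generalize circ R t = x at *
      field_simp
    rw [hy]
    have h1 : (B t * v t) ^ 2 - B t * (B t * v t) + (1 + circ R t) = 0 := by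
      have h2 := hv t
      have h3 := B_ne t
      have h4 : B t ^ 2 * (v t ^ 2 - v t + (1 + circ R t) / B t ^ 2) = 0 := by rw [h2, mul_zero]
      rw [mul_add, mul_div_cancel₀ _ (pow_ne_zero 2 h3)] at h4
      linear_combination h4
    have h5 : B t * (1 + circ R t) = k * circ R t - (2 + circ R t) * (1 + circ R t) := by
      simp only [hB]
      have := ne1p t
      rw [sub_mul, div_mul_cancel₀ _ this]
    unfold Ly
    generalize B t * v t = y at *
    generalize circ R t = x at *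
    linear_combination (1 + x) * h1 + y * h5

end Pool.Agent.T6.H7.SX
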