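import Pool.Agent.T6.H7.SX.Bd
set_option autoImplicit false

/-!
Representations of the functions on the circle for `s` close to `1`.
-/

namespace Pool.Agent.T6.H7.SX

open Pool.Agent.W367.KT
open Set MeasureTheory intervalIntegral Polynomial
open scoped TensorProduct WithZero Interval

namespace Par

variable {R : ℝ} {k : ℂ} {w : ℝ → ℂ} (P : Par R k w) {s : ℂ} (hs : ‖s - 1‖ ≤ 1 / 1000)
  (hrel : k * (s - 1) = s ^ 2 * (s + 1))
include hs

theorem _root_.Pool.Agent.T6.H7.SX.ns_I : ‖s‖ ≤ 1001 / 1000 := by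
  have h := norm_add_le (1 : ℂ) (s - 1)
  rw [norm_one, add_sub_cancel] at h
  linarith

theorem _root_.Pool.Agent.T6.H7.SX.ns_I' : 9 / 10 ≤ ‖s‖ := by
  have h := norm_sub_norm_le (1 : ℂ) (1 - s)
  rw [norm_one, norm_sub_rev, sub_sub_cancel] at h
  linarith

theorem _root_.Pool.Agent.T6.H7.SX.nsq_I : ‖s ^ 2 - 1‖ ≤ 3 / 1000 := by
  have e : s ^ 2 - 1 = (s - 1) * (s + 1) := by ring
  rw [e, norm_mul]
  have h := norm_add_le s 1
  rw [norm_one] at h
  have h2 := ns_I hs
  have h3 := norm_nonneg (s - 1)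
  nlinarith

theorem _root_.Pool.Agent.T6.H7.SX.ncub_I : ‖s ^ 2 * (s + 1) - 2‖ ≤ 8 / 1000 := by
  have e : s ^ 2 * (s + 1) - 2 = (s ^ 2 - 1) * (s + 1) + (s - 1) := by ring
  rw [e]
  have h := norm_add_le s 1
  rw [norm_one] at h
  have h2 := ns_I hs
  have h3 := norm_nonneg (s ^ 2 - 1)
  have h4 := norm_add_le ((s ^ 2 - 1) * (s + 1)) (s - 1)
  rw [norm_mul] at h4
  have h5 := nsq_I hs
  have h6 : ‖s ^ 2 - 1‖ * ‖s + 1‖ ≤ 3 / 1000 * (2001/1000) := by
    apply mul_le_mul h5 (by linarith) (norm_nonneg _) (by norm_num)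
  linarith

include P

theorem I_x2 : Rep R (fun t => circ R t + 1 - s ^ 2) 1 1 1 (2 * Real.pi) := by
  have h := (Rep.x R).mul P.hR (Rep.one_sub P.hR (s ^ 2 - 1) (-1) (by norm_num) (fun t => by
    rw [norm_mul, norm_zpow, P.nx, zpow_neg_one, ← div_eq_mul_inv, div_le_iff₀ P.hR]
    linarith [P.R1, nsq_I hs]))
  refine h.congr (fun t => ?_) (by ring) (by ring) (by norm_num) (by norm_num)
  have := P.x_ne t
  rw [zpow_neg_one]; field_simp; ring

theorem I_x3 : Rep R (fun t => (s - 1) * circ R t - 1) (-1) 0 1 (2 * Real.pi) := by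
  have h := (Rep.const R (-1)).mul P.hR (Rep.one_sub P.hR (s - 1) 1 (by norm_num) (fun t => by
    rw [norm_mul, zpow_one, P.nx]
    nlinarith [P.R1, P.R2, norm_nonneg (s - 1)]))
  refine h.congr (fun t => ?_) (by ring) (by ring) (by norm_num) (by norm_num)
  rw [zpow_one]; ring

theorem I_phi_x : Rep R (fun t => Phi s (circ R t)) (-1 / s) 2 2 (4 * Real.pi) :=
  (rep_phi P.hR (Rep.x R) (P.I_x2 hs) (P.I_x3 hs)).congr (fun t => rfl) (by
    have : s ≠ 0 := by rw [← norm_pos_iff]; linarith [ns_I' hs]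
    field_simp) (by norm_num) (by norm_num) (by linarith [Real.pi_pos])

theorem I_zphi_x : Rep R (fun t => ZPhi s (circ R t)) (1 / s) 2 3 (6 * Real.pi) :=
  (rep_zphi P.hR (Rep.x R) (P.I_x2 hs) P.rep_xp1 (P.rep_x_sub (ns_I' hs))).congr (fun t => rfl) (by
    have : s ≠ 0 := by rw [← norm_pos_iff]; linarith [ns_I' hs]
    field_simp) (by norm_num) (by norm_num) (by linarith [Real.pi_pos])

theorem I_y2 : Rep' R (fun t => yy R k w t + 1 - s ^ 2) k 1 3 := by
  have h1 := CC.near (R := R) ((CC.const (s ^ 2 - 1)).mul P.cyinv) (fun t => by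
    rw [norm_mul]
    have h2 := P.nyinv t
    have h3 := nsq_I hs
    have h4 := norm_nonneg (yy R k w t)⁻¹
    nlinarith [norm_nonneg (s ^ 2 - 1)])
  have h := P.rep_y.mul P.hR h1
  refine h.congr (fun t => ?_) (by ring) (by ring) (by norm_num)
  have := P.y_ne t
  field_simp
  ring

include hrel in
theorem I_y3 : Rep' R (fun t => (s - 1) * yy R k w t - 1) (-1) 0 3 := by
  have h1 := CC.near (R := R) (E := fun t => (s ^ 2 * (s + 1) * w t - 2) * circ R t / (1 - circ R t))
    (((((CC.const (s ^ 2 * (s + 1))).mul P.wc).sub (CC.const 2)).mul P.cx).div P.c1m P.ne1m) (fun t => by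
    have e : s ^ 2 * (s + 1) * w t - 2 = (s ^ 2 * (s + 1) - 2) * w t + 2 * (w t - 1) := by ring
    have h2 : ‖s ^ 2 * (s + 1) * w t - 2‖ ≤ 1 / 10 := by
      rw [e]
      have h3 := norm_add_le ((s ^ 2 * (s + 1) - 2) * w t) (2 * (w t - 1))
      rw [norm_mul, norm_mul, Complex.norm_ofNat] at h3
      have h4 := ncub_I hs
      have h5 := P.nw' t
      have h6 := P.wb t
      have h7 : ‖s ^ 2 * (s + 1) - 2‖ * ‖w t‖ ≤ 8 / 1000 * (1001 / 1000) :=
        mul_le_mul h4 h5 (norm_nonneg _) (by norm_num)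
      linarith
    rw [norm_div, norm_mul, P.nx, div_le_iff₀ (by linarith [P.n1m t])]
    have h8 := P.n1m t
    have h9 := P.R2
    have h10 := P.hR
    nlinarith [norm_nonneg (s ^ 2 * (s + 1) * w t - 2)])
  have h := ((Rep.const R (-1)).rep'.mul P.hR P.rep_1mx.rep').mul P.hR (P.rep_1px.rep'.inv.mul P.hR h1)
  refine h.congr (fun t => ?_) (by ring) (by ring) (by norm_num)
  have h2 := P.ne1m t
  have h3 := P.ne1p t
  have e : (s - 1) * yy R k w t = s ^ 2 * (s + 1) * circ R t * (1 + circ R t)⁻¹ * w t := by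
    unfold yy
    rw [← hrel]; ring
  rw [e]
  generalize circ R t = x at *
  field_simp
  ring

include hrel in
theorem I_phi_y : Rep' R (fun t => Phi s (yy R k w t)) (-k ^ 2 / s) 2 8 :=
  (rep'_phi P.hR P.rep_y (P.I_y2 hs) (P.I_y3 hs hrel)).congr (fun t => rfl) (by
    have : s ≠ 0 := by rw [← norm_pos_iff]; linarith [ns_I' hs]
    field_simp) (by norm_num) (by norm_num)

theorem I_zphi_x2 : Rep' R (fun t => ZPhi s ((1 + yy R k w t) / circ R t)) (-1) 0 15 := by
  have h2 := P.rep_x2_add (1 - s ^ 2) (by rw [norm_sub_rev]; linarith [nsq_I hs, P.kb])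
  have h4 := P.rep_x2_add 1 (by rw [norm_one]; linarith [P.kb])
  have h5 := P.rep_x2_add (-s) (by rw [norm_neg]; linarith [ns_I hs, P.kb])
  refine (rep'_zphi P.hR P.rep_x2 (h2.congr (fun t => by ring) rfl rfl le_rfl) h4
    (h5.congr (fun t => by ring) rfl rfl le_rfl)).congr (fun t => rfl) (by
      have := P.k_ne
      field_simp) (by norm_num) (by norm_num)

theorem I_zphi_x3 : Rep' R (fun t => ZPhi s ((1 + circ R t + yy R k w t) / (circ R t * yy R k w t)))
    (-1) 0 6 := by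
  -- `x3 + 1 - s²`
  have h2 : Rep' R (fun t => (1 + circ R t + yy R k w t) / (circ R t * yy R k w t) + 1 - s ^ 2) 1 (-1) 1 := by
    have h1 := CC.near (R := R) (E := fun t => (s ^ 2 - 1) * circ R t - (1 + circ R t) * (yy R k w t)⁻¹)
      (((CC.const (s ^ 2 - 1)).mul P.cx).sub (P.c1p.mul P.cyinv)) (fun t => by
      have h3 := norm_sub_le ((s ^ 2 - 1) * circ R t) ((1 + circ R t) * (yy R k w t)⁻¹)
      rw [norm_mul, norm_mul, P.nx] at h3
      have h4 := nsq_I hs
      have h5 := P.n1p' t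
      have h6 := P.nyinv t
      have h7 : ‖1 + circ R t‖ * ‖(yy R k w t)⁻¹‖ ≤ 4 / 3 * (1 / 100000) :=
        mul_le_mul h5 h6 (norm_nonneg _) (by norm_num)
      have h8 : ‖s ^ 2 - 1‖ * R ≤ 3 / 1000 * (1 / 3) :=
        mul_le_mul h4 P.R2.le P.hR.le (by norm_num)
      linarith)
    have h := (Rep.x R).rep'.inv.mul P.hR h1
    refine h.congr (fun t => ?_) (by ring) (by ring) (by norm_num)
    have := P.y_ne t
    have := P.x_ne t
    field_simp
    ring
  have h5 : Rep' R (fun t => (1 + circ R t + yy R k w t) / (circ R t * yy R k w t) - s) 1 (-1) 2 := by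
    have h1 := CC.near (R := R)
      (E := fun t => ((s - 1) * circ R t - (1 + circ R t) * (yy R k w t)⁻¹) / (1 - circ R t))
      ((((CC.const (s - 1)).mul P.cx).sub (P.c1p.mul P.cyinv)).div P.c1m P.ne1m) (fun t => by
      have h3 := norm_sub_le ((s - 1) * circ R t) ((1 + circ R t) * (yy R k w t)⁻¹)
      rw [norm_mul, norm_mul, P.nx] at h3
      have h5 := P.n1p' t
      have h6 := P.nyinv t
      have h7 : ‖1 + circ R t‖ * ‖(yy R k w t)⁻¹‖ ≤ 4 / 3 * (1 / 100000) :=
        mul_le_mul h5 h6 (norm_nonneg _) (by norm_num)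
      have h8 : ‖s - 1‖ * R ≤ 1 / 1000 * (1 / 3) :=
        mul_le_mul hs P.R2.le P.hR.le (by norm_num)
      rw [norm_div, div_le_iff₀ (by linarith [P.n1m t])]
      linarith [P.n1m t])
    have h := ((Rep.x R).rep'.inv.mul P.hR P.rep_1mx.rep').mul P.hR h1
    refine h.congr (fun t => ?_) (by ring) (by ring) (by norm_num)
    have := P.y_ne t
    have := P.x_ne t
    have := P.ne1m t
    field_simp
    ring
  exact (rep'_zphi P.hR P.rep_x3 h2 P.rep_x3_one h5).congr (fun t => rfl) (by norm_num) (by norm_num)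
    (by norm_num)

end Par

end Pool.Agent.T6.H7.SX
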