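import Pool.Agent.T6.H7.SX.CaseI
set_option autoImplicit false

/-!
Representations of the functions on the circle for large `s`.
-/

namespace Pool.Agent.T6.H7.SX

open Pool.Agent.W367.KT
open Set MeasureTheory intervalIntegral Polynomial
open scoped TensorProduct WithZero Interval

section bounds

variable {s k : ℂ} (hs : 1000 ≤ ‖s‖) (hrel : k * (s - 1) = s ^ 2 * (s + 1))
include hs

theorem s_ne_II : s ≠ 0 := by rw [← norm_pos_iff]; linarith

theorem ns1_II : 999 ≤ ‖s - 1‖ := by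
  have h := norm_sub_norm_le s (1 : ℂ)
  rw [norm_one] at h
  linarith

theorem s1_ne_II : s - 1 ≠ 0 := by rw [← norm_pos_iff]; linarith [ns1_II hs]

theorem sp1_ne_II : s + 1 ≠ 0 := by
  have h := norm_sub_norm_le s (-1 : ℂ)
  rw [norm_neg, norm_one, sub_neg_eq_add] at h
  rw [← norm_pos_iff]; linarith

theorem nsq_II : 999 ≤ ‖s ^ 2 - 1‖ := by
  have e : s ^ 2 - 1 = (s - 1) * (s + 1) := by ring
  rw [e, norm_mul]
  have h := norm_sub_norm_le s (-1 : ℂ)
  rw [norm_neg, norm_one, sub_neg_eq_add] at h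
  have h2 := ns1_II hs
  nlinarith

theorem sq_ne_II : s ^ 2 - 1 ≠ 0 := by rw [← norm_pos_iff]; linarith [nsq_II hs]

include hrel in
theorem nk_II : ‖k / s ^ 2 - 1‖ ≤ 1 / 400 := by
  have h0 := s_ne_II hs
  have h1 := s1_ne_II hs
  have e : k / s ^ 2 - 1 = 2 / (s - 1) := by
    field_simp
    linear_combination hrel
  rw [e, norm_div, Complex.norm_ofNat, div_le_iff₀ (norm_pos_iff.2 h1)]
  linarith [ns1_II hs]

include hrel in
theorem ns_le_II : ‖s‖ ≤ ‖k‖ / 16 := by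
  have h0 := s_ne_II hs
  have h := norm_sub_norm_le (1 : ℂ) (1 - k / s ^ 2)
  rw [norm_one, norm_sub_rev, sub_sub_cancel, norm_div, norm_pow] at h
  have h2 := nk_II hs hrel
  have h3 : 1 / 2 ≤ ‖k‖ / ‖s‖ ^ 2 := by linarith
  rw [le_div_iff₀ (by positivity)] at h3
  nlinarith

end bounds

namespace Par

variable {R : ℝ} {k : ℂ} {w : ℝ → ℂ} (P : Par R k w) {s : ℂ} (hs : 1000 ≤ ‖s‖)
  (hrel : k * (s - 1) = s ^ 2 * (s + 1))
include P hs

theorem II_x2 : Rep R (fun t => circ R t + 1 - s ^ 2) (1 - s ^ 2) 0 1 (2 * Real.pi) := by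
  have h := (Rep.const R (1 - s ^ 2)).mul P.hR (Rep.one_sub P.hR (s ^ 2 - 1)⁻¹ 1 (by norm_num) (fun t => by
    rw [norm_mul, norm_inv, zpow_one, P.nx, inv_mul_le_iff₀ (norm_pos_iff.2 (sq_ne_II hs))]
    linarith [P.R2, nsq_II hs]))
  refine h.congr (fun t => ?_) (by ring) (by ring) (by norm_num) (by norm_num)
  have h0 := sq_ne_II hs
  rw [zpow_one]
  have e : (1 - s ^ 2) = - (s ^ 2 - 1) := by ring
  rw [e, mul_sub, neg_mul, neg_mul, mul_inv_cancel_left₀ h0]
  ring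

theorem II_x3 : Rep R (fun t => (s - 1) * circ R t - 1) (s - 1) 1 1 (2 * Real.pi) := by
  have h0 := s1_ne_II hs
  have h := ((Rep.const R (s - 1)).mul P.hR (Rep.x R)).mul P.hR
    (Rep.one_sub P.hR (s - 1)⁻¹ (-1) (by norm_num) (fun t => by
    rw [norm_mul, norm_inv, norm_zpow, P.nx, inv_mul_le_iff₀ (norm_pos_iff.2 h0), zpow_neg_one,
      inv_le_comm₀ P.hR (by linarith [ns1_II hs])]
    have h1 := ns1_II hs
    have h2 : (‖s - 1‖ * (1 / 2))⁻¹ ≤ (999 * (1/2))⁻¹ := by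
      apply inv_anti₀ (by norm_num)
      linarith
    linarith [P.R1]))
  refine h.congr (fun t => ?_) (by ring) (by ring) (by norm_num) (by norm_num)
  have := P.x_ne t
  rw [zpow_neg_one]
  field_simp

theorem II_phi_x : Rep R (fun t => Phi s (circ R t)) (-(s + 1) / s) 0 2 (4 * Real.pi) :=
  (rep_phi P.hR (Rep.x R) (P.II_x2 hs) (P.II_x3 hs)).congr (fun t => rfl) (by
    have h0 := s_ne_II hs
    have h1 := s1_ne_II hs
    rw [div_eq_div_iff (mul_ne_zero h0 h1) h0]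
    ring) (by norm_num) (by norm_num) (by linarith [Real.pi_pos])

theorem II_zphi_x : Rep R (fun t => ZPhi s (circ R t)) ((1 - s ^ 2) / s) 1 3 (6 * Real.pi) :=
  (rep_zphi P.hR (Rep.x R) (P.II_x2 hs) P.rep_xp1 (P.rep_x_sub (by linarith))).congr (fun t => rfl) (by
    have h0 := s_ne_II hs
    rw [one_mul, one_mul, neg_div_neg_eq]) (by norm_num) (by norm_num) (by linarith [Real.pi_pos])

include hrel in
theorem II_y2 : Rep' R (fun t => yy R k w t + 1 - s ^ 2) (-s ^ 2) 0 2 := by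
  have h0 := s_ne_II hs
  have h1 := CC.near (R := R) (E := fun t => (k / s ^ 2 * w t - 1) * circ R t + (1 + circ R t) * (s ^ 2)⁻¹)
    (((((CC.const (k / s ^ 2)).mul P.wc).sub (CC.const 1)).mul P.cx).add (P.c1p.mul (CC.const _))) (fun t => by
    have e : k / s ^ 2 * w t - 1 = (k / s ^ 2 - 1) * w t + (w t - 1) := by ring
    have h2 : ‖k / s ^ 2 * w t - 1‖ ≤ 1 / 10 := by
      rw [e]
      have h3 := norm_add_le ((k / s ^ 2 - 1) * w t) (w t - 1)
      rw [norm_mul] at h3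
      have h4 := nk_II hs hrel
      have h5 := P.nw' t
      have h6 := P.wb t
      have h7 : ‖k / s ^ 2 - 1‖ * ‖w t‖ ≤ 1 / 400 * (1001 / 1000) :=
        mul_le_mul h4 h5 (norm_nonneg _) (by norm_num)
      linarith
    have h3 := norm_add_le ((k / s ^ 2 * w t - 1) * circ R t) ((1 + circ R t) * (s ^ 2)⁻¹)
    rw [norm_mul, norm_mul, P.nx, norm_inv, norm_pow] at h3
    have h4 : (‖s‖ ^ 2)⁻¹ ≤ 1 / 1000 := by
      rw [inv_le_comm₀ (by positivity) (by norm_num)]
      nlinarith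
    have h5 : ‖1 + circ R t‖ * (‖s‖ ^ 2)⁻¹ ≤ 4 / 3 * (1 / 1000) :=
      mul_le_mul (P.n1p' t) h4 (by positivity) (by norm_num)
    have h6 : ‖k / s ^ 2 * w t - 1‖ * R ≤ 1 / 10 * (1 / 3) :=
      mul_le_mul h2 P.R2.le P.hR.le (by norm_num)
    linarith)
  have h := ((Rep.const R (-s ^ 2)).rep'.mul P.hR P.rep_1px.rep'.inv).mul P.hR h1
  refine h.congr (fun t => ?_) (by ring) (by ring) (by norm_num)
  have h3 := P.ne1p t
  unfold yy
  generalize circ R t = x at *
  field_simp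
  ring

theorem II_y3 : Rep' R (fun t => (s - 1) * yy R k w t - 1) ((s - 1) * k) 1 3 := by
  have h0 := s1_ne_II hs
  have h1 := CC.near (R := R) ((CC.const (s - 1)⁻¹).mul P.cyinv) (fun t => by
    rw [norm_mul, norm_inv]
    have h2 := P.nyinv t
    have h3 : ‖s - 1‖⁻¹ ≤ 1 := by
      rw [inv_le_one₀ (norm_pos_iff.2 h0)]
      linarith [ns1_II hs]
    have h4 := norm_nonneg (yy R k w t)⁻¹
    have h5 : ‖s - 1‖⁻¹ * ‖(yy R k w t)⁻¹‖ ≤ 1 * (1 / 100000) :=
      mul_le_mul h3 h2 h4 (by norm_num)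
    linarith)
  have h := ((Rep.const R (s - 1)).rep'.mul P.hR P.rep_y).mul P.hR h1
  refine h.congr (fun t => ?_) (by ring) (by ring) (by norm_num)
  have := P.y_ne t
  field_simp

include hrel in
theorem II_phi_y : Rep' R (fun t => Phi s (yy R k w t)) (-s / (s - 1)) 0 7 :=
  (rep'_phi P.hR P.rep_y (P.II_y2 hs hrel) (P.II_y3 hs)).congr (fun t => rfl) (by
    have h0 := s_ne_II hs
    have h1 := s1_ne_II hs
    have h2 := P.k_ne
    rw [div_eq_div_iff (mul_ne_zero h0 (mul_ne_zero h1 h2)) h1]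
    ring) (by norm_num) (by norm_num)

include hrel in
theorem II_22 : Rep' R (fun t => (1 + yy R k w t) / circ R t + 1 - s ^ 2) (-s ^ 2) 1 2 := by
  have h0 := s_ne_II hs
  have h1 := CC.near (R := R)
    (E := fun t => (1 + circ R t) ^ 2 * (s ^ 2)⁻¹ / circ R t ^ 2 + (k / s ^ 2 * w t - 1) / circ R t)
    ((((P.c1p.pow 2).mul (CC.const _)).div (P.cx.pow 2) (fun t => pow_ne_zero 2 (P.x_ne t))).add
      ((((CC.const (k / s ^ 2)).mul P.wc).sub (CC.const 1)).div P.cx P.x_ne)) (fun t => by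
    have e : k / s ^ 2 * w t - 1 = (k / s ^ 2 - 1) * w t + (w t - 1) := by ring
    have h2 : ‖k / s ^ 2 * w t - 1‖ ≤ 1 / 100 := by
      rw [e]
      have h3 := norm_add_le ((k / s ^ 2 - 1) * w t) (w t - 1)
      rw [norm_mul] at h3
      have h4 := nk_II hs hrel
      have h5 := P.nw' t
      have h6 := P.wb t
      have h7 : ‖k / s ^ 2 - 1‖ * ‖w t‖ ≤ 1 / 400 * (1001 / 1000) :=
        mul_le_mul h4 h5 (norm_nonneg _) (by norm_num)
      linarith
    have h3 := norm_add_le ((1 + circ R t) ^ 2 * (s ^ 2)⁻¹ / circ R t ^ 2) ((k / s ^ 2 * w t - 1) / circ R t)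
    rw [norm_div, norm_div, norm_mul, norm_pow, norm_pow, P.nx, norm_inv, norm_pow] at h3
    have h4 : (‖s‖ ^ 2)⁻¹ ≤ 1 / 1000 := by
      rw [inv_le_comm₀ (by positivity) (by norm_num)]
      nlinarith
    have hRR : 0 < R := P.hR
    have hR1 := P.R1
    have h5 : ‖1 + circ R t‖ ^ 2 * (‖s‖ ^ 2)⁻¹ ≤ (4 / 3) ^ 2 * (1 / 1000) :=
      mul_le_mul (pow_le_pow_left₀ (norm_nonneg _) (P.n1p' t) 2) h4 (by positivity) (by norm_num)
    have h6 : ‖1 + circ R t‖ ^ 2 * (‖s‖ ^ 2)⁻¹ / R ^ 2 ≤ 1 / 10 := by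
      rw [div_le_iff₀ (by positivity)]
      nlinarith
    have h7 : ‖k / s ^ 2 * w t - 1‖ / R ≤ 1 / 10 := by
      rw [div_le_iff₀ P.hR]
      nlinarith
    linarith)
  have h := (((Rep.const R (-s ^ 2)).rep'.mul P.hR (Rep.x R).rep').mul P.hR P.rep_1px.rep'.inv).mul P.hR h1
  refine h.congr (fun t => ?_) (by ring) (by ring) (by norm_num)
  have h3 := P.ne1p t
  have h4 := P.x_ne t
  unfold yy
  generalize circ R t = x at *
  field_simp
  ring

include hrel in
theorem II_zphi_x2 : Rep' R (fun t => ZPhi s ((1 + yy R k w t) / circ R t)) (s ^ 2 / k) 1 13 := by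
  have h4 := P.rep_x2_add 1 (by rw [norm_one]; linarith [P.kb])
  have h5 := P.rep_x2_add (-s) (by rw [norm_neg]; exact ns_le_II hs hrel)
  refine (rep'_zphi P.hR P.rep_x2 (P.II_22 hs hrel) h4
    (h5.congr (fun t => by ring) rfl rfl le_rfl)).congr (fun t => rfl) (by
      have := P.k_ne
      field_simp) (by norm_num) (by norm_num)

theorem II_zphi_x3 : Rep' R (fun t => ZPhi s ((1 + circ R t + yy R k w t) / (circ R t * yy R k w t)))
    ((1 - s ^ 2) / s) 0 5 := by
  have h0 := s_ne_II hs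
  have hsq := sq_ne_II hs
  have h2 : Rep' R (fun t => (1 + circ R t + yy R k w t) / (circ R t * yy R k w t) + 1 - s ^ 2)
      (1 - s ^ 2) 0 1 := by
    have h1 := CC.near (R := R) (P.c_x3.mul (CC.const (s ^ 2 - 1)⁻¹)) (fun t => by
      rw [norm_mul, norm_inv, ← div_eq_mul_inv, div_le_iff₀ (norm_pos_iff.2 hsq)]
      linarith [P.n_x3 t, nsq_II hs])
    have h := (Rep.const R (1 - s ^ 2)).rep'.mul P.hR h1
    refine h.congr (fun t => ?_) (by ring) (by ring) (by norm_num)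
    have e : (1 - s ^ 2) = - (s ^ 2 - 1) := by ring
    generalize (1 + circ R t + yy R k w t) / (circ R t * yy R k w t) = z
    rw [e, mul_sub, neg_mul, neg_mul, mul_comm z, mul_inv_cancel_left₀ hsq]
    ring
  have h5 : Rep' R (fun t => (1 + circ R t + yy R k w t) / (circ R t * yy R k w t) - s) (-s) 0 1 := by
    have h1 := CC.near (R := R) (P.c_x3.mul (CC.const s⁻¹)) (fun t => by
      rw [norm_mul, norm_inv, ← div_eq_mul_inv, div_le_iff₀ (norm_pos_iff.2 h0)]
      linarith [P.n_x3 t])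
    have h := (Rep.const R (-s)).rep'.mul P.hR h1
    refine h.congr (fun t => ?_) (by ring) (by ring) (by norm_num)
    generalize (1 + circ R t + yy R k w t) / (circ R t * yy R k w t) = z
    field_simp
    ring
  exact (rep'_zphi P.hR P.rep_x3 h2 P.rep_x3_one h5).congr (fun t => rfl) (by
    rw [one_mul, one_mul, neg_div_neg_eq]) (by norm_num) (by norm_num)

end Par

end Pool.Agent.T6.H7.SX
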