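import Pool.Agent.T6.H7.SX.Tate
set_option autoImplicit false

/-!
Estimates of the regulators.
-/

namespace Pool.Agent.T6.H7.SX

open Pool.Agent.W367.KT
open Set MeasureTheory intervalIntegral Polynomial
open scoped TensorProduct WithZero Interval

variable {F : Type*} [Field F]

theorem pair_rep (γ : Loop F) (a b : Fˣ) {R : ℝ} (hR : 0 < R) {c c' : ℂ} (hc : c ≠ 0)
    (hc' : c' ≠ 0) (m n : ℤ) {A B : ℝ → ℂ} {A0 A1 B0 : ℝ} (hA : Rep R A c m A0 A1) (hB : Rep' R B c' n B0)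
    (ha : ∀ t, γ.e t (a : F) = A t) (hb : ∀ t, γ.e t (b : F) = B t) :
    |γ.pair a b - 2 * Real.pi * (n * Real.log ‖c‖ - m * Real.log ‖c'‖)| ≤
      2 * Real.pi * |(m:ℝ)| * B0 + 2 * Real.pi * |(n:ℝ)| * A0 + B0 * A1 := by
  obtain ⟨α, h1, h2, h3, h4, h5⟩ := hA
  obtain ⟨β, k1, k2, k3, k4⟩ := hB
  exact pair_estimate γ a b hR hc hc' m n h1 k1 h2 k2 (fun t => (ha t).trans (h3 t))
    (fun t => (hb t).trans (k3 t)) h4 h5 k4

section

variable {R : ℝ} {k : ℂ} {w : ℝ → ℂ} (P : Par R k w) {s : ℂ} (γ : Loop F) (a b : Fˣ)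
include P

theorem est_I_PP (hs : ‖s - 1‖ ≤ 1 / 1000) (hrel : k * (s - 1) = s ^ 2 * (s + 1))
    (ha : ∀ t, γ.e t (a : F) = Phi s (circ R t)) (hb : ∀ t, γ.e t (b : F) = Phi s (yy R k w t)) :
    |γ.pair a b + 8 * Real.pi * Real.log ‖k‖| ≤ 200 * Real.pi := by
  have hs0 : s ≠ 0 := by rw [← norm_pos_iff]; linarith [ns_I' hs]
  have hk := P.k_ne
  have h := pair_rep γ a b P.hR (div_ne_zero (neg_ne_zero.2 one_ne_zero) hs0)
    (div_ne_zero (neg_ne_zero.2 (pow_ne_zero 2 hk)) hs0) 2 2 (P.I_phi_x hs) (P.I_phi_y hs hrel) ha hb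
  rw [norm_div, norm_div, norm_neg, norm_neg, norm_one, norm_pow,
    Real.log_div one_ne_zero (norm_ne_zero_iff.2 hs0),
    Real.log_div (pow_ne_zero 2 (norm_ne_zero_iff.2 hk)) (norm_ne_zero_iff.2 hs0), Real.log_pow,
    Real.log_one] at h
  push_cast at h
  have e : γ.pair a b - 2 * Real.pi * (2 * (0 - Real.log ‖s‖) - 2 * (2 * Real.log ‖k‖ - Real.log ‖s‖)) =
      γ.pair a b + 8 * Real.pi * Real.log ‖k‖ := by ring
  rw [e] at h
  refine h.trans ?_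
  rw [abs_of_pos (by norm_num : (0:ℝ) < 2)]
  nlinarith [Real.pi_pos]

theorem est_I_Z2 (hs : ‖s - 1‖ ≤ 1 / 1000)
    (ha : ∀ t, γ.e t (a : F) = ZPhi s (circ R t))
    (hb : ∀ t, γ.e t (b : F) = ZPhi s ((1 + yy R k w t) / circ R t)) :
    |γ.pair a b| ≤ 200 * Real.pi := by
  have hs0 : s ≠ 0 := by rw [← norm_pos_iff]; linarith [ns_I' hs]
  have h := pair_rep γ a b P.hR (div_ne_zero one_ne_zero hs0)
    (neg_ne_zero.2 one_ne_zero) 2 0 (P.I_zphi_x hs) (P.I_zphi_x2 hs) ha hb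
  rw [norm_neg, norm_one, Real.log_one] at h
  push_cast at h
  have e : γ.pair a b - 2 * Real.pi * (0 * Real.log ‖1 / s‖ - 2 * 0) = γ.pair a b := by ring
  rw [e] at h
  refine h.trans ?_
  rw [abs_of_pos (by norm_num : (0:ℝ) < 2), abs_zero]
  nlinarith [Real.pi_pos]

theorem est_I_Z3 (hs : ‖s - 1‖ ≤ 1 / 1000)
    (ha : ∀ t, γ.e t (a : F) = ZPhi s (circ R t))
    (hb : ∀ t, γ.e t (b : F) = ZPhi s ((1 + circ R t + yy R k w t) / (circ R t * yy R k w t))) :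
    |γ.pair a b| ≤ 200 * Real.pi := by
  have hs0 : s ≠ 0 := by rw [← norm_pos_iff]; linarith [ns_I' hs]
  have h := pair_rep γ a b P.hR (div_ne_zero one_ne_zero hs0)
    (neg_ne_zero.2 one_ne_zero) 2 0 (P.I_zphi_x hs) (P.I_zphi_x3 hs) ha hb
  rw [norm_neg, norm_one, Real.log_one] at h
  push_cast at h
  have e : γ.pair a b - 2 * Real.pi * (0 * Real.log ‖1 / s‖ - 2 * 0) = γ.pair a b := by ring
  rw [e] at h
  refine h.trans ?_
  rw [abs_of_pos (by norm_num : (0:ℝ) < 2), abs_zero]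
  nlinarith [Real.pi_pos]

omit P in
theorem log_bound {s : ℂ} (hs : 1000 ≤ ‖s‖) {x : ℝ} (hx1 : 1 ≤ x) (hx2 : x ≤ 2 * ‖s‖) :
    |Real.log x| ≤ Real.log ‖s‖ + 1 := by
  rw [abs_of_nonneg (Real.log_nonneg hx1)]
  have h1 : Real.log x ≤ Real.log (2 * ‖s‖) := Real.log_le_log (by linarith) hx2
  rw [Real.log_mul (by norm_num) (by linarith)] at h1
  have h2 : Real.log 2 ≤ 2 - 1 := Real.log_le_sub_one_of_pos (by norm_num)
  linarith

omit P in
theorem nA_II {s : ℂ} (hs : 1000 ≤ ‖s‖) : 10 ≤ ‖(1 - s ^ 2) / s‖ ∧ ‖(1 - s ^ 2) / s‖ ≤ 11 / 10 * ‖s‖ := by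
  rw [norm_div]
  have hpos : 0 < ‖s‖ := by linarith
  constructor
  · rw [le_div_iff₀ hpos]
    have h := norm_sub_norm_le (s ^ 2) (1 : ℂ)
    rw [norm_one, norm_pow, norm_sub_rev] at h
    nlinarith
  · rw [div_le_iff₀ hpos]
    have h := norm_sub_le (1 : ℂ) (s ^ 2)
    rw [norm_one, norm_pow] at h
    nlinarith

theorem est_II_PP (hs : 1000 ≤ ‖s‖) (hrel : k * (s - 1) = s ^ 2 * (s + 1))
    (ha : ∀ t, γ.e t (a : F) = Phi s (circ R t)) (hb : ∀ t, γ.e t (b : F) = Phi s (yy R k w t)) :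
    |γ.pair a b| ≤ 200 * Real.pi := by
  have h0 := s_ne_II hs
  have h := pair_rep γ a b P.hR (div_ne_zero (neg_ne_zero.2 (sp1_ne_II hs)) h0)
    (div_ne_zero (neg_ne_zero.2 h0) (s1_ne_II hs)) 0 0 (P.II_phi_x hs) (P.II_phi_y hs hrel) ha hb
  push_cast at h
  rw [abs_zero] at h
  have e : γ.pair a b - 2 * Real.pi * (0 * Real.log ‖-(s + 1) / s‖ - 0 * Real.log ‖-s / (s - 1)‖) =
      γ.pair a b := by ring
  rw [e] at h
  refine h.trans ?_
  nlinarith [Real.pi_pos]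

theorem est_II_Z2 (hs : 1000 ≤ ‖s‖) (hrel : k * (s - 1) = s ^ 2 * (s + 1))
    (ha : ∀ t, γ.e t (a : F) = ZPhi s (circ R t))
    (hb : ∀ t, γ.e t (b : F) = ZPhi s ((1 + yy R k w t) / circ R t)) :
    |γ.pair a b| ≤ 2 * Real.pi * Real.log ‖s‖ + 202 * Real.pi := by
  have h0 := s_ne_II hs
  have hk := P.k_ne
  have hA := nA_II hs
  have hA0 : (1 - s ^ 2) / s ≠ 0 := by rw [← norm_pos_iff]; linarith [hA.1]
  have h := pair_rep γ a b P.hR hA0
    (div_ne_zero (pow_ne_zero 2 h0) hk) 1 1 (P.II_zphi_x hs) (P.II_zphi_x2 hs hrel) ha hb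
  push_cast at h
  rw [abs_one, one_mul, one_mul] at h
  have hK : ‖k / s ^ 2‖ ≤ 401 / 400 ∧ 399 / 400 ≤ ‖k / s ^ 2‖ := by
    have h1 := nk_II hs hrel
    constructor
    · have h2 := norm_add_le (1 : ℂ) (k / s ^ 2 - 1)
      rw [norm_one, add_sub_cancel] at h2
      linarith
    · have h2 := norm_sub_norm_le (1 : ℂ) (1 - k / s ^ 2)
      rw [norm_one, norm_sub_rev, sub_sub_cancel] at h2
      linarith
  have e1 : Real.log ‖s ^ 2 / k‖ = - Real.log ‖k / s ^ 2‖ := by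
    rw [← Real.log_inv, ← norm_inv, inv_div]
  have e2 : Real.log ‖(1 - s ^ 2) / s‖ - Real.log ‖s ^ 2 / k‖ =
      Real.log (‖(1 - s ^ 2) / s‖ * ‖k / s ^ 2‖) := by
    rw [e1, Real.log_mul (norm_ne_zero_iff.2 hA0) (by linarith [hK.2]), sub_neg_eq_add]
  have h3 := log_bound hs (x := ‖(1 - s ^ 2) / s‖ * ‖k / s ^ 2‖) (by nlinarith [hA.1, hK.2])
    (by nlinarith [hA.1, hA.2, hK.1, hK.2])
  rw [e2] at h
  set L := Real.log (‖(1 - s ^ 2) / s‖ * ‖k / s ^ 2‖) with hL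
  have h4 : |γ.pair a b| ≤ |γ.pair a b - 2 * Real.pi * L| + 2 * Real.pi * |L| := by
    have h5 : |2 * Real.pi * L| = 2 * Real.pi * |L| := by
      rw [abs_mul, abs_of_pos (by positivity : (0:ℝ) < 2 * Real.pi)]
    rw [← h5]
    have := abs_add_le (γ.pair a b - 2 * Real.pi * L) (2 * Real.pi * L)
    rwa [sub_add_cancel] at this
  have h6 : 2 * Real.pi * |L| ≤ 2 * Real.pi * (Real.log ‖s‖ + 1) :=
    mul_le_mul_of_nonneg_left h3 (by positivity)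
  nlinarith [Real.pi_pos]

theorem est_II_Z3 (hs : 1000 ≤ ‖s‖)
    (ha : ∀ t, γ.e t (a : F) = ZPhi s (circ R t))
    (hb : ∀ t, γ.e t (b : F) = ZPhi s ((1 + circ R t + yy R k w t) / (circ R t * yy R k w t))) :
    |γ.pair a b| ≤ 2 * Real.pi * Real.log ‖s‖ + 202 * Real.pi := by
  have h0 := s_ne_II hs
  have hA := nA_II hs
  have hA0 : (1 - s ^ 2) / s ≠ 0 := by rw [← norm_pos_iff]; linarith [hA.1]
  have h := pair_rep γ a b P.hR hA0 hA0 1 0 (P.II_zphi_x hs) (P.II_zphi_x3 hs) ha hb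
  push_cast at h
  rw [abs_one, abs_zero, one_mul, zero_mul] at h
  have h3 := log_bound hs (x := ‖(1 - s ^ 2) / s‖) (by linarith [hA.1])
    (by nlinarith [hA.1, hA.2])
  set L := Real.log (‖(1 - s ^ 2) / s‖) with hL
  have h4 : |γ.pair a b| ≤ |γ.pair a b - 2 * Real.pi * (0 - L)| + 2 * Real.pi * |L| := by
    have h5 : |2 * Real.pi * (0 - L)| = 2 * Real.pi * |L| := by
      rw [abs_mul, abs_of_pos (by positivity : (0:ℝ) < 2 * Real.pi), zero_sub, abs_neg]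
    rw [← h5]
    have := abs_add_le (γ.pair a b - 2 * Real.pi * (0 - L)) (2 * Real.pi * (0 - L))
    rwa [sub_add_cancel] at this
  have h6 : 2 * Real.pi * |L| ≤ 2 * Real.pi * (Real.log ‖s‖ + 1) :=
    mul_le_mul_of_nonneg_left h3 (by positivity)
  nlinarith [Real.pi_pos]

end

end Pool.Agent.T6.H7.SX
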