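import Pool.Agent.T6.H7.SX.Main
set_option autoImplicit false

/-!
The relations and units in the sextic fields.
-/

namespace Pool.Agent.T6.H7.SX

open Pool.Agent.W367.KT
open Polynomial
open scoped WithZero

section rel

variable {K : Type*} [Field K] (n s : K)

/-- the second element `s₂` -/
def sTwo : K := (s ^ 3 - n * s ^ 2 - n * s + 1) / (2 * s)

/-- the third element `s₃` -/
def sThree : K := -1 - s - sTwo n s

/-- the parameter `b` -/
def bPar : K := -(s * sTwo n s * sThree n s)

variable {n s} (h : s ^ 4 * (s - n) ^ 2 - (n * s - 1) ^ 2 - 4 * s ^ 3 = 0)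
include h

theorem s_ne : s ≠ 0 := by
  rintro rfl
  norm_num at h

variable (h2 : (2 : K) ≠ 0)
include h2

theorem hinv_rel : s * sTwo n s + s * sThree n s + sTwo n s * sThree n s = s * sTwo n s * sThree n s := by
  have hs := s_ne h
  unfold sThree sTwo
  field_simp
  linear_combination (s + 1) * h

/-- `d` with `d (d - (n s - 1)) = s³` and `s₂ = s² / d` -/
theorem d_rel : ((s ^ 3 - n * s ^ 2 + n * s - 1) / 2) *
    ((s ^ 3 - n * s ^ 2 + n * s - 1) / 2 - (n * s - 1)) = s ^ 3 := by
  field_simp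
  linear_combination h

theorem sTwo_eq : s * sTwo n s = (s ^ 3 - n * s ^ 2 + n * s - 1) / 2 - (n * s - 1) := by
  have hs := s_ne h
  unfold sTwo
  field_simp
  ring

theorem sTwo_ne : sTwo n s ≠ 0 := by
  intro h0
  have h1 := sTwo_eq h h2
  have h3 := d_rel h h2
  rw [← h1, h0, mul_zero, mul_zero] at h3
  exact pow_ne_zero 3 (s_ne h) h3.symm

theorem s_rel : bPar n s * (s - 1) = s ^ 2 * (s + 1) := by
  have h3 := hinv_rel h h2
  unfold bPar
  unfold sThree at *
  linear_combination s * h3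

theorem sTwo_rel : bPar n s * (sTwo n s - 1) = sTwo n s ^ 2 * (sTwo n s + 1) := by
  have h3 := hinv_rel h h2
  unfold bPar
  unfold sThree at *
  linear_combination sTwo n s * h3

theorem sThree_rel : bPar n s * (sThree n s - 1) = sThree n s ^ 2 * (sThree n s + 1) := by
  have h3 := hinv_rel h h2
  have h4 : sThree n s = -1 - s - sTwo n s := rfl
  unfold bPar
  linear_combination sThree n s * h3 + (-sThree n s ^ 2) * h4

theorem s_sub_ne : s - 1 ≠ 0 := by
  intro h0
  have hs : s = 1 := by linear_combination h0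
  rw [hs] at h
  have : (2:K) * 2 = 0 := by linear_combination -h
  exact mul_ne_zero h2 h2 this

theorem sThree_ne : sThree n s ≠ 0 := by
  intro h0
  have h3 := hinv_rel h h2
  rw [h0] at h3
  have h4 : s * sTwo n s = 0 := by linear_combination h3
  exact mul_ne_zero (s_ne h) (sTwo_ne h h2) h4

theorem bPar_ne : bPar n s ≠ 0 :=
  neg_ne_zero.2 (mul_ne_zero (mul_ne_zero (s_ne h) (sTwo_ne h h2)) (sThree_ne h h2))

omit h in
theorem sub_ne_of_rel {b t : K} (ht : b * (t - 1) = t ^ 2 * (t + 1)) : t - 1 ≠ 0 := by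
  intro h0
  have h1 : t = 1 := by linear_combination h0
  rw [h0, h1] at ht
  apply h2
  linear_combination -ht

end rel

section val

variable {K : Type*} [Field K]

theorem val_le_of_int (w : Valuation K ℤᵐ⁰) {x : K} (hx : IsIntegral ℤ x) : w x ≤ 1 := by
  have h1 : IsIntegral w.valuationSubring x := hx.tower_top
  exact (Valuation.valuationSubring.integers w).mem_of_integral h1

theorem val_one_of_mul {w : Valuation K ℤᵐ⁰} {x y : K} (hx : w x ≤ 1) (hy : w y ≤ 1) (h : w (x * y) = 1) :
    w x = 1 ∧ w y = 1 := by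
  rw [map_mul] at h
  constructor
  · apply le_antisymm hx
    by_contra hcon
    have : w x * w y < 1 := by
      calc w x * w y ≤ w x * 1 := mul_le_mul_right hy _
        _ < 1 := by rw [mul_one]; exact not_le.1 hcon
    exact this.ne h
  · apply le_antisymm hy
    by_contra hcon
    have : w x * w y < 1 := by
      calc w x * w y ≤ 1 * w y := mul_le_mul_left hx _
        _ < 1 := by rw [one_mul]; exact not_le.1 hcon
    exact this.ne h

variable (w : Valuation K ℤᵐ⁰) {n : ℤ} {s : K}
  (h : s ^ 4 * (s - n) ^ 2 - (n * s - 1) ^ 2 - 4 * s ^ 3 = 0)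
include h

theorem s_integral : IsIntegral ℤ s := by
  refine ⟨X ^ 6 - C (2 * n) * X ^ 5 + C (n ^ 2) * X ^ 4 - 4 * X ^ 3 - C (n ^ 2) * X ^ 2 + C (2 * n) * X - 1,
    by monicity!, ?_⟩
  simp only [eval₂_add, eval₂_sub, eval₂_mul, eval₂_pow, eval₂_X, eval₂_C, eval₂_one, eval₂_ofNat]
  simp only [algebraMap_int_eq, eq_intCast, Int.cast_mul, Int.cast_pow, Int.cast_ofNat]
  linear_combination h

theorem w_s : w s = 1 := by
  have hi := s_integral h
  have hn : IsIntegral ℤ (n : K) := by
    have := isIntegral_algebraMap (R := ℤ) (A := K) (x := n)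
    simpa using this
  have h2 : IsIntegral ℤ (2 : K) := by
    have := isIntegral_algebraMap (R := ℤ) (A := K) (x := 2)
    simpa using this
  have hg : IsIntegral ℤ (s ^ 5 - 2 * n * s ^ 4 + n ^ 2 * s ^ 3 - (2 * 2) * s ^ 2 - n ^ 2 * s + 2 * n) :=
    ((((((hi.pow 5).sub ((h2.mul hn).mul (hi.pow 4))).add ((hn.pow 2).mul (hi.pow 3))).sub
      ((h2.mul h2).mul (hi.pow 2))).sub ((hn.pow 2).mul hi)).add (h2.mul hn))
  have hm : s * (s ^ 5 - 2 * n * s ^ 4 + n ^ 2 * s ^ 3 - (2 * 2) * s ^ 2 - n ^ 2 * s + 2 * n) = 1 := by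
    linear_combination h
  exact (val_one_of_mul (val_le_of_int w hi) (val_le_of_int w hg) (by rw [hm, map_one])).1

variable (h2 : (2 : K) ≠ 0)
include h2

theorem w_c : w ((n : K) * s - 1) ≤ 1 := by
  have hi := s_integral h
  have hn : IsIntegral ℤ (n : K) := by
    have := isIntegral_algebraMap (R := ℤ) (A := K) (x := n)
    simpa using this
  exact val_le_of_int w ((hn.mul hi).sub isIntegral_one)

theorem w_sTwo : w (sTwo (n : K) s) = 1 := by
  set D : K := (s ^ 3 - n * s ^ 2 + n * s - 1) / 2 with hD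
  have h3 := d_rel h h2
  rw [← hD] at h3
  have h4 := sTwo_eq h h2
  rw [← hD] at h4
  have hs := w_s w h
  have hc := w_c w h h2
  have h5 : w D * w (D - (n * s - 1)) = 1 := by
    rw [← map_mul, h3, map_pow, hs, one_pow]
  have hD1 : w D ≤ 1 := by
    by_contra hcon
    have hgt : 1 < w D := not_le.1 hcon
    have h6 : w (D - (n * s - 1)) = w D := Valuation.map_sub_eq_of_lt_left w (hc.trans_lt hgt)
    rw [h6] at h5
    have h7 : 1 < w D * w D := one_lt_mul'' hgt hgt
    exact h7.ne' h5
  have hD2 : w (D - (n * s - 1)) ≤ 1 := Valuation.map_sub_le w hD1 hc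
  have h8 := (val_one_of_mul hD1 hD2 (by rw [map_mul, h5])).2
  rw [← h4, map_mul, hs, one_mul] at h8
  exact h8

theorem w_sThree : w (sThree (n : K) s) = 1 := by
  have hs := w_s w h
  have hs2 := w_sTwo w h h2
  have h3 := hinv_rel h h2
  have h4 : w (sThree (n : K) s) ≤ 1 := by
    unfold sThree
    refine Valuation.map_sub_le w (Valuation.map_sub_le w ?_ hs.le) hs2.le
    rw [Valuation.map_neg, map_one]
  have h5 : w (s * sTwo (n : K) s - s - sTwo (n : K) s) ≤ 1 := by
    refine Valuation.map_sub_le w (Valuation.map_sub_le w ?_ hs.le) hs2.le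
    rw [map_mul, hs, hs2, one_mul]
  have h6 : sThree (n : K) s * (s * sTwo (n : K) s - s - sTwo (n : K) s) = s * sTwo (n : K) s := by
    linear_combination -h3
  exact (val_one_of_mul h4 h5 (by rw [h6, map_mul, hs, hs2, one_mul])).1

theorem w_bPar : w (bPar (n : K) s) = 1 := by
  unfold bPar
  rw [Valuation.map_neg, map_mul, map_mul, w_s w h, w_sTwo w h h2, w_sThree w h h2, one_mul, one_mul]

omit h in
theorem w_kap {b t : K} (ht : b * (t - 1) = t ^ 2 * (t + 1)) (ht0 : t ≠ 0) (hb : w b = 1)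
    (hwt : w t = 1) : w (kap t) = 1 := by
  have h3 := sub_ne_of_rel h2 ht
  have e : kap t = b ^ 2 / t ^ 5 := by
    unfold kap
    rw [div_pow, div_div, div_eq_div_iff (mul_ne_zero (pow_ne_zero 2 h3) ht0) (pow_ne_zero 5 ht0)]
    linear_combination (-t * (b * (t - 1) + t ^ 2 * (t + 1))) * ht
  rw [e, map_div₀, map_pow, map_pow, hb, hwt, one_pow, one_pow, div_one]

end val

end Pool.Agent.T6.H7.SX
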