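import Pool.Agent.T6.H7.SX.Rows
set_option autoImplicit false

/-!
The six classes, and their independence over fields with six suitable embeddings.
-/

namespace Pool.Agent.T6.H7.SX

open Pool.Agent.W367.KT
open Set MeasureTheory intervalIntegral Polynomial
open scoped TensorProduct WithZero Interval

section cls

variable {K : Type*} [Field K] {b : K} (hb : b ≠ 0)

/-- the parameter of the isogenous curve -/
def kap (s : K) : K := ((s + 1) / (s - 1)) ^ 2 / s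

/-- the class `{Φ_s x, Φ_s y}` -/
noncomputable def clA {s : K} (hs : s ≠ 0) : ℚ ⊗[ℤ] K2 (tate b).toAffine.FunctionField :=
  (1 : ℚ) ⊗ₜ[ℤ] symb (uP (ncx hb) hs) (uP (ncy hb) hs)

/-- the class `{Z Φ_s x, Z Φ_s x₂}` -/
noncomputable def clB {s : K} (hs : s ≠ 0) : ℚ ⊗[ℤ] K2 (tate b).toAffine.FunctionField :=
  (1 : ℚ) ⊗ₜ[ℤ] symb (uZ (ncx hb) hs) (uZ (nc2 hb) hs)

include hb

theorem ly_A {s : K} (hs : s ≠ 0) (hs1 : s - 1 ≠ 0) (hrel : b * (s - 1) = s ^ 2 * (s + 1)) :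
    Ly (cst (tate b) (kap s)) (Phi (cst (tate b) s) (xF b)) (Phi (cst (tate b) s) (yF b)) := by
  have hs' : cst (tate b) s ≠ 0 := (_root_.map_ne_zero _).2 hs
  have hs1' : cst (tate b) s - 1 ≠ 0 := by
    rw [← map_one (cst (tate b)), ← map_sub]; exact (_root_.map_ne_zero _).2 hs1
  have hrel' : cst (tate b) b * (cst (tate b) s - 1) = cst (tate b) s ^ 2 * (cst (tate b) s + 1) := by
    have := congrArg (cst (tate b)) hrel
    simpa only [map_mul, map_sub, map_add, map_pow, map_one] using this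
  have h := (ly_F (b := b)).phi hrel' hs' hs1' ((ncx hb).den_ne s) ((ncy hb).den_ne s)
  have e : cst (tate b) (kap s) = ((cst (tate b) s + 1) / (cst (tate b) s - 1)) ^ 2 / cst (tate b) s := by
    unfold kap
    simp only [map_div₀, map_sub, map_add, map_pow, map_one]
  rw [e]
  exact h

theorem kap_ne {s : K} (hs : s ≠ 0) (hs1 : s - 1 ≠ 0) (hrel : b * (s - 1) = s ^ 2 * (s + 1)) :
    kap s ≠ 0 := by
  unfold kap
  apply div_ne_zero _ hs
  apply pow_ne_zero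
  apply div_ne_zero _ hs1
  intro h
  rw [h, mul_zero] at hrel
  exact mul_ne_zero hb hs1 hrel

theorem ly_B {s : K} (hs : s ≠ 0) (hs1 : s - 1 ≠ 0) (hrel : b * (s - 1) = s ^ 2 * (s + 1)) :
    Ly (cst (tate b) (-1 / kap s)) (Zz (Phi (cst (tate b) s) (xF b)))
      (Zz (Phi (cst (tate b) s) ((1 + yF b) / xF b))) := by
  have hs' : cst (tate b) s ≠ 0 := (_root_.map_ne_zero _).2 hs
  have hrel' : cst (tate b) b * (cst (tate b) s - 1) = cst (tate b) s ^ 2 * (cst (tate b) s + 1) := by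
    have := congrArg (cst (tate b)) hrel
    simpa only [map_mul, map_sub, map_add, map_pow, map_one] using this
  have h := (ly_A hb hs hs1 hrel).zz ((_root_.map_ne_zero _).2 (kap_ne hb hs hs1 hrel)) ((ncx hb).phi_ne hs)
    ((ncy hb).phi_ne hs)
  have h2 := (ly_F (b := b)).phi_shift hrel' hs' (ncx hb).ne_zero ((ncx hb).den_ne s) ((ncy hb).den_ne s)
    ((ncx hb).num_ne s) ((nc2 hb).den_ne s)
  rw [h2] at h
  have e : cst (tate b) (-1 / kap s) = -1 / cst (tate b) (kap s) := by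
    rw [map_div₀, map_neg, map_one]
  rw [e]
  exact h

variable {s : K} (hs : s ≠ 0) (hs1 : s - 1 ≠ 0) (hrel : b * (s - 1) = s ^ 2 * (s + 1))
  (hv : ∀ v : Valuation (tate b).toAffine.FunctionField ℤᵐ⁰, v (cst (tate b) (kap s)) = 1)
include hs1 hrel hv

theorem clA_mem : clA hb hs ∈ H2MZ (tate b).toAffine.FunctionField :=
  Ly.mem (cst (tate b) (kap s)) hv _ _ (ly_A hb hs hs1 hrel) 1

theorem clB_mem : clB hb hs ∈ H2MZ (tate b).toAffine.FunctionField := by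
  refine Ly.mem (cst (tate b) (-1 / kap s)) (fun v => ?_) _ _ (ly_B hb hs hs1 hrel) 1
  rw [map_div₀, map_div₀, hv, map_neg, map_one, Valuation.map_neg, map_one, div_one]

end cls

theorem regQ_clA {K : Type*} [Field K] {b : K} (hb : b ≠ 0) {s : K} (hs : s ≠ 0)
    (γ : Loop (tate b).toAffine.FunctionField) :
    γ.regQ (clA hb hs) = γ.pair (uP (ncx hb) hs) (uP (ncy hb) hs) := by
  unfold clA
  rw [Loop.regQ_tmul, one_smul]

theorem regQ_clB {K : Type*} [Field K] {b : K} (hb : b ≠ 0) {s : K} (hs : s ≠ 0)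
    (γ : Loop (tate b).toAffine.FunctionField) :
    γ.regQ (clB hb hs) = γ.pair (uZ (ncx hb) hs) (uZ (nc2 hb) hs) := by
  unfold clB
  rw [Loop.regQ_tmul, one_smul]

/-- the location of the roots, one of which is bounded -/
theorem big_of_small {k u v w : ℂ} (h1 : u + v + w = -1) (h2 : u * v * w = -k) (hu : ‖u‖ ≤ 10)
    (hk : 10 ^ 8 ≤ ‖k‖) : 1000 ≤ ‖v‖ := by
  by_contra hv
  push Not at hv
  have hw : ‖w‖ ≤ 1011 := by
    have e : w = -(1 + u + v) := by linear_combination h1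
    rw [e, norm_neg]
    have h3 := norm_add₃_le (a := (1:ℂ)) (b := u) (c := v)
    rw [norm_one] at h3
    linarith
  have h3 : ‖k‖ = ‖u‖ * ‖v‖ * ‖w‖ := by
    rw [← norm_mul, ← norm_mul, h2, norm_neg]
  have h4 : ‖u‖ * ‖v‖ * ‖w‖ ≤ 10 * 1000 * 1011 := by
    gcongr
  rw [h3] at hk
  linarith

theorem near_of_small {k u : ℂ} (hrel : k * (u - 1) = u ^ 2 * (u + 1)) (hu : ‖u‖ ≤ 10)
    (hk : 10 ^ 8 ≤ ‖k‖) : ‖u - 1‖ ≤ 1 / 1000 := by
  have h1 : ‖k‖ * ‖u - 1‖ = ‖u‖ ^ 2 * ‖u + 1‖ := by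
    rw [← norm_mul, hrel, norm_mul, norm_pow]
  have h2 : ‖u + 1‖ ≤ 11 := by
    have := norm_add_le u 1
    rw [norm_one] at this
    linarith
  have h3 : ‖u‖ ^ 2 * ‖u + 1‖ ≤ 10 ^ 2 * 11 := by gcongr
  have h4 := norm_nonneg (u - 1)
  nlinarith

theorem log_le_of_rel {k u : ℂ} (hrel : k * (u - 1) = u ^ 2 * (u + 1)) (hu : 1000 ≤ ‖u‖) :
    2 * Real.log ‖u‖ ≤ Real.log ‖k‖ + 1 := by
  have h0 := s_ne_II hu
  have h1 := nk_II hu hrel
  have h2 := norm_sub_norm_le (1 : ℂ) (1 - k / u ^ 2)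
  rw [norm_one, norm_sub_rev, sub_sub_cancel, norm_div, norm_pow] at h2
  have hpos : 0 < ‖u‖ := norm_pos_iff.2 h0
  have h3 : 1 / 2 ≤ ‖k‖ / ‖u‖ ^ 2 := by linarith
  rw [le_div_iff₀ (by positivity)] at h3
  have h4 : ‖u‖ ^ 2 ≤ 2 * ‖k‖ := by linarith
  have hk : 0 < ‖k‖ := by nlinarith
  have h5 := Real.log_le_log (by positivity) h4
  rw [Real.log_pow, Real.log_mul (by norm_num) hk.ne'] at h5
  have h6 : Real.log 2 ≤ 2 - 1 := Real.log_le_sub_one_of_pos (by norm_num)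
  push_cast at h5
  linarith

end Pool.Agent.T6.H7.SX
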