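import Mathlib
set_option autoImplicit false

/-!
Irreducibility of the sextic polynomials.
-/

namespace Pool.Agent.T6.H7.SX

open Polynomial

/-- the polynomial over a commutative ring -/
noncomputable def PR {R : Type*} [CommRing R] (n : R) : R[X] :=
  X ^ 4 * (X - C n) ^ 2 - (C n * X - 1) ^ 2 - 4 * X ^ 3

theorem PR_eq {R : Type*} [CommRing R] (n : R) : PR n =
    X ^ 6 - C (2 * n) * X ^ 5 + C (n ^ 2) * X ^ 4 - C 4 * X ^ 3 - C (n ^ 2) * X ^ 2 + C (2 * n) * X - C 1 := by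
  unfold PR
  simp only [map_mul, map_pow, map_ofNat, map_one]
  ring

theorem PR_monic {R : Type*} [CommRing R] [Nontrivial R] (n : R) : (PR n).Monic := by
  rw [PR_eq]
  monicity!

theorem PR_natDegree {R : Type*} [CommRing R] [Nontrivial R] (n : R) : (PR n).natDegree = 6 := by
  rw [PR_eq]
  compute_degree!

theorem PR_map {R S : Type*} [CommRing R] [CommRing S] (f : R →+* S) (n : R) :
    (PR n).map f = PR (f n) := by
  unfold PR
  simp only [Polynomial.map_sub, Polynomial.map_mul, Polynomial.map_pow, map_X, map_C, Polynomial.map_one,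
    Polynomial.map_ofNat]

theorem no_deg1 : ∀ ν a : ZMod 3, ν ≠ 0 →
    a ^ 6 - 2 * ν * a ^ 5 + ν ^ 2 * a ^ 4 - 4 * a ^ 3 - ν ^ 2 * a ^ 2 + 2 * ν * a - 1 ≠ 0 := by decide

/-- remainders modulo `X² + a X + b` -/
def rem2 (ν a b : ZMod 3) : ZMod 3 × ZMod 3 :=
  let h3 := -2 * ν - a
  let h2 := ν ^ 2 - b - a * h3
  let h1 := -4 - b * h3 - a * h2
  let h0 := -ν ^ 2 - b * h2 - a * h1
  (2 * ν - b * h1 - a * h0, -1 - b * h0)

/-- remainders modulo `X³ + a X² + b X + c` -/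
def rem3 (ν a b c : ZMod 3) : ZMod 3 × ZMod 3 × ZMod 3 :=
  let h2 := -2 * ν - a
  let h1 := ν ^ 2 - b - a * h2
  let h0 := -4 - c - b * h2 - a * h1
  (-ν ^ 2 - a * h0 - b * h1 - c * h2, 2 * ν - b * h0 - c * h1, -1 - c * h0)

theorem no_deg2 : ∀ ν a b : ZMod 3, ν ≠ 0 → rem2 ν a b ≠ (0, 0) := by decide

theorem no_deg3 : ∀ ν a b c : ZMod 3, ν ≠ 0 → rem3 ν a b c ≠ (0, 0, 0) := by decide

theorem irr_mod3 (ν : ZMod 3) (hν : ν ≠ 0) : Irreducible (PR ν) := by
  have : Fact (Nat.Prime 3) := ⟨by norm_num⟩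
  have hm := PR_monic ν
  rw [hm.irreducible_iff_lt_natDegree_lt (by
    intro h
    have := PR_natDegree ν
    rw [h, natDegree_one] at this
    omega)]
  intro q hq hd hdvd
  rw [PR_natDegree, Finset.mem_Ioc] at hd
  have hsum := hq.as_sum
  obtain ⟨h1, h2⟩ := hd
  have h2' : q.natDegree ≤ 3 := h2
  interval_cases hdeg : q.natDegree
  · -- degree one
    rw [Finset.sum_range_one, pow_zero, mul_one, pow_one] at hsum
    set c := q.coeff 0 with hc
    have hq2 : q = X - C (-c) := by rw [hsum, map_neg]; ring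
    rw [hq2, dvd_iff_isRoot, IsRoot.def, PR_eq] at hdvd
    simp only [eval_add, eval_sub, eval_mul, eval_pow, eval_X, eval_C] at hdvd
    exact no_deg1 ν (-c) hν hdvd
  · -- degree two
    rw [Finset.sum_range_succ, Finset.sum_range_one, pow_zero, mul_one, pow_one] at hsum
    set b := q.coeff 0 with hb
    set a := q.coeff 1 with ha
    have hq2 : q = X ^ 2 + C a * X + C b := by rw [hsum]; ring
    obtain ⟨h3, eh3⟩ : ∃ h3, h3 = -2 * ν - a := ⟨_, rfl⟩
    obtain ⟨h2, eh2⟩ : ∃ h2, h2 = ν ^ 2 - b - a * h3 := ⟨_, rfl⟩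
    obtain ⟨h1, eh1⟩ : ∃ h1, h1 = -4 - b * h3 - a * h2 := ⟨_, rfl⟩
    obtain ⟨h0, eh0⟩ : ∃ h0, h0 = -ν ^ 2 - b * h2 - a * h1 := ⟨_, rfl⟩
    obtain ⟨r1, er1⟩ : ∃ r1, r1 = 2 * ν - b * h1 - a * h0 := ⟨_, rfl⟩
    obtain ⟨r0, er0⟩ : ∃ r0, r0 = -1 - b * h0 := ⟨_, rfl⟩
    have hr : C r1 * X + C r0 = PR ν - q * (X ^ 4 + C h3 * X ^ 3 + C h2 * X ^ 2 + C h1 * X + C h0) := by
      rw [hq2, PR_eq, er1, er0, eh0, eh1, eh2, eh3]
      simp only [map_sub, map_mul, map_pow, map_neg, map_ofNat, map_one]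
      ring
    have hdvd2 : q ∣ C r1 * X + C r0 := by
      rw [hr]
      exact dvd_sub hdvd (dvd_mul_right _ _)
    have hz : C r1 * X + C r0 = 0 := by
      apply eq_zero_of_dvd_of_degree_lt hdvd2
      rw [degree_eq_natDegree hq.ne_zero, hdeg]
      exact lt_of_le_of_lt degree_linear_le (by norm_num)
    have c1 := congrArg (fun p => p.coeff 1) hz
    have c0 := congrArg (fun p => p.coeff 0) hz
    simp [coeff_C] at c1 c0
    apply no_deg2 ν a b hν
    show (_, _) = _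
    rw [Prod.mk.injEq]
    rw [eh0, eh1, eh2, eh3] at *
    exact ⟨er1.symm.trans c1, er0.symm.trans c0⟩
  · -- degree three
    rw [Finset.sum_range_succ, Finset.sum_range_succ, Finset.sum_range_one, pow_zero, mul_one, pow_one] at hsum
    set c := q.coeff 0 with hc
    set b := q.coeff 1 with hb
    set a := q.coeff 2 with ha
    have hq2 : q = X ^ 3 + C a * X ^ 2 + C b * X + C c := by rw [hsum]; ring
    obtain ⟨h2, eh2⟩ : ∃ h2, h2 = -2 * ν - a := ⟨_, rfl⟩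
    obtain ⟨h1, eh1⟩ : ∃ h1, h1 = ν ^ 2 - b - a * h2 := ⟨_, rfl⟩
    obtain ⟨h0, eh0⟩ : ∃ h0, h0 = -4 - c - b * h2 - a * h1 := ⟨_, rfl⟩
    obtain ⟨r2, er2⟩ : ∃ r2, r2 = -ν ^ 2 - a * h0 - b * h1 - c * h2 := ⟨_, rfl⟩
    obtain ⟨r1, er1⟩ : ∃ r1, r1 = 2 * ν - b * h0 - c * h1 := ⟨_, rfl⟩
    obtain ⟨r0, er0⟩ : ∃ r0, r0 = -1 - c * h0 := ⟨_, rfl⟩
    have hr : C r2 * X ^ 2 + C r1 * X + C r0 = PR ν - q * (X ^ 3 + C h2 * X ^ 2 + C h1 * X + C h0) := by
      rw [hq2, PR_eq, er2, er1, er0, eh0, eh1, eh2]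
      simp only [map_sub, map_mul, map_pow, map_neg, map_ofNat, map_one]
      ring
    have hdvd2 : q ∣ C r2 * X ^ 2 + C r1 * X + C r0 := by
      rw [hr]
      exact dvd_sub hdvd (dvd_mul_right _ _)
    have hz : C r2 * X ^ 2 + C r1 * X + C r0 = 0 := by
      apply eq_zero_of_dvd_of_degree_lt hdvd2
      rw [degree_eq_natDegree hq.ne_zero, hdeg]
      exact lt_of_le_of_lt degree_quadratic_le (by norm_num)
    have c2 := congrArg (fun p => p.coeff 2) hz
    have c1 := congrArg (fun p => p.coeff 1) hz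
    have c0 := congrArg (fun p => p.coeff 0) hz
    simp [coeff_C] at c2 c1 c0
    apply no_deg3 ν a b c hν
    show (_, _, _) = _
    rw [Prod.mk.injEq, Prod.mk.injEq]
    rw [eh0, eh1, eh2] at *
    exact ⟨er2.symm.trans c2, er1.symm.trans c1, er0.symm.trans c0⟩

/-- For `n` not divisible by `3` the polynomial is irreducible. -/
theorem irr_Q (n : ℤ) (hn : ¬ (3 : ℤ) ∣ n) : Irreducible (PR (n : ℚ)) := by
  have h1 : Irreducible (PR n) := by
    apply (PR_monic n).irreducible_of_irreducible_map (Int.castRingHom (ZMod 3))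
    rw [PR_map]
    apply irr_mod3
    intro h
    apply hn
    have h3 : ((n : ℤ) : ZMod 3) = 0 := by simpa using h
    have h4 := (ZMod.intCast_zmod_eq_zero_iff_dvd n 3).1 h3
    exact_mod_cast h4
  have h2 := (IsPrimitive.Int.irreducible_iff_irreducible_map_cast (PR_monic n).isPrimitive).1 h1
  rw [PR_map] at h2
  simpa using h2

end Pool.Agent.T6.H7.SX
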