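import Pool.Agent.W367.KT.TameY
set_option autoImplicit false

/-!
Lyness pairs: pairs `(x, y)` with `(1 + x) (1 + y) (1 + x + y) = k x y`. Their symbols `{x, y}` are
unramified if `k` is a unit, and there are a `2`-isogeny and an isomorphism which transform them.
-/

namespace Pool.Agent.T6.H7.SX

open Pool.Agent.W367.KT
open scoped TensorProduct WithZero

variable {F : Type*} [Field F]

/-- The equation of the elliptic curve with a point of order five. -/
def Ly (k x y : F) : Prop := (1 + x) * (1 + y) * (1 + x + y) = k * x * y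

theorem Ly.symm {k x y : F} (h : Ly k x y) : Ly k y x := by
  unfold Ly at *
  linear_combination h

section tame

variable (v : Valuation F ℤᵐ⁰) {k x y : F}

theorem v_one_add_of_gt {x : F} (hx : 1 < v x) : v (1 + x) = v x := by
  exact Valuation.map_add_eq_of_lt_right v (by rw [map_one]; exact hx)

theorem Ly.caseA (h : Ly k x y) (hk : v k = 1) (hx0 : x ≠ 0) (hy0 : y ≠ 0) (hx : v x < 1) :
    v y = 1 ∧ v (1 + y) < 1 := by
  have h1 : v (1 + x) = 1 := Valuation.map_one_add_of_lt v hx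
  have hE := congrArg v h
  rw [map_mul, map_mul, map_mul, map_mul, hk, h1, one_mul, one_mul] at hE
  have hvx : 0 < v x := zero_lt_iff.2 ((Valuation.ne_zero_iff v).2 hx0)
  have hvy : 0 < v y := zero_lt_iff.2 ((Valuation.ne_zero_iff v).2 hy0)
  rcases lt_trichotomy (v y) 1 with hy | hy | hy
  · exfalso
    have h2 : v (1 + y) = 1 := Valuation.map_one_add_of_lt v hy
    have h3 : v (1 + x + y) = 1 := by
      rw [add_assoc]
      exact Valuation.map_one_add_of_lt v (Valuation.map_add_lt v hx hy)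
    rw [h2, h3, one_mul] at hE
    have : v x * v y < 1 := mul_lt_one' hx hy
    rw [← hE] at this
    exact lt_irrefl _ this
  · refine ⟨hy, ?_⟩
    by_contra hcon
    have h2 : v (1 + y) = 1 := by
      apply le_antisymm _ (not_lt.1 hcon)
      exact Valuation.map_add_le v (map_one v).le hy.le
    have h3 : v (1 + x + y) = 1 := by
      have e : (1 + x + y) = (1 + y) + x := by ring
      rw [e, Valuation.map_add_eq_of_lt_left v (by rw [h2]; exact hx), h2]
    rw [h2, h3, hy, mul_one, mul_one] at hE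
    rw [← hE] at hx
    exact lt_irrefl _ hx
  · exfalso
    have h2 : v (1 + y) = v y := v_one_add_of_gt v hy
    have h3 : v (1 + x + y) = v y := by
      rw [Valuation.map_add_eq_of_lt_right v (by rw [h1]; exact hy)]
    rw [h2, h3] at hE
    have h4 : v y = v x := mul_right_cancel₀ hvy.ne' hE
    rw [h4] at hy
    exact lt_asymm hx hy

theorem Ly.caseB (h : Ly k x y) (hk : v k = 1) (hx0 : x ≠ 0) (hy0 : y ≠ 0) (hx : 1 < v x)
    (hy : v y ≤ 1) : v y = 1 ∧ v (1 + y) < 1 := by
  have h1 : v (1 + x) = v x := v_one_add_of_gt v hx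
  have hvx : 0 < v x := zero_lt_iff.2 ((Valuation.ne_zero_iff v).2 hx0)
  have h3 : v (1 + x + y) = v x := by
    rw [Valuation.map_add_eq_of_lt_left v (by rw [h1]; exact hy.trans_lt hx), h1]
  have hE := congrArg v h
  rw [map_mul, map_mul, map_mul, map_mul, hk, h1, h3, one_mul] at hE
  rcases hy.lt_or_eq with hy | hy
  · exfalso
    rw [(Valuation.map_one_add_of_lt v hy : v (1 + y) = 1), mul_one] at hE
    have h4 : v x = v y := mul_left_cancel₀ hvx.ne' hE
    rw [h4] at hx
    exact lt_asymm hx hy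
  · refine ⟨hy, ?_⟩
    rw [hy, mul_one] at hE
    have h5 : v (1 + y) * v x = 1 := by
      apply mul_left_cancel₀ hvx.ne'
      rw [mul_one, ← mul_assoc]
      exact hE
    by_contra hcon
    have h6 : (1 : ℤᵐ⁰) < v (1 + y) * v x := by
      calc (1 : ℤᵐ⁰) < v x := hx
        _ = 1 * v x := (one_mul _).symm
        _ ≤ v (1 + y) * v x := mul_le_mul_left (not_lt.1 hcon) _
    rw [h5] at h6
    exact lt_irrefl _ h6

theorem Ly.caseC (h : Ly k x y) (hk : v k = 1) (hx0 : x ≠ 0) (hy0 : y ≠ 0) (hx : 1 < v x)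
    (hy : 1 < v y) : v (x / y + 1) < 1 ∧ v x = v y := by
  have h1 : v (1 + x) = v x := v_one_add_of_gt v hx
  have h2 : v (1 + y) = v y := v_one_add_of_gt v hy
  have hvx : 0 < v x := zero_lt_iff.2 ((Valuation.ne_zero_iff v).2 hx0)
  have hvy : 0 < v y := zero_lt_iff.2 ((Valuation.ne_zero_iff v).2 hy0)
  have hE := congrArg v h
  rw [map_mul, map_mul, map_mul, map_mul, hk, h1, h2, one_mul] at hE
  have h3 : v (1 + x + y) = 1 := by
    apply mul_left_cancel₀ (mul_ne_zero hvx.ne' hvy.ne')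
    rw [hE, mul_one]
  have h4 : v (x + y) ≤ 1 := by
    have e : x + y = (1 + x + y) - 1 := by ring
    rw [e]
    exact Valuation.map_sub_le v h3.le (map_one v).le
  have h5 : x / y + 1 = (x + y) / y := by field_simp
  refine ⟨?_, ?_⟩
  · rw [h5, map_div₀, div_lt_one₀ hvy]
    exact h4.trans_lt hy
  · have e : x = (x + y) - y := by ring
    rw [e, Valuation.map_sub_eq_of_lt_right v (h4.trans_lt hy)]

theorem sq_mem_U1 (y : Fˣ) (hy : v (y : F) = 1) (h : v (1 + (y : F)) < 1) : y ^ 2 ∈ U1 v := by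
  rw [mem_U1]
  have e : ((y ^ 2 : Fˣ) : F) - 1 = (1 + y) * (y - 1) := by push_cast; ring
  rw [e, map_mul]
  have h2 : v ((y : F) - 1) ≤ 1 := Valuation.map_sub_le v hy.le (map_one v).le
  calc v (1 + (y : F)) * v ((y : F) - 1) ≤ v (1 + (y : F)) * 1 := mul_le_mul_right h2 _
    _ < 1 := by simpa using h

/-- The tame symbols of Lyness pairs with unit parameter are `±1`. -/
theorem Ly.tame {k : F} (hk : v k = 1) (x y : Fˣ) (h : Ly k (x : F) y) :
    tameElt v x y ^ 2 ∈ U1 v := by
  have hx0 := x.ne_zero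
  have hy0 := y.ne_zero
  have key1 : ord v y = 0 → y ^ 2 ∈ U1 v → tameElt v x y ^ 2 ∈ U1 v := fun h1 h2 =>
    YData.tame_of_pow h1 (Or.inr h2)
  have key2 : ord v x = 0 → (ord v y = 0 ∨ x ^ 2 ∈ U1 v) → tameElt v x y ^ 2 ∈ U1 v := by
    intro h1 h2
    rcases h2 with h2 | h2
    · exact YData.tame_of_pow h2 (Or.inl h1)
    · unfold tameElt
      rw [h1]
      have : ((-1 : Fˣ) ^ (0 * ord v y) * x ^ (ord v y) * y ^ (-(0:ℤ))) ^ 2 = (x ^ 2) ^ (ord v y) := by
        simp only [zero_mul, zpow_zero, one_mul, neg_zero, mul_one]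
        rw [← zpow_natCast, ← zpow_mul, ← zpow_natCast x, ← zpow_mul]
        congr 1
        ring
      rw [this]
      exact Subgroup.zpow_mem _ h2 _
  rcases lt_trichotomy (v (x : F)) 1 with hx | hx | hx
  · obtain ⟨h1, h2⟩ := h.caseA v hk hx0 hy0 hx
    exact key1 ((ord_eq_zero_iff v y).2 h1) (sq_mem_U1 v y h1 h2)
  · refine key2 ((ord_eq_zero_iff v x).2 hx) ?_
    rcases lt_trichotomy (v (y : F)) 1 with hy | hy | hy
    · obtain ⟨h1, h2⟩ := h.symm.caseA v hk hy0 hx0 hy
      exact Or.inr (sq_mem_U1 v x h1 h2)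
    · exact Or.inl ((ord_eq_zero_iff v y).2 hy)
    · obtain ⟨h1, h2⟩ := h.symm.caseB v hk hy0 hx0 hy hx.le
      exact Or.inr (sq_mem_U1 v x h1 h2)
  · rcases le_or_gt (v (y : F)) 1 with hy | hy
    · obtain ⟨h1, h2⟩ := h.caseB v hk hx0 hy0 hx hy
      exact key1 ((ord_eq_zero_iff v y).2 h1) (sq_mem_U1 v y h1 h2)
    · obtain ⟨h1, h2⟩ := h.caseC v hk hx0 hy0 hx hy
      have ho : ord v x = ord v y := by
        rw [ord_eq_iff, h2, val_eq]
      unfold tameElt
      rw [ho]
      have h3 : ((-1 : Fˣ) ^ (ord v y * ord v y) * x ^ (ord v y) * y ^ (-(ord v y))) ^ 2 =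
          ((x / y) ^ 2) ^ (ord v y) := by
        rw [mul_assoc, zpow_neg, ← inv_zpow, ← mul_zpow, ← div_eq_mul_inv, mul_pow]
        have h4 : ((-1 : Fˣ) ^ (ord v y * ord v y)) ^ 2 = 1 := by
          rw [← zpow_natCast, ← zpow_mul, mul_comm, zpow_mul]
          simp
        rw [h4, one_mul, ← zpow_natCast, ← zpow_mul, ← zpow_natCast (x / y), ← zpow_mul]
        congr 1
        ring
      rw [h3]
      apply Subgroup.zpow_mem
      apply sq_mem_U1
      · push_cast
        rw [map_div₀, h2, div_self ((Valuation.ne_zero_iff v).2 hy0)]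
      · push_cast
        rw [add_comm]
        exact h1

end tame

theorem Ly.mem (k : F) (hk : ∀ v : Valuation F ℤᵐ⁰, v k = 1) (x y : Fˣ) (h : Ly k (x : F) y) (q : ℚ) :
    q ⊗ₜ[ℤ] symb x y ∈ H2MZ F := by
  apply tmul_symb_mem _ _ 2 (by norm_num)
  intro v
  rw [← mem_U1]
  exact h.tame v (hk v) x y

end Pool.Agent.T6.H7.SX
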