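import Pool.Agent.T6.H7.SX.Gen
set_option autoImplicit false

/-!
Six independent classes from six embeddings.
-/

namespace Pool.Agent.T6.H7.SX

open Pool.Agent.W367.KT
open Set MeasureTheory intervalIntegral Polynomial
open scoped TensorProduct WithZero Interval

/-- a criterion for a nonzero determinant -/
theorem det_ne_of_dom (M : Matrix (Fin 3 ⊕ Fin 3) (Fin 3 ⊕ Fin 3) ℝ)
    (h : ∀ r, ∃ L : ℝ, 408 ≤ L ∧ 8 * Real.pi * L - 200 * Real.pi ≤ |M r r| ∧
      ∀ c, c ≠ r → |M r c| ≤ Real.pi * L + 204 * Real.pi) : M.det ≠ 0 := by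
  apply det_ne_zero_of_sum_row_lt_diag
  intro r
  obtain ⟨L, h1, h2, h3⟩ := h r
  have h4 : ∑ j ∈ Finset.univ.erase r, ‖M r j‖ ≤
      (Finset.univ.erase r).card • (Real.pi * L + 204 * Real.pi) := by
    apply Finset.sum_le_card_nsmul
    intro c hc
    rw [Finset.mem_erase] at hc
    rw [Real.norm_eq_abs]
    exact h3 c hc.1
  have h5 : (Finset.univ.erase r).card = 5 := by
    rw [Finset.card_erase_of_mem (Finset.mem_univ r)]
    rfl
  rw [h5, nsmul_eq_mul] at h4
  rw [Real.norm_eq_abs]
  push_cast at h4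
  have := Real.pi_pos
  nlinarith

theorem triple_big {k : ℂ} (s : Fin 3 → ℂ) (h1 : s 0 + s 1 + s 2 = -1) (h2 : s 0 * s 1 * s 2 = -k)
    (hk : 10 ^ 8 ≤ ‖k‖) (i : Fin 3) (hi : ‖s i‖ ≤ 10) (j : Fin 3) (hij : j ≠ i) : 1000 ≤ ‖s j‖ := by
  fin_cases i <;> fin_cases j
  · exact absurd rfl hij
  · exact big_of_small (u := s 0) (v := s 1) (w := s 2) (k := k) (by linear_combination h1)
      (by linear_combination h2) hi hk
  · exact big_of_small (u := s 0) (v := s 2) (w := s 1) (k := k) (by linear_combination h1)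
      (by linear_combination h2) hi hk
  · exact big_of_small (u := s 1) (v := s 0) (w := s 2) (k := k) (by linear_combination h1)
      (by linear_combination h2) hi hk
  · exact absurd rfl hij
  · exact big_of_small (u := s 1) (v := s 2) (w := s 0) (k := k) (by linear_combination h1)
      (by linear_combination h2) hi hk
  · exact big_of_small (u := s 2) (v := s 0) (w := s 1) (k := k) (by linear_combination h1)
      (by linear_combination h2) hi hk
  · exact big_of_small (u := s 2) (v := s 1) (w := s 0) (k := k) (by linear_combination h1)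
      (by linear_combination h2) hi hk
  · exact absurd rfl hij

theorem exp_bounds {x : ℝ} (h : Real.exp 408 ≤ x) : 10 ^ 8 ≤ x ∧ 10 ^ 6 ≤ x ∧ 408 ≤ Real.log x := by
  have h1 : (10:ℝ) ^ 8 ≤ Real.exp 408 := by
    have h2 : (2:ℝ) ≤ Real.exp 1 := by
      have := Real.add_one_le_exp (1:ℝ)
      linarith
    calc (10:ℝ) ^ 8 ≤ 2 ^ 27 := by norm_num
      _ ≤ 2 ^ 408 := pow_le_pow_right₀ (by norm_num) (by norm_num)
      _ ≤ (Real.exp 1) ^ 408 := pow_le_pow_left₀ (by norm_num) h2 _
      _ = Real.exp 408 := by rw [← Real.exp_nat_mul]; norm_num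
  refine ⟨h1.trans h, ?_, ?_⟩
  · refine le_trans ?_ (h1.trans h)
    norm_num
  · rw [Real.le_log_iff_exp_le (lt_of_lt_of_le (Real.exp_pos _) h)]
    exact h

/-- The function field of the Weierstrass curve `W` over `K` has `r` elements of the integral part
`H2MZ` of `K_2 ⊗ ℚ`, linearly independent over `ℚ`, and there are `r` closed paths in the complex
points of `W` lying over `r` different embeddings of `K`, such that the matrix of the regulator
integrals is invertible. -/
def FullRank {K : Type*} [Field K] (W : WeierstrassCurve K) (r : ℕ) : Prop :=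
  ∃ (σ : Fin r → (K →+* ℂ)) (γ : Fin r → Loop W.toAffine.FunctionField)
    (α : Fin r → ℚ ⊗[ℤ] K2 W.toAffine.FunctionField),
    Function.Injective σ ∧ (∀ i t c, (γ i).e t (cst W c) = σ i c) ∧
    (∀ k, α k ∈ H2MZ W.toAffine.FunctionField) ∧ LinearIndependent ℚ α ∧
    (Matrix.of fun i k => (γ i).regQ (α k)).det ≠ 0

theorem main_gen {K : Type*} [Field K] [NumberField K] {b : K} (hb : b ≠ 0) (s : Fin 3 → K)
    (hs : ∀ j, s j ≠ 0) (hs1 : ∀ j, s j - 1 ≠ 0) (hrel : ∀ j, b * (s j - 1) = s j ^ 2 * (s j + 1))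
    (hsum : s 0 + s 1 + s 2 = -1) (hprod : s 0 * s 1 * s 2 = -b)
    (hinv : s 0 * s 1 + s 0 * s 2 + s 1 * s 2 = s 0 * s 1 * s 2)
    (hv : ∀ (j : Fin 3) (v : Valuation (tate b).toAffine.FunctionField ℤᵐ⁰), v (cst (tate b) (kap (s j))) = 1)
    (σA σB : Fin 3 → (K →+* ℂ)) (hσ : Function.Injective (Sum.elim σA σB))
    (hA : ∀ i, Real.exp 408 ≤ ‖σA i b‖ ∧ ‖σA i (s i)‖ ≤ 10)
    (hB : ∀ i, Real.exp 408 ≤ ‖σB i (-1 / b)‖ ∧ ‖σB i (-1 / s i)‖ ≤ 10) :
    FullRank (tate b) 6 := by
  have hpi := Real.pi_pos
  choose γA gA hγA using fun i => rowA hb (σA i) (exp_bounds (hA i).1).2.1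
  choose γB gB hγB using fun i => rowB hb (σB i) (exp_bounds (hB i).1).2.1
  set α : Fin 3 ⊕ Fin 3 → ℚ ⊗[ℤ] K2 (tate b).toAffine.FunctionField :=
    Sum.elim (fun j => clA hb (hs j)) (fun j => clB hb (hs j)) with hα
  set γ : Fin 3 ⊕ Fin 3 → Loop (tate b).toAffine.FunctionField := Sum.elim γA γB with hγ
  set M : Matrix (Fin 3 ⊕ Fin 3) (Fin 3 ⊕ Fin 3) ℝ := Matrix.of fun r c => (γ r).regQ (α c) with hM
  have hdet : M.det ≠ 0 := by
    apply det_ne_of_dom
    rintro (i | i)
    · -- rows of type A
      obtain ⟨h8, h6, hL⟩ := exp_bounds (hA i).1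
      have hrel' : ∀ j, σA i b * (σA i (s j) - 1) = σA i (s j) ^ 2 * (σA i (s j) + 1) := fun j => by
        have := congrArg (σA i) (hrel j)
        simpa only [map_mul, map_sub, map_add, map_pow, map_one] using this
      have hnear : ‖σA i (s i) - 1‖ ≤ 1 / 1000 := near_of_small (hrel' i) (hA i).2 h8
      have hbig : ∀ j, j ≠ i → 1000 ≤ ‖σA i (s j)‖ := fun j hj =>
        triple_big (k := σA i b) (fun j => σA i (s j))
          (by have := congrArg (σA i) hsum; simpa only [map_add, map_neg, map_one] using this)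
          (by have := congrArg (σA i) hprod; simpa only [map_mul, map_neg] using this)
          h8 i (hA i).2 j hj
      refine ⟨Real.log ‖σA i b‖, hL, ?_, ?_⟩
      · have h := ((hγA i (s i) (hs i) (hrel i)).1 hnear).1
        have e : M (Sum.inl i) (Sum.inl i) = (γA i).pair (uP (ncx hb) (hs i)) (uP (ncy hb) (hs i)) :=
          regQ_clA hb (hs i) (γA i)
        rw [e]
        rw [abs_le] at h
        have h1 := neg_le_abs ((γA i).pair (uP (ncx hb) (hs i)) (uP (ncy hb) (hs i)))
        linarith [h.2]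
      · rintro (j | j) hj
        · have hji : j ≠ i := fun h => hj (by rw [h])
          have e : M (Sum.inl i) (Sum.inl j) = (γA i).pair (uP (ncx hb) (hs j)) (uP (ncy hb) (hs j)) :=
            regQ_clA hb (hs j) (γA i)
          rw [e]
          have h := ((hγA i (s j) (hs j) (hrel j)).2 (hbig j hji)).1
          nlinarith
        · have e : M (Sum.inl i) (Sum.inr j) = (γA i).pair (uZ (ncx hb) (hs j)) (uZ (nc2 hb) (hs j)) :=
            regQ_clB hb (hs j) (γA i)
          rw [e]
          by_cases hji : j = i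
          · subst hji
            have h := ((hγA j (s j) (hs j) (hrel j)).1 hnear).2
            nlinarith
          · have h := ((hγA i (s j) (hs j) (hrel j)).2 (hbig j hji)).2
            have h2 := log_le_of_rel (hrel' j) (hbig j hji)
            nlinarith
    · -- rows of type B
      obtain ⟨h8, h6, hL⟩ := exp_bounds (hB i).1
      have hrel0 : ∀ j, (-1 / b) * ((-1 / s j) - 1) = (-1 / s j) ^ 2 * ((-1 / s j) + 1) := fun j => by
        have := hs j
        field_simp
        linear_combination -hrel j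
      have hrel' : ∀ j, σB i (-1 / b) * (σB i (-1 / s j) - 1) =
          σB i (-1 / s j) ^ 2 * (σB i (-1 / s j) + 1) := fun j => by
        have := congrArg (σB i) (hrel0 j)
        simpa only [map_mul, map_sub, map_add, map_pow, map_one] using this
      have hsum' : (-1 / s 0) + (-1 / s 1) + (-1 / s 2) = -1 := by
        have h0 := hs 0
        have h1 := hs 1
        have h2 := hs 2
        field_simp
        linear_combination -hinv
      have hprod' : (-1 / s 0) * (-1 / s 1) * (-1 / s 2) = -(-1 / b) := by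
        have e : b = -(s 0 * s 1 * s 2) := by linear_combination hprod
        have h0 := hs 0
        have h1 := hs 1
        have h2 := hs 2
        rw [e]
        field_simp
      have hnear : ‖σB i (-1 / s i) - 1‖ ≤ 1 / 1000 := near_of_small (hrel' i) (hB i).2 h8
      have hbig : ∀ j, j ≠ i → 1000 ≤ ‖σB i (-1 / s j)‖ := fun j hj =>
        triple_big (k := σB i (-1 / b)) (fun j => σB i (-1 / s j))
          (by have := congrArg (σB i) hsum'; simpa only [map_add, map_neg, map_one] using this)
          (by have := congrArg (σB i) hprod'; simpa only [map_mul, map_neg] using this)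
          h8 i (hB i).2 j hj
      refine ⟨Real.log ‖σB i (-1 / b)‖, hL, ?_, ?_⟩
      · have h := ((hγB i (s i) (hs i) (hrel i)).1 hnear).1
        have e : M (Sum.inr i) (Sum.inr i) = (γB i).pair (uZ (ncx hb) (hs i)) (uZ (nc2 hb) (hs i)) :=
          regQ_clB hb (hs i) (γB i)
        rw [e]
        rw [abs_le] at h
        have h1 := neg_le_abs ((γB i).pair (uZ (ncx hb) (hs i)) (uZ (nc2 hb) (hs i)))
        linarith [h.2]
      · rintro (j | j) hj
        · have e : M (Sum.inr i) (Sum.inl j) = (γB i).pair (uP (ncx hb) (hs j)) (uP (ncy hb) (hs j)) :=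
            regQ_clA hb (hs j) (γB i)
          rw [e]
          by_cases hji : j = i
          · subst hji
            have h := ((hγB j (s j) (hs j) (hrel j)).1 hnear).2
            nlinarith
          · have h := ((hγB i (s j) (hs j) (hrel j)).2 (hbig j hji)).2
            have h2 := log_le_of_rel (hrel' j) (hbig j hji)
            nlinarith
        · have hji : j ≠ i := fun h => hj (by rw [h])
          have e : M (Sum.inr i) (Sum.inr j) = (γB i).pair (uZ (ncx hb) (hs j)) (uZ (nc2 hb) (hs j)) :=
            regQ_clB hb (hs j) (γB i)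
          rw [e]
          have h := ((hγB i (s j) (hs j) (hrel j)).2 (hbig j hji)).1
          nlinarith
  have hmem : ∀ c, α c ∈ H2MZ (tate b).toAffine.FunctionField := by
    rintro (j | j)
    · exact clA_mem hb (hs j) (hs1 j) (hrel j) (hv j)
    · exact clB_mem hb (hs j) (hs1 j) (hrel j) (hv j)
  let e : Fin (3 + 3) ≃ Fin 3 ⊕ Fin 3 := finSumFinEquiv.symm
  show FullRank (tate b) (3 + 3)
  have hdet' : (Matrix.of fun i j => ((γ ∘ e) i).regQ ((α ∘ e) j)).det ≠ 0 := by
    have h : (Matrix.of fun i j => ((γ ∘ e) i).regQ ((α ∘ e) j)) = M.submatrix e e := rfl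
    rw [h, Matrix.det_submatrix_equiv_self]
    exact hdet
  refine ⟨Sum.elim σA σB ∘ e, γ ∘ e, α ∘ e, hσ.comp e.injective, ?_, fun k => hmem (e k),
    linearIndependent_of_det _ _ hdet', hdet'⟩
  intro i t c
  show (γ (e i)).e t (cst _ c) = Sum.elim σA σB (e i) c
  rcases e i with j | j
  · exact gA j t c
  · exact gB j t c

end Pool.Agent.T6.H7.SX
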