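import Pool.Agent.T6.H7.SX.Fld
set_option autoImplicit false

/-!
The six real roots.
-/

namespace Pool.Agent.T6.H7.SX

open Pool.Agent.W367.KT
open Set

/-- the polynomial function -/
def fr (n r : ℝ) : ℝ := r ^ 4 * (r - n) ^ 2 - (n * r - 1) ^ 2 - 4 * r ^ 3

/-- the reciprocal polynomial function -/
def gr (n r : ℝ) : ℝ := (n * r - 1) ^ 2 - r ^ 4 * (r - n) ^ 2 - 4 * r ^ 3

theorem fr_inv {n r : ℝ} (hr : r ≠ 0) (h : gr n r = 0) : fr n r⁻¹ = 0 := by
  unfold gr at h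
  unfold fr
  field_simp
  linear_combination h

theorem cont_fr (n : ℝ) : Continuous (fr n) := by unfold fr; fun_prop

theorem cont_gr (n : ℝ) : Continuous (gr n) := by unfold gr; fun_prop

theorem exists_root {f : ℝ → ℝ} (hf : Continuous f) {a b : ℝ} (hab : a ≤ b) (ha : f a < 0) (hb : 0 < f b) :
    ∃ c, a < c ∧ c < b ∧ f c = 0 := by
  obtain ⟨c, hc, hc2⟩ := intermediate_value_Icc hab hf.continuousOn ⟨ha.le, hb.le⟩
  refine ⟨c, lt_of_le_of_ne hc.1 ?_, lt_of_le_of_ne hc.2 ?_, hc2⟩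
  · rintro rfl; rw [hc2] at ha; exact lt_irrefl _ ha
  · rintro rfl; rw [hc2] at hb; exact lt_irrefl _ hb

theorem exists_root' {f : ℝ → ℝ} (hf : Continuous f) {a b : ℝ} (hab : a ≤ b) (ha : 0 < f a) (hb : f b < 0) :
    ∃ c, a < c ∧ c < b ∧ f c = 0 := by
  obtain ⟨c, h1, h2, h3⟩ := exists_root (f := fun x => - f x) hf.neg hab (by simpa using ha) (by simpa using hb)
  exact ⟨c, h1, h2, by simpa using h3⟩

section

variable {n : ℝ} (hn : 100 ≤ n)
include hn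

theorem root1 : ∃ r, 1 < r ∧ r < 1 + 1 / n ∧ fr n r = 0 := by
  have h0 : 0 < n := by linarith
  apply exists_root (cont_fr n) (by have := one_div_pos.2 h0; linarith)
  · unfold fr
    nlinarith
  · have e : fr n (1 + 1 / n) = ((n + 1) ^ 4 * (n ^ 2 - n - 1) ^ 2 - n ^ 8 - 4 * n ^ 3 * (n + 1) ^ 3) / n ^ 6 := by
      unfold fr
      field_simp
      ring
    rw [e]
    apply div_pos _ (by positivity)
    obtain ⟨m, hm, rfl⟩ : ∃ m : ℝ, 0 ≤ m ∧ n = 100 + m := ⟨n - 100, by linarith, by ring⟩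
    ring_nf
    positivity

theorem root2 : ∃ r, n + 1 < r ∧ r < n + 1 + 2 / n ∧ fr n r = 0 := by
  have h0 : 0 < n := by linarith
  apply exists_root (cont_fr n) (by have := div_pos (by norm_num : (0:ℝ) < 2) h0; linarith)
  · have e : fr n (n + 1) = -(2 * n ^ 3 + 5 * n ^ 2 + 6 * n + 4) := by
      unfold fr
      ring
    rw [e]
    have : 0 < 2 * n ^ 3 + 5 * n ^ 2 + 6 * n + 4 := by positivity
    linarith
  · have e : fr n (n + 1 + 2 / n) = ((n ^ 2 + n + 2) ^ 4 * (n + 2) ^ 2 - n ^ 6 * (n ^ 2 + n + 1) ^ 2 -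
        4 * n ^ 3 * (n ^ 2 + n + 2) ^ 3) / n ^ 6 := by
      unfold fr
      field_simp
      ring
    rw [e]
    apply div_pos _ (by positivity)
    obtain ⟨m, hm, rfl⟩ : ∃ m : ℝ, 0 ≤ m ∧ n = 100 + m := ⟨n - 100, by linarith, by ring⟩
    ring_nf
    positivity

theorem root3 : ∃ r, n - 1 - 6 / n < r ∧ r < n - 1 ∧ fr n r = 0 := by
  have h0 : 0 < n := by linarith
  apply exists_root' (cont_fr n) (by have := div_pos (by norm_num : (0:ℝ) < 6) h0; linarith)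
  · have e : fr n (n - 1 - 6 / n) = ((n ^ 2 - n - 6) ^ 4 * (n + 6) ^ 2 - n ^ 6 * (n ^ 2 - n - 7) ^ 2 -
        4 * n ^ 3 * (n ^ 2 - n - 6) ^ 3) / n ^ 6 := by
      unfold fr
      field_simp
      ring
    rw [e]
    apply div_pos _ (by positivity)
    obtain ⟨m, hm, rfl⟩ : ∃ m : ℝ, 0 ≤ m ∧ n = 100 + m := ⟨n - 100, by linarith, by ring⟩
    ring_nf
    positivity
  · have e : fr n (n - 1) = -(6 * n ^ 3 - 19 * n ^ 2 + 18 * n - 4) := by
      unfold fr
      ring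
    rw [e]
    have : 0 < 6 * n ^ 3 - 19 * n ^ 2 + 18 * n - 4 := by
      obtain ⟨m, hm, rfl⟩ : ∃ m : ℝ, 0 ≤ m ∧ n = 100 + m := ⟨n - 100, by linarith, by ring⟩
      ring_nf
      positivity
    linarith

theorem root4 : ∃ r, -1 < r ∧ r < -1 + 1 / n ∧ fr n r = 0 := by
  have h0 : 0 < n := by linarith
  apply exists_root' (cont_fr n) (by have := one_div_pos.2 h0; linarith)
  · unfold fr
    nlinarith
  · have e : fr n (-1 + 1 / n) = -(n ^ 8 - (n - 1) ^ 4 * (n ^ 2 + n - 1) ^ 2 - 4 * n ^ 3 * (n - 1) ^ 3) / n ^ 6 := by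
      unfold fr
      field_simp
      ring
    rw [e, neg_div, neg_lt_zero]
    apply div_pos _ (by positivity)
    obtain ⟨m, hm, rfl⟩ : ∃ m : ℝ, 0 ≤ m ∧ n = 100 + m := ⟨n - 100, by linarith, by ring⟩
    ring_nf
    positivity

theorem root5 : ∃ r, n - 1 < r ∧ r < n - 1 + 2 / n ∧ gr n r = 0 := by
  have h0 : 0 < n := by linarith
  apply exists_root (cont_gr n) (by have := div_pos (by norm_num : (0:ℝ) < 2) h0; linarith)
  · have e : gr n (n - 1) = -(2 * n ^ 3 - 5 * n ^ 2 + 6 * n - 4) := by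
      unfold gr
      ring
    rw [e]
    have : 0 < 2 * n ^ 3 - 5 * n ^ 2 + 6 * n - 4 := by
      obtain ⟨m, hm, rfl⟩ : ∃ m : ℝ, 0 ≤ m ∧ n = 100 + m := ⟨n - 100, by linarith, by ring⟩
      ring_nf
      positivity
    linarith
  · have e : gr n (n - 1 + 2 / n) = (n ^ 6 * (n ^ 2 - n + 1) ^ 2 - (n ^ 2 - n + 2) ^ 4 * (n - 2) ^ 2 -
        4 * n ^ 3 * (n ^ 2 - n + 2) ^ 3) / n ^ 6 := by
      unfold gr
      field_simp
      ring
    rw [e]
    apply div_pos _ (by positivity)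
    obtain ⟨m, hm, rfl⟩ : ∃ m : ℝ, 0 ≤ m ∧ n = 100 + m := ⟨n - 100, by linarith, by ring⟩
    ring_nf
    positivity

theorem root6 : ∃ r, n + 1 - 6 / n < r ∧ r < n + 1 ∧ gr n r = 0 := by
  have h0 : 0 < n := by linarith
  apply exists_root' (cont_gr n) (by have := div_pos (by norm_num : (0:ℝ) < 6) h0; linarith)
  · have e : gr n (n + 1 - 6 / n) = (n ^ 6 * (n ^ 2 + n - 7) ^ 2 - (n ^ 2 + n - 6) ^ 4 * (n - 6) ^ 2 -
        4 * n ^ 3 * (n ^ 2 + n - 6) ^ 3) / n ^ 6 := by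
      unfold gr
      field_simp
      ring
    rw [e]
    apply div_pos _ (by positivity)
    obtain ⟨m, hm, rfl⟩ : ∃ m : ℝ, 0 ≤ m ∧ n = 100 + m := ⟨n - 100, by linarith, by ring⟩
    ring_nf
    positivity
  · have e : gr n (n + 1) = -(6 * n ^ 3 + 19 * n ^ 2 + 18 * n + 4) := by
      unfold gr
      ring
    rw [e]
    have : 0 < 6 * n ^ 3 + 19 * n ^ 2 + 18 * n + 4 := by positivity
    linarith

end

end Pool.Agent.T6.H7.SX
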