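import Pool.Agent.T6.H7.SX.Est
set_option autoImplicit false

/-!
The loops and the rows of the regulator matrix.
-/

namespace Pool.Agent.T6.H7.SX

open Pool.Agent.W367.KT
open Set MeasureTheory intervalIntegral Polynomial
open scoped TensorProduct WithZero Interval

section ids

variable {F : Type*} [Field F]

theorem Ly.back {k x y : F} (h : Ly k x y) (hy : y ≠ 0) : Ly k x ((1 + x) / y) := by
  unfold Ly at *
  have e1 : 1 + (1 + x) / y = (1 + x + y) / y := by field_simp; ring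
  have e2 : 1 + x + (1 + x) / y = (1 + x) * (1 + y) / y := by field_simp; ring
  rw [e1, e2]
  field_simp
  linear_combination (1 + x) * h

/-- the pair `(Zz x, Zz x₃)` -/
theorem Ly.zz3 {k x y : F} (h : Ly k x y) (hk : k ≠ 0) (hx : x ≠ 0) (hy : y ≠ 0) :
    Ly (-1 / k) (Zz x) (Zz ((1 + x + y) / (x * y))) := by
  obtain ⟨h1, h2, h3⟩ := ly_ne h hk hx hy
  have h4 := (h.back hy).zz hk hx (div_ne_zero h1 hy)
  have e : (1 + (1 + x) / y) / x = (1 + x + y) / (x * y) := by field_simp; ring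
  rwa [e] at h4

theorem zz3_back {x y : F} (hx : x ≠ 0) (hy : y ≠ 0) (h1 : 1 + x ≠ 0) (h2 : 1 + y ≠ 0) :
    (1 + Zz ((1 + x + y) / (x * y))) / Zz x = Zz y := by
  have e1 : Zz ((1 + x + y) / (x * y)) = -(1 + x + y) / ((1 + x) * (1 + y)) := by
    unfold Zz
    have : 1 + (1 + x + y) / (x * y) = (1 + x) * (1 + y) / (x * y) := by field_simp; ring
    rw [this]
    field_simp
  rw [e1]
  have e2 : 1 + -(1 + x + y) / ((1 + x) * (1 + y)) = x * y / ((1 + x) * (1 + y)) := by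
    field_simp; ring
  rw [e2]
  unfold Zz
  field_simp

theorem x3_add_one {x y : F} (hx : x ≠ 0) (hy : y ≠ 0) :
    1 + (1 + x + y) / (x * y) = (1 + x) * (1 + y) / (x * y) := by field_simp; ring

theorem map_Phi {E : Type*} [Field E] (f : F →+* E) (s z : F) : f (Phi s z) = Phi (f s) (f z) := by
  unfold Phi
  simp only [map_div₀, map_mul, map_sub, map_add, map_pow, map_one]

theorem map_Zz {E : Type*} [Field E] (f : F →+* E) (z : F) : f (Zz z) = Zz (f z) := by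
  unfold Zz
  simp only [map_div₀, map_neg, map_add, map_one]

theorem map_ZPhi {E : Type*} [Field E] (f : F →+* E) (s z : F) : f (ZPhi s z) = ZPhi (f s) (f z) := by
  unfold ZPhi
  simp only [map_div₀, map_mul, map_sub, map_add, map_pow, map_one, map_neg]

variable {K : Type*} [Field K] {φ : K →+* F} {z : F}

theorem NC.zPhi (hz : NC φ z) {s : K} (hs : s ≠ 0) : Zz (Phi (φ s) z) = ZPhi (φ s) z :=
  Zz_Phi ((_root_.map_ne_zero φ).2 hs) (hz.den_ne s)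

theorem NC.phi_zz (hz : NC φ z) {s : K} (hs : s ≠ 0) : Phi (φ s) z = ZPhi (φ (-1 / s)) (Zz z) := by
  have hs' : (-1 / s : K) ≠ 0 := div_ne_zero (neg_ne_zero.2 one_ne_zero) hs
  have h := Phi_Zz (s := φ s) (x := Zz z) ((_root_.map_ne_zero φ).2 hs) hz.zz.one_add_ne (by
    have := hz.zz.den_ne (-1 / s)
    rwa [map_div₀, map_neg, map_one] at this)
  rw [Zz_Zz hz.one_add_ne] at h
  rw [h, ← hz.zz.zPhi hs', map_div₀, map_neg, map_one]

theorem NC.zphi_zz (hz : NC φ z) {s : K} (hs : s ≠ 0) : Zz (Phi (φ s) z) = Phi (φ (-1 / s)) (Zz z) := by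
  have hs' : (-1 / s : K) ≠ 0 := div_ne_zero (neg_ne_zero.2 one_ne_zero) hs
  rw [hz.phi_zz hs, ← hz.zz.zPhi hs', Zz_Zz (hz.zz.one_add_phi_ne hs')]

/-- the unit `Φ_s z` -/
noncomputable def uP (hz : NC φ z) {s : K} (hs : s ≠ 0) : Fˣ := Units.mk0 (Phi (φ s) z) (hz.phi_ne hs)

/-- the unit `Z Φ_s z` -/
noncomputable def uZ (hz : NC φ z) {s : K} (hs : s ≠ 0) : Fˣ :=
  Units.mk0 (Zz (Phi (φ s) z)) (Zz_ne_zero (hz.phi_ne hs) (hz.one_add_phi_ne hs))

end ids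

section rows

variable {K : Type*} [Field K] {b : K} (hb : b ≠ 0)
include hb

theorem ncx : NC (cst (tate b)) (xF b) := (tr_xF hb).nc

theorem ncy : NC (cst (tate b)) (yF b) := ly_F.nc_y hb (tr_xF hb)

theorem nc2 : NC (cst (tate b)) ((1 + yF b) / xF b) := ly_F.nc_shift hb (tr_xF hb)

variable [NumberField K] (σ : K →+* ℂ)

theorem rowA (hk : 10 ^ 6 ≤ ‖σ b‖) : ∃ γ : Loop (tate b).toAffine.FunctionField,
    (∀ t c, γ.e t (cst _ c) = σ c) ∧ ∀ (s : K) (hs : s ≠ 0), b * (s - 1) = s ^ 2 * (s + 1) →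
      (‖σ s - 1‖ ≤ 1 / 1000 →
        |γ.pair (uP (ncx hb) hs) (uP (ncy hb) hs) + 8 * Real.pi * Real.log ‖σ b‖| ≤ 200 * Real.pi ∧
        |γ.pair (uZ (ncx hb) hs) (uZ (nc2 hb) hs)| ≤ 200 * Real.pi) ∧
      (1000 ≤ ‖σ s‖ →
        |γ.pair (uP (ncx hb) hs) (uP (ncy hb) hs)| ≤ 200 * Real.pi ∧
        |γ.pair (uZ (ncx hb) hs) (uZ (nc2 hb) hs)| ≤ 2 * Real.pi * Real.log ‖σ s‖ + 202 * Real.pi) := by
  obtain ⟨R, hR1, hR2, hRT⟩ := exists_transcendental_between (r := 1 / 4) (s := 1 / 3) (by norm_num)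
  obtain ⟨w, P, hw⟩ := exists_par hR1 hR2 hk
  obtain ⟨γ, g1, g2, g3⟩ := exists_loop_ly hb σ (circ R) (yy R (σ b) w) P.cx P.cy
    (transcendental_circ P.hR hRT) P.y_ne hw
  refine ⟨γ, g1, fun s hs hrel => ?_⟩
  have hrel' : σ b * (σ s - 1) = σ s ^ 2 * (σ s + 1) := by
    have := congrArg σ hrel
    simpa only [map_mul, map_sub, map_add, map_pow, map_one] using this
  have e1 : ∀ t, γ.e t (uP (ncx hb) hs : (tate b).toAffine.FunctionField) = Phi (σ s) (circ R t) := fun t => by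
    show γ.e t (Phi (cst (tate b) s) (xF b)) = _
    rw [map_Phi, g1, g2]
  have e2 : ∀ t, γ.e t (uP (ncy hb) hs : (tate b).toAffine.FunctionField) = Phi (σ s) (yy R (σ b) w t) := fun t => by
    show γ.e t (Phi (cst (tate b) s) (yF b)) = _
    rw [map_Phi, g1, g3]
  have e3 : ∀ t, γ.e t (uZ (ncx hb) hs : (tate b).toAffine.FunctionField) = ZPhi (σ s) (circ R t) := fun t => by
    show γ.e t (Zz (Phi (cst (tate b) s) (xF b))) = _
    rw [(ncx hb).zPhi hs, map_ZPhi, g1, g2]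
  have e4 : ∀ t, γ.e t (uZ (nc2 hb) hs : (tate b).toAffine.FunctionField) =
      ZPhi (σ s) ((1 + yy R (σ b) w t) / circ R t) := fun t => by
    show γ.e t (Zz (Phi (cst (tate b) s) ((1 + yF b) / xF b))) = _
    rw [(nc2 hb).zPhi hs, map_ZPhi, g1, map_div₀, map_add, map_one, g2, g3]
  exact ⟨fun h => ⟨est_I_PP P γ _ _ h hrel' e1 e2, est_I_Z2 P γ _ _ h e3 e4⟩,
    fun h => ⟨est_II_PP P γ _ _ h hrel' e1 e2, est_II_Z2 P γ _ _ h hrel' e3 e4⟩⟩

theorem rowB (hk : 10 ^ 6 ≤ ‖σ (-1 / b)‖) : ∃ γ : Loop (tate b).toAffine.FunctionField,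
    (∀ t c, γ.e t (cst _ c) = σ c) ∧ ∀ (s : K) (hs : s ≠ 0), b * (s - 1) = s ^ 2 * (s + 1) →
      (‖σ (-1 / s) - 1‖ ≤ 1 / 1000 →
        |γ.pair (uZ (ncx hb) hs) (uZ (nc2 hb) hs) + 8 * Real.pi * Real.log ‖σ (-1 / b)‖| ≤ 200 * Real.pi ∧
        |γ.pair (uP (ncx hb) hs) (uP (ncy hb) hs)| ≤ 200 * Real.pi) ∧
      (1000 ≤ ‖σ (-1 / s)‖ →
        |γ.pair (uZ (ncx hb) hs) (uZ (nc2 hb) hs)| ≤ 200 * Real.pi ∧
        |γ.pair (uP (ncx hb) hs) (uP (ncy hb) hs)| ≤ 2 * Real.pi * Real.log ‖σ (-1 / s)‖ + 202 * Real.pi) := by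
  obtain ⟨R, hR1, hR2, hRT⟩ := exists_transcendental_between (r := 1 / 4) (s := 1 / 3) (by norm_num)
  obtain ⟨w, P, hw⟩ := exists_par hR1 hR2 hk
  have hk0 : σ (-1 / b) ≠ 0 := P.k_ne
  have hT := transcendental_circ P.hR hRT
  set y' : ℝ → ℂ := yy R (σ (-1 / b)) w with hy'
  set x3 : ℝ → ℂ := fun t => (1 + circ R t + y' t) / (circ R t * y' t) with hx3
  have hne : ∀ t, 1 + circ R t ≠ 0 ∧ 1 + y' t ≠ 0 ∧ 1 + circ R t + y' t ≠ 0 := fun t =>
    ly_ne (hw t) hk0 (P.x_ne t) (P.y_ne t)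
  have h3 : ∀ t, 1 + x3 t ≠ 0 := fun t => by
    simp only [hx3]
    rw [x3_add_one (P.x_ne t) (P.y_ne t)]
    exact div_ne_zero (mul_ne_zero (hne t).1 (hne t).2.1) (mul_ne_zero (P.x_ne t) (P.y_ne t))
  have h30 : ∀ t, x3 t ≠ 0 := fun t =>
    div_ne_zero (hne t).2.2 (mul_ne_zero (P.x_ne t) (P.y_ne t))
  have cx3 : CC x3 := P.c_x3
  have cZx : CC (fun t => Zz (circ R t)) := P.cx.neg.div P.c1p P.ne1p
  have cZ3 : CC (fun t => Zz (x3 t)) := cx3.neg.div ((CC.const 1).add cx3) h3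
  have hbb : -1 / σ (-1 / b) = σ b := by
    rw [map_div₀, map_neg, map_one]
    have : σ b ≠ 0 := (_root_.map_ne_zero σ).2 hb
    field_simp
  obtain ⟨γ, g1, g2, g3⟩ := exists_loop_ly hb σ (fun t => Zz (circ R t)) (fun t => Zz (x3 t)) cZx cZ3
    (fun t halg => hT t (by
      have h5 : IsAlgebraic ℚ (-Zz (circ R t) * (1 + Zz (circ R t))⁻¹) :=
        halg.neg.mul (isAlgebraic_one.add halg).inv
      have h6 : -Zz (circ R t) * (1 + Zz (circ R t))⁻¹ = circ R t := by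
        rw [← div_eq_mul_inv]
        exact Zz_Zz (hne t).1
      rwa [h6] at h5))
    (fun t => Zz_ne_zero (h30 t) (h3 t)) (fun t => by
      have h5 := (hw t).zz3 hk0 (P.x_ne t) (P.y_ne t)
      rw [hbb] at h5
      exact h5)
  refine ⟨γ, g1, fun s hs hrel => ?_⟩
  have hrel' : σ (-1 / b) * (σ (-1 / s) - 1) = σ (-1 / s) ^ 2 * (σ (-1 / s) + 1) := by
    have h5 : (-1 / b) * ((-1 / s) - 1) = (-1 / s) ^ 2 * ((-1 / s) + 1) := by
      field_simp
      linear_combination -hrel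
    have := congrArg σ h5
    simpa only [map_mul, map_sub, map_add, map_pow, map_one] using this
  have f1 : ∀ t, γ.e t (Zz (xF b)) = circ R t := fun t => by
    rw [map_Zz, g2]; exact Zz_Zz (hne t).1
  have f2 : ∀ t, γ.e t (Zz (yF b)) = x3 t := fun t => by
    rw [map_Zz, g3]; exact Zz_Zz (h3 t)
  have f3 : ∀ t, γ.e t (Zz ((1 + yF b) / xF b)) = y' t := fun t => by
    rw [map_Zz, map_div₀, map_add, map_one, g2, g3]
    have h5 := zz3_back (P.x_ne t) (P.y_ne t) (hne t).1 (hne t).2.1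
    have h6 : (1 + Zz (x3 t)) / Zz (circ R t) = Zz (y' t) := h5
    rw [h6, Zz_Zz (hne t).2.1]
  have e1 : ∀ t, γ.e t (uP (ncx hb) hs : (tate b).toAffine.FunctionField) =
      ZPhi (σ (-1 / s)) (circ R t) := fun t => by
    show γ.e t (Phi (cst (tate b) s) (xF b)) = _
    rw [(ncx hb).phi_zz hs, map_ZPhi, g1, f1]
  have e2 : ∀ t, γ.e t (uP (ncy hb) hs : (tate b).toAffine.FunctionField) =
      ZPhi (σ (-1 / s)) ((1 + circ R t + yy R (σ (-1 / b)) w t) / (circ R t * yy R (σ (-1 / b)) w t)) := fun t => by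
    show γ.e t (Phi (cst (tate b) s) (yF b)) = _
    rw [(ncy hb).phi_zz hs, map_ZPhi, g1, f2]
  have e3 : ∀ t, γ.e t (uZ (ncx hb) hs : (tate b).toAffine.FunctionField) =
      Phi (σ (-1 / s)) (circ R t) := fun t => by
    show γ.e t (Zz (Phi (cst (tate b) s) (xF b))) = _
    rw [(ncx hb).zphi_zz hs, map_Phi, g1, f1]
  have e4 : ∀ t, γ.e t (uZ (nc2 hb) hs : (tate b).toAffine.FunctionField) =
      Phi (σ (-1 / s)) (yy R (σ (-1 / b)) w t) := fun t => by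
    show γ.e t (Zz (Phi (cst (tate b) s) ((1 + yF b) / xF b))) = _
    rw [(nc2 hb).zphi_zz hs, map_Phi, g1, f3]
  exact ⟨fun h => ⟨est_I_PP P γ _ _ h hrel' e3 e4, est_I_Z3 P γ _ _ h e1 e2⟩,
    fun h => ⟨est_II_PP P γ _ _ h hrel' e3 e4, est_II_Z3 P γ _ _ h e1 e2⟩⟩

end rows

end Pool.Agent.T6.H7.SX
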