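import Pool.Agent.T6.H7.SX.Bounds
import Pool.Agent.T6.H7.SX.Irr
set_option autoImplicit false

/-!
The totally real sextic fields.
-/

namespace Pool.Agent.T6.H7.SX

open Pool.Agent.W367.KT
open Polynomial NumberField
open scoped WithZero

section maps

variable {K L : Type*} [Field K] [Field L] (f : K →+* L) (n s : K)

theorem map_sTwo : f (sTwo n s) = sTwo (f n) (f s) := by
  unfold sTwo
  simp only [map_div₀, map_mul, map_sub, map_add, map_pow, map_one, map_ofNat]

theorem map_sThree : f (sThree n s) = sThree (f n) (f s) := by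
  unfold sThree
  rw [map_sub, map_sub, map_neg, map_one, map_sTwo]

theorem map_bPar : f (bPar n s) = bPar (f n) (f s) := by
  unfold bPar
  rw [map_neg, map_mul, map_mul, map_sTwo, map_sThree]

theorem map_sv (i : Fin 3) : f (sv n s i) = sv (f n) (f s) i := by
  fin_cases i
  · rfl
  · exact map_sTwo f n s
  · exact map_sThree f n s

end maps

section field

variable (n : ℤ) [hirr : Fact (Irreducible (PR (n : ℚ)))]

/-- the sextic field -/
abbrev Kn : Type := AdjoinRoot (PR (n : ℚ))

instance nf : NumberField (AdjoinRoot (PR (n : ℚ))) where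
  to_charZero := charZero_of_injective_algebraMap (algebraMap ℚ (AdjoinRoot (PR (n : ℚ)))).injective
  to_finiteDimensional := (AdjoinRoot.powerBasis hirr.out.ne_zero).finite

theorem finrank_Kn : Module.finrank ℚ (AdjoinRoot (PR (n : ℚ))) = 6 := by
  rw [(AdjoinRoot.powerBasis hirr.out.ne_zero).finrank, AdjoinRoot.powerBasis_dim, PR_natDegree]

theorem root_rel : (AdjoinRoot.root (PR (n : ℚ))) ^ 4 * (AdjoinRoot.root (PR (n : ℚ)) - n) ^ 2 -
    (n * AdjoinRoot.root (PR (n : ℚ)) - 1) ^ 2 - 4 * (AdjoinRoot.root (PR (n : ℚ))) ^ 3 = 0 := by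
  have key : ∀ q : ℚ[X], q = PR (n : ℚ) →
      q.eval₂ (AdjoinRoot.of (PR (n : ℚ))) (AdjoinRoot.root (PR (n : ℚ))) = 0 := by
    rintro _ rfl
    exact AdjoinRoot.eval₂_root _
  have h := key (X ^ 4 * (X - C (n : ℚ)) ^ 2 - (C (n : ℚ) * X - 1) ^ 2 - 4 * X ^ 3) rfl
  simp only [eval₂_sub, eval₂_mul, eval₂_pow, eval₂_X, eval₂_C, eval₂_one, eval₂_ofNat] at h
  simp only [map_intCast] at h
  exact h

omit hirr in
theorem eval_PR {R : Type*} [CommRing R] [Algebra ℚ R] (r : R) : (PR (n : ℚ)).eval₂ (algebraMap ℚ R) r =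
    r ^ 4 * (r - n) ^ 2 - (n * r - 1) ^ 2 - 4 * r ^ 3 := by
  unfold PR
  simp only [eval₂_sub, eval₂_mul, eval₂_pow, eval₂_X, eval₂_C, eval₂_one, eval₂_ofNat]
  simp only [map_intCast]

/-- the real embedding attached to a real root -/
noncomputable def tau {r : ℝ} (h : fr n r = 0) : AdjoinRoot (PR (n : ℚ)) →+* ℝ :=
  AdjoinRoot.lift (algebraMap ℚ ℝ) r (by rw [eval_PR]; exact h)

theorem tau_root {r : ℝ} (h : fr n r = 0) : tau n h (AdjoinRoot.root (PR (n : ℚ))) = r := by
  unfold tau
  rw [AdjoinRoot.lift_root]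

theorem tau_sv {r : ℝ} (h : fr n r = 0) (i : Fin 3) :
    tau n h (sv (n : AdjoinRoot (PR (n : ℚ))) (AdjoinRoot.root (PR (n : ℚ))) i) = sv (n : ℝ) r i := by
  rw [map_sv, map_intCast, tau_root]

theorem tau_bPar {r : ℝ} (h : fr n r = 0) :
    tau n h (bPar (n : AdjoinRoot (PR (n : ℚ))) (AdjoinRoot.root (PR (n : ℚ)))) = bPar (n : ℝ) r := by
  rw [map_bPar, map_intCast, tau_root]

/-- the complex embedding attached to a real root -/
noncomputable def sig {r : ℝ} (h : fr n r = 0) : AdjoinRoot (PR (n : ℚ)) →+* ℂ :=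
  Complex.ofRealHom.comp (tau n h)

theorem norm_sig {r : ℝ} (h : fr n r = 0) (x : AdjoinRoot (PR (n : ℚ))) : ‖sig n h x‖ = |tau n h x| := by
  show ‖((tau n h x : ℝ) : ℂ)‖ = _
  rw [Complex.norm_real, Real.norm_eq_abs]

/-- A field with six real roots is totally real. -/
theorem totReal (R : Finset ℝ) (hR : R.card = 6) (h : ∀ r ∈ R, fr n r = 0) :
    IsTotallyReal (AdjoinRoot (PR (n : ℚ))) := by
  refine ⟨fun v => ?_⟩
  rw [InfinitePlace.isReal_iff, ComplexEmbedding.isReal_iff]
  set φ := v.embedding with hφ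
  -- the complex roots are real
  have hm : (PR (n : ℂ)).Monic := PR_monic _
  have hz : φ (AdjoinRoot.root (PR (n : ℚ))) ∈ (PR (n : ℂ)).roots.toFinset := by
    rw [Multiset.mem_toFinset, mem_roots hm.ne_zero, IsRoot.def]
    have h1 := congrArg φ (root_rel n)
    simp only [map_sub, map_mul, map_pow, map_one, map_ofNat, map_intCast, map_zero] at h1
    unfold PR
    simp only [eval_sub, eval_mul, eval_pow, eval_X, eval_C, eval_one, eval_ofNat]
    exact h1
  have hsub : R.image (fun r : ℝ => (r : ℂ)) ⊆ (PR (n : ℂ)).roots.toFinset := by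
    intro z hz
    rw [Finset.mem_image] at hz
    obtain ⟨r, hr, rfl⟩ := hz
    rw [Multiset.mem_toFinset, mem_roots hm.ne_zero, IsRoot.def]
    have h1 := h r hr
    unfold fr at h1
    unfold PR
    simp only [eval_sub, eval_mul, eval_pow, eval_X, eval_C, eval_one, eval_ofNat]
    have h2 := congrArg (fun x : ℝ => (x : ℂ)) h1
    push_cast at h2
    exact h2
  have hcard : (R.image (fun r : ℝ => (r : ℂ))).card = 6 := by
    rw [Finset.card_image_of_injective _ Complex.ofReal_injective, hR]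
  have hle : (PR (n : ℂ)).roots.toFinset.card ≤ (R.image (fun r : ℝ => (r : ℂ))).card := by
    rw [hcard]
    calc _ ≤ Multiset.card (PR (n : ℂ)).roots := Multiset.toFinset_card_le _
      _ ≤ (PR (n : ℂ)).natDegree := card_roots' _
      _ = 6 := PR_natDegree _
  have heq := Finset.eq_of_subset_of_card_le hsub hle
  rw [← heq, Finset.mem_image] at hz
  obtain ⟨r, -, hr⟩ := hz
  apply AdjoinRoot.ringHom_ext
  · ext1 x
    simp
  · rw [ComplexEmbedding.conjugate_coe_eq, ← hr, Complex.conj_ofReal]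

theorem two_ne_Kn : (2 : AdjoinRoot (PR (n : ℚ))) ≠ 0 := two_ne_zero

/-- Six independent classes. -/
theorem indep_Kn (hn : Real.exp 408 ≤ n) :
    IsTotallyReal (AdjoinRoot (PR (n : ℚ))) ∧
    FullRank (tate (bPar (n : AdjoinRoot (PR (n : ℚ))) (AdjoinRoot.root (PR (n : ℚ))))) 6 := by
  have hn100 : (100 : ℝ) ≤ n := by
    have := (exp_bounds hn).2.1
    linarith
  have hn0 : (0 : ℝ) < n := by linarith
  obtain ⟨r1, a1, b1, f1⟩ := root1 hn100
  obtain ⟨r2, a2, b2, f2⟩ := root2 hn100
  obtain ⟨r3, a3, b3, f3⟩ := root3 hn100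
  obtain ⟨r4, a4, b4, f4⟩ := root4 hn100
  obtain ⟨r5, a5, b5, f5⟩ := root5 hn100
  obtain ⟨r6, a6, b6, f6⟩ := root6 hn100
  have f5' := fr_inv (by linarith : r5 ≠ 0) f5
  have f6' := fr_inv (by
    have : 6 / (n:ℝ) ≤ 6 / 100 := div_le_div_of_nonneg_left (by norm_num) (by norm_num) hn100
    linarith : r6 ≠ 0) f6
  have h5 : 0 < r5 := by linarith
  have e2 : 2 / (n:ℝ) ≤ 2 / 100 := div_le_div_of_nonneg_left (by norm_num) (by norm_num) hn100
  have e6 : 6 / (n:ℝ) ≤ 6 / 100 := div_le_div_of_nonneg_left (by norm_num) (by norm_num) hn100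
  have e1 : 1 / (n:ℝ) ≤ 1 / 100 := one_div_le_one_div_of_le (by norm_num) hn100
  have h56 : r5 < r6 := by linarith
  have i56 : r6⁻¹ < r5⁻¹ := (inv_lt_inv₀ (by linarith) h5).2 h56
  have i6 : 0 < r6⁻¹ := inv_pos.2 (by linarith)
  have i5 : r5⁻¹ < 1 := inv_lt_one_of_one_lt₀ (by linarith)
  have i4 : r4 < 0 := by linarith
  have i13 : r1 < r3 := by linarith
  have i32 : r3 < r2 := by linarith
  constructor
  · set g : Fin 6 → ℝ := ![r4, r6⁻¹, r5⁻¹, r1, r3, r2] with hg
    have hmono : StrictMono g := by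
      rw [Fin.strictMono_iff_lt_succ]
      intro i
      fin_cases i
      · show r4 < r6⁻¹
        linarith
      · exact i56
      · show r5⁻¹ < r1
        linarith
      · exact i13
      · exact i32
    refine totReal n (Finset.univ.image g) ?_ ?_
    · rw [Finset.card_image_of_injective _ hmono.injective, Finset.card_univ, Fintype.card_fin]
    · intro r hr
      rw [Finset.mem_image] at hr
      obtain ⟨i, -, rfl⟩ := hr
      fin_cases i
      · exact f4
      · exact f6'
      · exact f5'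
      · exact f1
      · exact f3
      · exact f2
  · set s := AdjoinRoot.root (PR (n : ℚ)) with hs
    have h := root_rel n
    rw [← hs] at h
    have h2 := two_ne_Kn n
    have hb : bPar (n : AdjoinRoot (PR (n : ℚ))) s ≠ 0 := bPar_ne h h2
    have hrel : ∀ j, bPar (n : AdjoinRoot (PR (n : ℚ))) s * (sv (n : AdjoinRoot (PR (n : ℚ))) s j - 1) =
        sv (n : AdjoinRoot (PR (n : ℚ))) s j ^ 2 * (sv (n : AdjoinRoot (PR (n : ℚ))) s j + 1) := by
      intro j
      fin_cases j
      · exact s_rel h h2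
      · exact sTwo_rel h h2
      · exact sThree_rel h h2
    have hs0 : ∀ j, sv (n : AdjoinRoot (PR (n : ℚ))) s j ≠ 0 := by
      intro j
      fin_cases j
      · exact s_ne h
      · exact sTwo_ne h h2
      · exact sThree_ne h h2
    have hw : ∀ (w : Valuation (AdjoinRoot (PR (n : ℚ))) ℤᵐ⁰) (j : Fin 3),
        w (sv (n : AdjoinRoot (PR (n : ℚ))) s j) = 1 := by
      intro w j
      fin_cases j
      · exact w_s w h
      · exact w_sTwo w h h2
      · exact w_sThree w h h2
    refine main_gen hb (sv (n : AdjoinRoot (PR (n : ℚ))) s) hs0 (fun j => sub_ne_of_rel h2 (hrel j)) hrel ?_ ?_ ?_ ?_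
      ![sig n f1, sig n f2, sig n f3] ![sig n f4, sig n f5', sig n f6'] ?_ ?_ ?_
    · show s + sTwo _ s + sThree _ s = -1
      unfold sThree
      ring
    · show s * sTwo _ s * sThree _ s = - bPar _ s
      unfold bPar
      ring
    · exact hinv_rel h h2
    · intro j v
      exact w_kap (v.comap (cst (tate (bPar (n : AdjoinRoot (PR (n : ℚ))) s)))) h2 (hrel j) (hs0 j)
        (w_bPar _ h h2) (hw _ j)
    · intro i j hij
      have h3 : ∀ i, Sum.elim ![sig n f1, sig n f2, sig n f3] ![sig n f4, sig n f5', sig n f6'] i s =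
          ((Sum.elim ![r1, r2, r3] ![r4, r5⁻¹, r6⁻¹] i : ℝ) : ℂ) := by
        have key : ∀ {r : ℝ} (h : fr n r = 0), sig n h s = (r : ℂ) := fun h => by
          show ((tau n h s : ℝ) : ℂ) = _
          rw [hs, tau_root]
        rintro (i | i) <;> fin_cases i
        · exact key f1
        · exact key f2
        · exact key f3
        · exact key f4
        · exact key f5'
        · exact key f6'
      have h4 : (Sum.elim ![r1, r2, r3] ![r4, r5⁻¹, r6⁻¹] i : ℝ) =
          Sum.elim ![r1, r2, r3] ![r4, r5⁻¹, r6⁻¹] j := by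
        have h5 := RingHom.congr_fun hij s
        rw [h3, h3] at h5
        exact_mod_cast h5
      rcases i with i | i <;> rcases j with j | j <;> fin_cases i <;> fin_cases j <;>
        first
          | rfl
          | (exfalso; simp at h4; linarith)
    · intro i
      fin_cases i
      · obtain ⟨h5, h6⟩ := bd1 hn100 f1 a1 b1
        refine ⟨?_, ?_⟩
        · show Real.exp 408 ≤ ‖sig n f1 _‖
          rw [norm_sig, tau_bPar]
          exact hn.trans h5
        · show ‖sig n f1 _‖ ≤ 10
          rw [norm_sig, tau_sv]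
          exact h6
      · obtain ⟨h5, h6⟩ := bd2 hn100 f2 a2 b2
        refine ⟨?_, ?_⟩
        · show Real.exp 408 ≤ ‖sig n f2 _‖
          rw [norm_sig, tau_bPar]
          exact hn.trans h5
        · show ‖sig n f2 _‖ ≤ 10
          rw [norm_sig, tau_sv]
          exact h6
      · obtain ⟨h5, h6⟩ := bd3 hn100 f3 a3 b3
        refine ⟨?_, ?_⟩
        · show Real.exp 408 ≤ ‖sig n f3 _‖
          rw [norm_sig, tau_bPar]
          exact hn.trans h5
        · show ‖sig n f3 _‖ ≤ 10
          rw [norm_sig, tau_sv]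
          exact h6
    · intro i
      fin_cases i
      · obtain ⟨h5, h6⟩ := bd4 hn100 f4 a4 b4
        refine ⟨?_, ?_⟩
        · show Real.exp 408 ≤ ‖sig n f4 _‖
          rw [norm_sig, map_div₀, map_neg, map_one, tau_bPar]
          exact hn.trans h5
        · show ‖sig n f4 _‖ ≤ 10
          rw [norm_sig, map_div₀, map_neg, map_one, tau_sv]
          exact h6
      · obtain ⟨h5, h6⟩ := bd5 hn100 f5 a5 b5
        refine ⟨?_, ?_⟩
        · show Real.exp 408 ≤ ‖sig n f5' _‖
          rw [norm_sig, map_div₀, map_neg, map_one, tau_bPar]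
          exact hn.trans h5
        · show ‖sig n f5' _‖ ≤ 10
          rw [norm_sig, map_div₀, map_neg, map_one, tau_sv]
          exact h6
      · obtain ⟨h5, h6⟩ := bd6 hn100 f6 a6 b6
        refine ⟨?_, ?_⟩
        · show Real.exp 408 ≤ ‖sig n f6' _‖
          rw [norm_sig, map_div₀, map_neg, map_one, tau_bPar]
          exact hn.trans h5
        · show ‖sig n f6' _‖ ≤ 10
          rw [norm_sig, map_div₀, map_neg, map_one, tau_sv]
          exact h6

theorem elliptic_of {K : Type*} [Field K] {b : K} (σ : K →+* ℝ) (hb : 100 ≤ |σ b|) :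
    (tate b).IsElliptic := by
  refine ⟨?_⟩
  rw [isUnit_iff_ne_zero, tate_Δ]
  intro h0
  have h1 := congrArg σ h0
  simp only [map_mul, map_sub, map_pow, map_one, map_ofNat, map_zero] at h1
  rcases mul_eq_zero.1 h1 with h2 | h2
  · have h3 : σ b = 0 := by simpa using h2
    rw [h3, abs_zero] at hb
    linarith
  · rcases abs_cases (σ b) with ⟨h3, h4⟩ | ⟨h3, h4⟩
    · nlinarith
    · nlinarith

theorem elliptic_Kn (hn : Real.exp 408 ≤ n) :
    (tate (bPar (n : AdjoinRoot (PR (n : ℚ))) (AdjoinRoot.root (PR (n : ℚ))))).IsElliptic := by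
  have hn100 : (100 : ℝ) ≤ n := by
    have := (exp_bounds hn).2.1
    linarith
  obtain ⟨r1, a1, b1, f1⟩ := root1 hn100
  obtain ⟨h5, h6⟩ := bd1 hn100 f1 a1 b1
  apply elliptic_of (tau n f1)
  rw [tau_bPar]
  exact hn100.trans h5

end field

end Pool.Agent.T6.H7.SX
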