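import Pool.Agent.T6.H7.SX.Wei
set_option autoImplicit false

/-!
Elliptic curves with a point of order five.
-/

namespace Pool.Agent.T6.H7.SX

open Pool.Agent.W367.KT
open Polynomial

/-- Tate's normal form `Y² + (1 - b) X Y - b Y = X³ - b X²` of the elliptic curves with a point of
order five -/
def tate {K : Type*} [Field K] (b : K) : WeierstrassCurve K := ⟨1 - b, -b, -b, 0, 0⟩

section

variable {K : Type*} [Field K] (b : K)

theorem tate_Δ : (tate b).Δ = b ^ 5 * (b ^ 2 - 11 * b - 1) := by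
  unfold WeierstrassCurve.Δ WeierstrassCurve.b₂ WeierstrassCurve.b₄ WeierstrassCurve.b₆
    WeierstrassCurve.b₈ tate
  ring

theorem tate_eqn : Yf (tate b) ^ 2 + (1 - cst _ b) * Xf (tate b) * Yf (tate b) - cst _ b * Yf (tate b) =
    Xf (tate b) ^ 3 - cst _ b * Xf (tate b) ^ 2 := by
  have h := weq (tate b)
  have h1 : cst (tate b) (tate b).a₁ = 1 - cst _ b := by
    show cst (tate b) (1 - b) = _
    rw [map_sub, map_one]
  have h2 : cst (tate b) (tate b).a₃ = - cst _ b := by
    show cst (tate b) (-b) = _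
    rw [map_neg]
  have h3 : cst (tate b) (tate b).a₂ = - cst _ b := by
    show cst (tate b) (-b) = _
    rw [map_neg]
  have h4 : cst (tate b) (tate b).a₄ = 0 := by
    show cst (tate b) 0 = _
    rw [map_zero]
  have h5 : cst (tate b) (tate b).a₆ = 0 := by
    show cst (tate b) 0 = _
    rw [map_zero]
  rw [h1, h2, h3, h4, h5] at h
  linear_combination h

/-- the function `x` of the Lyness pair -/
noncomputable def xF : (tate b).toAffine.FunctionField := -cst _ b / Xf (tate b)

/-- the function `y` of the Lyness pair -/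
noncomputable def yF : (tate b).toAffine.FunctionField :=
  -(Yf (tate b) + Xf (tate b) - cst _ b) / (Yf (tate b) + (1 - cst _ b) * Xf (tate b) - cst _ b)

variable {b} (hb : b ≠ 0)

theorem Xf_ne : Xf (tate b) ≠ 0 := (tr_X (tate b)).nc.ne_zero

theorem Xf_sub_ne : Xf (tate b) - cst _ b ≠ 0 := (tr_X (tate b)).nc.sub_ne b

theorem den_ne : Yf (tate b) + (1 - cst _ b) * Xf (tate b) - cst _ b ≠ 0 := by
  intro h
  have h1 := tate_eqn b
  have h2 : Yf (tate b) = cst _ b - (1 - cst _ b) * Xf (tate b) := by linear_combination h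
  rw [h2] at h1
  have h3 : Xf (tate b) ^ 2 * (Xf (tate b) - cst _ b) = 0 := by linear_combination -h1
  exact mul_ne_zero (pow_ne_zero 2 Xf_ne) Xf_sub_ne h3

include hb

theorem cb_ne : cst (tate b) b ≠ 0 := (_root_.map_ne_zero _).2 hb

omit hb in
theorem ly_F : Ly (cst (tate b) b) (xF b) (yF b) := by
  have h1 := tate_eqn b
  have h2 := Xf_ne (b := b)
  have h3 := den_ne (b := b)
  unfold Ly xF yF
  generalize Xf (tate b) = X at *
  generalize Yf (tate b) = Y at *
  generalize cst (tate b) b = k at *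
  obtain ⟨D, hD⟩ : ∃ D, D = Y + (1 - k) * X - k := ⟨_, rfl⟩
  rw [← hD] at h3 ⊢
  field_simp
  rw [hD]
  linear_combination (-X * k ^ 2) * h1

omit hb in
theorem tr_of_isAlgebraic {F : Type*} [Field F] (φ : K →+* F) (x : F)
    (h : letI := φ.toAlgebra; ¬ IsAlgebraic K x) : Tr φ x := by
  intro p hp h0
  let _ := φ.toAlgebra
  exact h ⟨p, hp, h0⟩

theorem tr_xF : Tr (cst (tate b)) (xF b) := by
  apply tr_of_isAlgebraic
  let _ := (cst (tate b)).toAlgebra
  intro h
  have h1 : IsAlgebraic K (algebraMap K (tate b).toAffine.FunctionField (-b) * (xF b)⁻¹) :=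
    (isAlgebraic_algebraMap _).mul h.inv
  have h2 : algebraMap K (tate b).toAffine.FunctionField (-b) * (xF b)⁻¹ = Xf (tate b) := by
    have h3 : algebraMap K (tate b).toAffine.FunctionField (-b) = - cst (tate b) b := by
      show cst (tate b) (-b) = _
      rw [map_neg]
    rw [h3]
    unfold xF
    have := Xf_ne (b := b)
    have := cb_ne hb
    field_simp
  rw [h2] at h1
  obtain ⟨p, hp, hp2⟩ := h1
  exact tr_X (tate b) p hp hp2

theorem yF_ne : yF b ≠ 0 := by
  have h := ly_F (b := b)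
  have hx := (tr_xF hb).nc.ne_zero
  have hx1 := (tr_xF hb).nc.one_add_ne
  intro h0
  unfold Ly at h
  rw [h0] at h
  have : (1 + xF b) ^ 2 = 0 := by linear_combination h
  exact pow_ne_zero 2 hx1 this

end

section loop

variable {K : Type*} [Field K] {b : K} (hb : b ≠ 0) (σ : K →+* ℂ)

/-- the functions `X` and `Y` in terms of the Lyness pair -/
noncomputable def XX (k x : ℂ) : ℂ := -k / x

noncomputable def YY (k x y : ℂ) : ℂ := (k - XX k x - y * ((1 - k) * XX k x - k)) / (1 + y)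

theorem ly_ne {F : Type*} [Field F] {k x y : F} (h : Ly k x y) (hk : k ≠ 0) (hx : x ≠ 0) (hy : y ≠ 0) :
    1 + x ≠ 0 ∧ 1 + y ≠ 0 ∧ 1 + x + y ≠ 0 := by
  unfold Ly at h
  have h0 : (1 + x) * (1 + y) * (1 + x + y) ≠ 0 := by
    rw [h]; exact mul_ne_zero (mul_ne_zero hk hx) hy
  exact ⟨fun h1 => h0 (by rw [h1]; ring), fun h1 => h0 (by rw [h1]; ring), fun h1 => h0 (by rw [h1]; ring)⟩

theorem we_tate {x y : ℂ} (hk : σ b ≠ 0) (h : Ly (σ b) x y) (hx : x ≠ 0) (hy : y ≠ 0) :
    WE (tate b) σ (XX (σ b) x) (YY (σ b) x y) := by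
  obtain ⟨-, h1, -⟩ := ly_ne h hk hx hy
  have e1 : σ (tate b).a₁ = 1 - σ b := by
    show σ (1 - b) = _
    rw [map_sub, map_one]
  have e2 : σ (tate b).a₃ = - σ b := by
    show σ (-b) = _
    rw [map_neg]
  have e3 : σ (tate b).a₂ = - σ b := by
    show σ (-b) = _
    rw [map_neg]
  have e4 : σ (tate b).a₄ = 0 := by
    show σ 0 = _
    rw [map_zero]
  have e5 : σ (tate b).a₆ = 0 := by
    show σ 0 = _
    rw [map_zero]
  unfold WE
  rw [e1, e2, e3, e4, e5]
  unfold YY XX
  unfold Ly at h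
  generalize σ b = k at *
  obtain ⟨D, hD⟩ : ∃ D, D = 1 + y := ⟨_, rfl⟩
  rw [← hD] at h1 ⊢
  field_simp
  rw [hD]
  linear_combination (k^3) * h

theorem algebraic_sigma [NumberField K] (c : K) : IsAlgebraic ℚ (σ c) :=
  (Algebra.IsAlgebraic.isAlgebraic (R := ℚ) c).algHom σ.toRatAlgHom

include hb in
/-- closed paths with prescribed Lyness pairs -/
theorem exists_loop_ly [NumberField K] (x y : ℝ → ℂ) (cx : CC x) (cy : CC y)
    (hx : ∀ t, Transcendental ℚ (x t)) (hy : ∀ t, y t ≠ 0) (h : ∀ t, Ly (σ b) (x t) (y t)) :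
    ∃ γ : Loop (tate b).toAffine.FunctionField, (∀ t c, γ.e t (cst _ c) = σ c) ∧
      (∀ t, γ.e t (xF b) = x t) ∧ ∀ t, γ.e t (yF b) = y t := by
  have hk : σ b ≠ 0 := (_root_.map_ne_zero σ).2 hb
  have hx0 : ∀ t, x t ≠ 0 := fun t h0 => by
    apply hx t
    rw [h0]
    exact isAlgebraic_zero
  have hy1 : ∀ t, 1 + y t ≠ 0 := fun t => (ly_ne (h t) hk (hx0 t) (hy t)).2.1
  have hX : ∀ t, Transcendental ℚ (XX (σ b) (x t)) := by
    intro t halg
    apply hx t
    have h1 : IsAlgebraic ℚ (-σ b * (XX (σ b) (x t))⁻¹) := (algebraic_sigma σ b).neg.mul halg.inv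
    have h2 : -σ b * (XX (σ b) (x t))⁻¹ = x t := by
      unfold XX
      have := hx0 t
      field_simp
    rwa [h2] at h1
  have cX : CC (fun t => XX (σ b) (x t)) := (CC.const (-σ b)).div cx hx0
  have cY : CC (fun t => YY (σ b) (x t) (y t)) :=
    (((CC.const (σ b)).sub cX).sub (cy.mul (((CC.const (1 - σ b)).mul cX).sub (CC.const (σ b))))).div
      ((CC.const 1).add cy) hy1
  refine ⟨wLoop σ (fun t => XX (σ b) (x t)) (fun t => YY (σ b) (x t) (y t))
    (fun t => we_tate σ hk (h t) (hx0 t) (hy t)) hX cX cY, ?_, ?_, ?_⟩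
  · intro t c
    exact evW_cst σ (we_tate σ hk (h t) (hx0 t) (hy t)) (hX t) c
  · intro t
    show evW σ (we_tate σ hk (h t) (hx0 t) (hy t)) (hX t) (xF b) = x t
    unfold xF
    rw [map_div₀, map_neg, evW_cst, evW_Xf]
    unfold XX
    have := hx0 t
    field_simp
  · intro t
    show evW σ (we_tate σ hk (h t) (hx0 t) (hy t)) (hX t) (yF b) = y t
    unfold yF
    rw [map_div₀, map_neg, map_sub, map_add, map_sub, map_add, map_mul, map_sub, map_one, evW_cst, evW_Xf,
      evW_Yf]
    have h1 := hx0 t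
    have h2 := hy1 t
    have e1 : YY (σ b) (x t) (y t) + (1 - σ b) * XX (σ b) (x t) - σ b = -(σ b * XX (σ b) (x t)) / (1 + y t) := by
      unfold YY
      field_simp
      ring
    have e2 : YY (σ b) (x t) (y t) + XX (σ b) (x t) - σ b = y t * (σ b * XX (σ b) (x t)) / (1 + y t) := by
      unfold YY
      field_simp
      ring
    rw [e1, e2]
    have h3 : XX (σ b) (x t) ≠ 0 := by
      unfold XX
      exact div_ne_zero (neg_ne_zero.2 hk) h1
    field_simp

end loop

end Pool.Agent.T6.H7.SX
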