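import Pool.Agent.T6.H7.SX.Branch
set_option autoImplicit false

/-!
Function fields of Weierstrass curves and closed paths on them.
-/

namespace Pool.Agent.T6.H7.SX

open Pool.Agent.W367.KT
open Polynomial

section FFW

variable {K : Type*} [Field K] (W : WeierstrassCurve K)

/-- the constants of the function field -/
noncomputable def cst : K →+* W.toAffine.FunctionField :=
  (algebraMap W.toAffine.CoordinateRing W.toAffine.FunctionField).comp
    ((AdjoinRoot.of W.toAffine.polynomial).comp C)

/-- the function `X` -/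
noncomputable def Xf : W.toAffine.FunctionField :=
  algebraMap W.toAffine.CoordinateRing W.toAffine.FunctionField (AdjoinRoot.of W.toAffine.polynomial X)

/-- the function `Y` -/
noncomputable def Yf : W.toAffine.FunctionField :=
  algebraMap W.toAffine.CoordinateRing W.toAffine.FunctionField (AdjoinRoot.root W.toAffine.polynomial)

theorem weq : Yf W ^ 2 + cst W W.a₁ * Xf W * Yf W + cst W W.a₃ * Yf W =
    Xf W ^ 3 + cst W W.a₂ * Xf W ^ 2 + cst W W.a₄ * Xf W + cst W W.a₆ := by
  have key : ∀ q : K[X][X], q = W.toAffine.polynomial →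
      q.eval₂ (AdjoinRoot.of W.toAffine.polynomial) (AdjoinRoot.root W.toAffine.polynomial) = 0 := by
    rintro _ rfl
    exact AdjoinRoot.eval₂_root _
  have h := key (X ^ 2 + C (C W.a₁ * X + C W.a₃) * X -
    C (X ^ 3 + C W.a₂ * X ^ 2 + C W.a₄ * X + C W.a₆)) rfl
  simp only [eval₂_add, eval₂_sub, eval₂_mul, eval₂_pow, eval₂_X, eval₂_C] at h
  have h2 := congrArg (algebraMap W.toAffine.CoordinateRing W.toAffine.FunctionField) h
  simp only [map_add, map_sub, map_mul, map_pow, map_zero] at h2
  unfold Xf Yf cst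
  simp only [RingHom.comp_apply]
  linear_combination h2

theorem eval₂_Xf (p : K[X]) : p.eval₂ (cst W) (Xf W) =
    algebraMap W.toAffine.CoordinateRing W.toAffine.FunctionField (AdjoinRoot.of W.toAffine.polynomial p) := by
  unfold cst Xf
  rw [← RingHom.comp_assoc]
  set g := (algebraMap W.toAffine.CoordinateRing W.toAffine.FunctionField).comp
    (AdjoinRoot.of W.toAffine.polynomial) with hg
  show eval₂ (g.comp C) (g X) p = g p
  rw [← hom_eval₂, eval₂_C_X]

theorem tr_X : Tr (cst W) (Xf W) := by
  intro p hp h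
  rw [eval₂_Xf] at h
  apply hp
  have h1 : AdjoinRoot.of W.toAffine.polynomial p = 0 := by
    apply IsFractionRing.injective W.toAffine.CoordinateRing W.toAffine.FunctionField
    rw [h, map_zero]
  have h2 : Function.Injective (algebraMap K[X] W.toAffine.CoordinateRing) :=
    FaithfulSMul.algebraMap_injective _ _
  apply h2
  rw [map_zero]
  exact h1

variable (σ : K →+* ℂ)

/-- the equation of the curve -/
def WE (X Y : ℂ) : Prop := Y ^ 2 + σ W.a₁ * X * Y + σ W.a₃ * Y =
    X ^ 3 + σ W.a₂ * X ^ 2 + σ W.a₄ * X + σ W.a₆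

variable {W}

/-- evaluation of the coordinate ring at a point -/
noncomputable def evC {X Y : ℂ} (h : WE W σ X Y) : W.toAffine.CoordinateRing →+* ℂ :=
  AdjoinRoot.lift (eval₂RingHom σ X) Y (by
    unfold WeierstrassCurve.Affine.polynomial
    simp only [eval₂_add, eval₂_sub, eval₂_mul, eval₂_pow, eval₂_X, eval₂_C, coe_eval₂RingHom]
    unfold WE at h
    linear_combination h)

theorem evC_of {X Y : ℂ} (h : WE W σ X Y) (p : K[X]) :
    evC σ h (AdjoinRoot.of W.toAffine.polynomial p) = p.eval₂ σ X := by
  unfold evC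
  rw [AdjoinRoot.lift_of]
  rfl

theorem evC_root {X Y : ℂ} (h : WE W σ X Y) :
    evC σ h (AdjoinRoot.root W.toAffine.polynomial) = Y := by
  unfold evC
  rw [AdjoinRoot.lift_root]

variable [NumberField K]

theorem evC_injective {X Y : ℂ} (h : WE W σ X Y) (hX : Transcendental ℚ X) :
    Function.Injective (evC σ h) := by
  have hfin : Module.Finite K[X] W.toAffine.CoordinateRing :=
    Module.Finite.of_basis (WeierstrassCurve.Affine.CoordinateRing.basis W.toAffine)
  have hint : Algebra.IsIntegral K[X] W.toAffine.CoordinateRing := Algebra.IsIntegral.of_finite _ _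
  rw [RingHom.injective_iff_ker_eq_bot]
  apply Ideal.eq_bot_of_comap_eq_bot (R := K[X])
  rw [eq_bot_iff]
  intro p hp
  rw [Ideal.mem_comap, RingHom.mem_ker] at hp
  have h2 : p.eval₂ σ X = 0 := by
    rw [← evC_of σ h p]
    exact hp
  rw [Ideal.mem_bot]
  exact (injective_iff_map_eq_zero _).1 (eval₂_injective σ hX) p h2

/-- evaluation of the function field at a point -/
noncomputable def evW {X Y : ℂ} (h : WE W σ X Y) (hX : Transcendental ℚ X) :
    W.toAffine.FunctionField →+* ℂ :=
  IsFractionRing.lift (evC_injective σ h hX)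

theorem evW_algebraMap {X Y : ℂ} (h : WE W σ X Y) (hX : Transcendental ℚ X)
    (a : W.toAffine.CoordinateRing) :
    evW σ h hX (algebraMap W.toAffine.CoordinateRing W.toAffine.FunctionField a) = evC σ h a :=
  IsFractionRing.lift_algebraMap (evC_injective σ h hX) a

theorem evW_cst {X Y : ℂ} (h : WE W σ X Y) (hX : Transcendental ℚ X) (c : K) :
    evW σ h hX (cst W c) = σ c := by
  unfold cst
  rw [RingHom.comp_apply, evW_algebraMap, RingHom.comp_apply, evC_of, eval₂_C]

theorem evW_Xf {X Y : ℂ} (h : WE W σ X Y) (hX : Transcendental ℚ X) :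
    evW σ h hX (Xf W) = X := by
  unfold Xf
  rw [evW_algebraMap, evC_of, eval₂_X]

theorem evW_Yf {X Y : ℂ} (h : WE W σ X Y) (hX : Transcendental ℚ X) :
    evW σ h hX (Yf W) = Y := by
  unfold Yf
  rw [evW_algebraMap, evC_root]

/-- closed paths on the curve -/
noncomputable def wLoop (X Y : ℝ → ℂ) (h : ∀ t, WE W σ (X t) (Y t)) (hX : ∀ t, Transcendental ℚ (X t))
    (cX : CC X) (cY : CC Y) : Loop W.toAffine.FunctionField where
  e t := evW σ (h t) (hX t)
  smooth f := by
    obtain ⟨a, b, hb, rfl⟩ := IsFractionRing.div_surjective (A := W.toAffine.CoordinateRing) f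
    have hb0 : b ≠ 0 := nonZeroDivisors.ne_zero hb
    have key : ∀ a : W.toAffine.CoordinateRing, ContDiff ℝ 1 (fun t => evC σ (h t) a) := by
      intro a
      obtain ⟨p, rfl⟩ := AdjoinRoot.mk_surjective a
      have h2 : (fun t => evC σ (h t) (AdjoinRoot.mk _ p)) =
          fun t => ∑ i ∈ Finset.range (p.natDegree + 1), (p.coeff i).eval₂ σ (X t) * (Y t) ^ i := by
        funext t
        unfold evC
        rw [AdjoinRoot.lift_mk, Polynomial.eval₂_eq_sum_range]
        rfl
      rw [h2]
      apply ContDiff.sum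
      intro i _
      refine ContDiff.mul ?_ (cY.1.pow i)
      simp only [Polynomial.eval₂_eq_sum_range]
      apply ContDiff.sum
      intro j _
      exact contDiff_const.mul (cX.1.pow j)
    have h2 : (fun t => evW σ (h t) (hX t) (algebraMap W.toAffine.CoordinateRing W.toAffine.FunctionField a /
        algebraMap W.toAffine.CoordinateRing W.toAffine.FunctionField b)) =
        fun t => evC σ (h t) a * (evC σ (h t) b)⁻¹ := by
      funext t
      rw [map_div₀, evW_algebraMap, evW_algebraMap, div_eq_mul_inv]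
    rw [h2]
    refine (key a).mul ((key b).inv ?_)
    intro t ht
    apply hb0
    exact (injective_iff_map_eq_zero _).1 (evC_injective σ (h t) (hX t)) b ht
  closed := by
    have key : ∀ (X0 X1 Y0 Y1 : ℂ) (_ : X0 = X1) (_ : Y0 = Y1) (h0 : WE W σ X0 Y0) (h1 : WE W σ X1 Y1)
        (h2 : Transcendental ℚ X0) (h3 : Transcendental ℚ X1), evW σ h0 h2 = evW σ h1 h3 := by
      rintro X0 _ Y0 _ rfl rfl h0 h1 h2 h3
      rfl
    exact key _ _ _ _ cX.2 cY.2 _ _ _ _

end FFW

end Pool.Agent.T6.H7.SX
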